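import Mathlib

namespace Pool.Agent.Helper273.Sup

open IntermediateField

/-- The compositum in `K` of all the fields `[t_1, ..., t_r]` (algebraic closure of
`k(t_1, ..., t_r)` in `K`) with `t_1, ..., t_r` in `M`. -/
noncomputable def step {k K : Type*} [Field k] [Field K] [Algebra k K] (r : ℕ)
    (M : IntermediateField k K) : IntermediateField k K :=
  adjoin k {a : K | ∃ t : Fin r → K, (∀ i, t i ∈ M) ∧ IsAlgebraic (adjoin k (Set.range t)) a}

/-- `tower k x r s` is the field `M_r^s` of the problem for `s ≥ 1`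
(`M_r^1 = k(x_1, ..., x_n)`; the value at `s = 0` is a dummy). -/
noncomputable def tower (k : Type*) {K : Type*} [Field k] [Field K] [Algebra k K] {n : ℕ}
    (x : Fin n → K) (r : ℕ) : ℕ → IntermediateField k K
  | 0 => adjoin k (Set.range x)
  | 1 => adjoin k (Set.range x)
  | (s + 2) => step r (tower k x r (s + 1))

/-- `y` is the list of all roots of `T^n + x_1 T^(n-1) + ... + x_n`. -/
def IsRoots {K : Type*} [Field K] {n : ℕ} (x y : Fin n → K) : Prop :=
  ∏ i, (Polynomial.X - Polynomial.C (y i)) =
    Polynomial.X ^ n + ∑ i : Fin n, Polynomial.C (x i) * Polynomial.X ^ (n - 1 - (i : ℕ))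

/-- The `x_i` are independent indeterminates over `k` and `K` is algebraic over `k(x)`. -/
structure Gen (k : Type*) {K : Type*} [Field k] [Field K] [Algebra k K] {n : ℕ}
    (x : Fin n → K) : Prop where
  indep : AlgebraicIndependent k x
  alg : Algebra.IsAlgebraic (adjoin k (Set.range x)) K

/-- The cross ratio. -/
def cr {K : Type*} [Field K] (a b c d : K) : K := ((a - c) * (b - d)) / ((a - d) * (b - c))

/-- The roots of the resolvent cubic. -/
def al {K : Type*} [Field K] (y : Fin 4 → K) : Fin 3 → K :=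
  ![(y 0 + y 1 - y 2 - y 3) ^ 2, (y 0 - y 1 + y 2 - y 3) ^ 2, (y 0 - y 1 - y 2 + y 3) ^ 2]

/-- Lagrange resolvents. -/
def res {K : Type*} [Field K] (w : K) (z : Fin 5 → K) : K := ∑ i : Fin 5, w ^ (i : ℕ) * z i

end Pool.Agent.Helper273.Sup
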