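import Pool.Agent.Helper273.Sup.Defs



namespace Pool.Agent.Helper273.Sup
open IntermediateField


theorem alg_inf {k K : Type*} [Field k] [Field K] [Algebra k K] [CharZero k] [IsAlgClosed K]
    (M F : IntermediateField k K) (hM : Algebra.IsAlgebraic M K)
    (hF : ∀ σ : K ≃ₐ[k] K, (∀ b ∈ M, σ b = b) → ∀ a ∈ F, σ a ∈ F) (a : K) (ha : a ∈ F) :
    IsAlgebraic (M ⊓ F : IntermediateField k K) a := by
  classical
  haveI : IsAlgClosure M K := ⟨inferInstance, hM⟩
  haveI : Normal M K := IsAlgClosure.normal M K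
  have hint : IsIntegral M a := (hM.isAlgebraic a).isIntegral
  set p := (minpoly M a).map (algebraMap M K) with hp
  have hpm : p.Monic := (minpoly.monic hint).map _
  have hps : p.Splits := IsAlgClosed.splits _
  have hroots : ∀ r ∈ p.roots, r ∈ F := by
    intro r hr
    have h1 : Polynomial.aeval r (minpoly M a) = 0 := by
      have := (Polynomial.mem_roots hpm.ne_zero).1 hr
      rw [Polynomial.IsRoot, hp, Polynomial.eval_map] at this
      exact this
    have h2 : IsConjRoot M r a := (isConjRoot_of_aeval_eq_zero hint h1).symm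
    obtain ⟨σ, hσ⟩ := h2.exists_algEquiv
    rw [← hσ]
    exact hF (σ.restrictScalars k) (fun b hb => σ.commutes ⟨b, hb⟩) a ha
  have hlift : p ∈ Polynomial.liftsRing (algebraMap F K) := by
    rw [hps.eq_prod_roots_of_monic hpm]
    apply Subring.multiset_prod_mem
    intro q hq
    obtain ⟨r, hr, rfl⟩ := Multiset.mem_map.1 hq
    apply Subring.sub_mem
    · rw [← Polynomial.lifts_iff_liftsRing]
      exact Polynomial.X_mem_lifts _
    · rw [← Polynomial.lifts_iff_liftsRing]
      exact Polynomial.C'_mem_lifts ⟨⟨r, hroots r hr⟩, rfl⟩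
  rw [← Polynomial.lifts_iff_liftsRing, Polynomial.lifts_iff_coeff_lifts] at hlift
  have hlift2 : p ∈ Polynomial.lifts (algebraMap (M ⊓ F : IntermediateField k K) K) := by
    rw [Polynomial.lifts_iff_coeff_lifts]
    intro n
    obtain ⟨u, hu⟩ := hlift n
    have hM' : p.coeff n ∈ M := by
      rw [hp, Polynomial.coeff_map]
      exact ((minpoly M a).coeff n).2
    have hF' : p.coeff n ∈ F := by
      rw [← hu]
      exact u.2
    exact ⟨⟨p.coeff n, hM', hF'⟩, rfl⟩
  obtain ⟨q, hq⟩ := (Polynomial.mem_lifts _).1 hlift2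
  refine ⟨q, ?_, ?_⟩
  · rintro rfl
    rw [Polynomial.map_zero] at hq
    exact hpm.ne_zero hq.symm
  · have h3 : Polynomial.eval a p = 0 := by
      rw [hp, Polynomial.eval_map]
      exact minpoly.aeval M a
    rw [← hq, Polynomial.eval_map] at h3
    exact h3

end Pool.Agent.Helper273.Sup
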