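import Pool.Agent.Helper273.Sup.Defs



namespace Pool.Agent.Helper273.Sup
open IntermediateField


theorem alg_of_le {k K : Type*} [Field k] [Field K] [Algebra k K]
    (M M' : IntermediateField k K) (h : M ≤ M') (hM : Algebra.IsAlgebraic M K) :
    Algebra.IsAlgebraic M' K := by
  letI : Algebra M M' := (IntermediateField.inclusion h).toRingHom.toAlgebra
  haveI : IsScalarTower M M' K := IsScalarTower.of_algebraMap_eq (fun x => rfl)
  exact Algebra.IsAlgebraic.tower_top (K := M) M'

end Pool.Agent.Helper273.Sup
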