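import Pool.Agent.Helper273.Sup.Defs



namespace Pool.Agent.Helper273.Sup
open IntermediateField


theorem coeff_mem {k K : Type*} [Field k] [Field K] [Algebra k K] {n : ℕ} (x y : Fin n → K)
    (hy : IsRoots x y) : adjoin k (Set.range x) ≤ adjoin k (Set.range y) := by
  rw [adjoin_le_iff]
  rintro _ ⟨i, rfl⟩
  have hmem : ∀ j, y j ∈ adjoin k (Set.range y) := fun j => subset_adjoin k _ ⟨j, rfl⟩
  have hprod : ∏ j, (Polynomial.X - Polynomial.C (y j)) =
      (∏ j, (Polynomial.X - Polynomial.C (⟨y j, hmem j⟩ : adjoin k (Set.range y)))).map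
        (algebraMap (adjoin k (Set.range y)) K) := by
    rw [Polynomial.map_prod]
    refine Finset.prod_congr rfl fun j _ => ?_
    rw [Polynomial.map_sub, Polynomial.map_X, Polynomial.map_C]
    rfl
  have hi := i.2
  have h1 : (∏ j, (Polynomial.X - Polynomial.C (y j))).coeff (n - 1 - (i : ℕ)) = x i := by
    rw [hy, Polynomial.coeff_add, Polynomial.coeff_X_pow, if_neg (by omega), zero_add,
      Polynomial.finset_sum_coeff, Finset.sum_eq_single i]
    · rw [Polynomial.coeff_C_mul, Polynomial.coeff_X_pow, if_pos rfl, mul_one]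
    · intro j _ hji
      have hj := j.2
      rw [Polynomial.coeff_C_mul, Polynomial.coeff_X_pow, if_neg, mul_zero]
      intro h
      apply hji
      apply Fin.ext
      omega
    · intro h
      exact absurd (Finset.mem_univ i) h
  rw [← h1, hprod, Polynomial.coeff_map]
  exact SetLike.coe_mem _

end Pool.Agent.Helper273.Sup
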