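import Pool.Agent.Helper273.Sup.Defs
import Pool.Agent.Helper273.Sup.P_alg_of_le
import Pool.Agent.Helper273.Sup.P_coeff_mem



namespace Pool.Agent.Helper273.Sup
open IntermediateField


theorem roots_indep {k K : Type*} [Field k] [Field K] [Algebra k K] {n : ℕ} (x y : Fin n → K)
    (hx : Gen k x) (hy : IsRoots x y) : AlgebraicIndependent k y := by
  have hx1 : Algebra.IsAlgebraic (Algebra.adjoin k (Set.range x)) K :=
    IntermediateField.isAlgebraic_adjoin_iff_top.1 hx.alg
  have hxb : IsTranscendenceBasis k x := hx.indep.isTranscendenceBasis_iff_isAlgebraic.2 hx1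
  have hya : Algebra.IsAlgebraic (adjoin k (Set.range y)) K :=
    alg_of_le _ _ (coeff_mem x y hy) hx.alg
  have hy1 : Algebra.IsAlgebraic (Algebra.adjoin k (Set.range y)) K :=
    IntermediateField.isAlgebraic_adjoin_iff_top.1 hya
  have hyb : IsTranscendenceBasis k y :=
    Algebra.IsAlgebraic.isTranscendenceBasis_of_lift_le_trdeg_of_finite k y
      hxb.lift_cardinalMk_eq_trdeg.le
  exact hyb.1

end Pool.Agent.Helper273.Sup
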