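import Pool.Agent.Helper273.Sup.Defs
import Pool.Agent.Helper273.Sup.P_roots_indep



namespace Pool.Agent.Helper273.Sup
open IntermediateField


theorem exists_hom {k K : Type*} [Field k] [Field K] [Algebra k K] {n : ℕ} (x y : Fin n → K)
    (hx : Gen k x) (hy : IsRoots x y) :
    ∃ ρ : (adjoin k (Set.range x)).fixingSubgroup →* Equiv.Perm (Fin n),
      ∀ (σ : (adjoin k (Set.range x)).fixingSubgroup) (i : Fin n),
        (σ : K ≃ₐ[k] K) (y i) = y (ρ σ i) := by
  have hinj : Function.Injective y := (roots_indep x y hx hy).injective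
  have hfix : ∀ (σ : (adjoin k (Set.range x)).fixingSubgroup) (i : Fin n),
      (σ : K ≃ₐ[k] K) (x i) = x i := by
    intro σ i
    have h := σ.2
    rw [IntermediateField.mem_fixingSubgroup_iff] at h
    exact h (x i) (subset_adjoin k _ ⟨i, rfl⟩)
  have hev : ∀ a : K, ∏ i, (a - y i) = a ^ n + ∑ i : Fin n, x i * a ^ (n - 1 - (i : ℕ)) := by
    intro a
    have h := congrArg (Polynomial.eval a) hy
    simpa [Polynomial.eval_prod, Polynomial.eval_finsetSum] using h
  have hex : ∀ (σ : (adjoin k (Set.range x)).fixingSubgroup) (i : Fin n),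
      ∃ j, (σ : K ≃ₐ[k] K) (y i) = y j := by
    intro σ i
    have h1 : ∏ j, ((σ : K ≃ₐ[k] K) (y i) - y j) = 0 := by
      rw [hev]
      have h2 : y i ^ n + ∑ j : Fin n, x j * y i ^ (n - 1 - (j : ℕ)) = 0 := by
        rw [← hev]
        exact Finset.prod_eq_zero (Finset.mem_univ i) (sub_self _)
      have h3 := congrArg (σ : K ≃ₐ[k] K) h2
      simpa [map_add, map_sum, map_mul, map_pow, hfix] using h3
    obtain ⟨j, _, hj⟩ := Finset.prod_eq_zero_iff.1 h1
    exact ⟨j, sub_eq_zero.1 hj⟩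
  choose f hf using hex
  have hf1 : ∀ i, f 1 i = i := by
    intro i
    apply hinj
    rw [← hf]
    simp
  have hfm : ∀ σ τ i, f (σ * τ) i = f σ (f τ i) := by
    intro σ τ i
    apply hinj
    rw [← hf, ← hf, ← hf]
    simp
  refine ⟨{ toFun := fun σ => ⟨f σ, f σ⁻¹, fun i => ?_, fun i => ?_⟩, map_one' := ?_, map_mul' := ?_ }, ?_⟩
  · rw [← hfm, inv_mul_cancel, hf1]
  · rw [← hfm, mul_inv_cancel, hf1]
  · ext i
    simp [hf1]
  · intro σ τ
    ext i
    simp [hfm]
  · intro σ i
    exact hf σ i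

end Pool.Agent.Helper273.Sup
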