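import Pool.Agent.Helper273.Sup.Defs
import Pool.Agent.Helper273.Sup.P_alg_of_le
import Pool.Agent.Helper273.Sup.P_coeff_mem
import Pool.Agent.Helper273.Sup.P_roots_indep



namespace Pool.Agent.Helper273.Sup
open IntermediateField


theorem epa_coeff {K : Type*} [Field K] {n : ℕ} (x : Fin n → K) (i : Fin n) :
    (Polynomial.X ^ n + ∑ j : Fin n, Polynomial.C (x j) * Polynomial.X ^ (n - 1 - (j : ℕ)) :
      Polynomial K).coeff (n - 1 - (i : ℕ)) = x i := by
  have hi := i.2
  rw [Polynomial.coeff_add, Polynomial.coeff_X_pow, Polynomial.finsetSum_coeff,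
    if_neg (by omega), zero_add, Finset.sum_eq_single i]
  · simp
  · intro j _ hj
    rw [Polynomial.coeff_C_mul, Polynomial.coeff_X_pow, if_neg, mul_zero]
    intro h
    apply hj
    apply Fin.ext
    have := j.2
    omega
  · simp

theorem epa_fix {k K : Type*} [Field k] [Field K] [Algebra k K] {n : ℕ} (x y : Fin n → K)
    (hy : IsRoots x y) (π : Equiv.Perm (Fin n)) (σ : K ≃ₐ[k] K) (hσ : ∀ i, σ (y i) = y (π i)) :
    ∀ b ∈ adjoin k (Set.range x), σ b = b := by
  have hx : ∀ i, σ (x i) = x i := by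
    intro i
    have h1 := congrArg (Polynomial.map (σ : K →+* K)) hy
    have h2 : Polynomial.map (σ : K →+* K) (∏ i, (Polynomial.X - Polynomial.C (y i))) =
        ∏ i, (Polynomial.X - Polynomial.C (y i)) := by
      rw [Polynomial.map_prod]
      rw [← Equiv.prod_comp π (fun i => (Polynomial.X - Polynomial.C (y i)))]
      refine Finset.prod_congr rfl fun i _ => ?_
      rw [Polynomial.map_sub, Polynomial.map_X, Polynomial.map_C, ← hσ]
      rfl
    have h3 : Polynomial.map (σ : K →+* K) (Polynomial.X ^ n +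
        ∑ j : Fin n, Polynomial.C (x j) * Polynomial.X ^ (n - 1 - (j : ℕ)) : Polynomial K) =
        Polynomial.X ^ n +
        ∑ j : Fin n, Polynomial.C (σ (x j)) * Polynomial.X ^ (n - 1 - (j : ℕ)) := by
      rw [Polynomial.map_add, Polynomial.map_pow, Polynomial.map_X, Polynomial.map_sum]
      congr 1
      refine Finset.sum_congr rfl fun i _ => ?_
      rw [Polynomial.map_mul, Polynomial.map_pow, Polynomial.map_X, Polynomial.map_C]
      rfl
    rw [h2, h3, hy] at h1
    have h4 := congrArg (fun p => Polynomial.coeff p (n - 1 - (i : ℕ))) h1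
    rw [epa_coeff, epa_coeff (fun j => σ (x j))] at h4
    exact h4.symm
  intro b hb
  induction hb using adjoin_induction with
  | mem b hb =>
    obtain ⟨i, rfl⟩ := hb
    exact hx i
  | algebraMap b => exact σ.commutes b
  | add a b _ _ ha hb => rw [map_add, ha, hb]
  | inv a _ ha => rw [map_inv₀, ha]
  | mul a b _ _ ha hb => rw [map_mul, ha, hb]

theorem exists_perm_aut {k K : Type*} [Field k] [Field K] [Algebra k K] [CharZero k]
    [IsAlgClosed K] {n : ℕ} (x y : Fin n → K) (hx : Gen k x) (hy : IsRoots x y)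
    (π : Equiv.Perm (Fin n)) :
    ∃ σ : K ≃ₐ[k] K, (∀ b ∈ adjoin k (Set.range x), σ b = b) ∧ ∀ i, σ (y i) = y (π i) := by
  have hyi := roots_indep x y hx hy
  have halg : Algebra.IsAlgebraic (adjoin k (Set.range y)) K :=
    alg_of_le _ _ (coeff_mem x y hy) hx.alg
  have hyi2 : AlgebraicIndependent k (y ∘ π) := hyi.comp π π.injective
  have hr : adjoin k (Set.range (y ∘ π)) = adjoin k (Set.range y) := by
    rw [π.surjective.range_comp]
  let e : adjoin k (Set.range y) ≃ₐ[k] adjoin k (Set.range y) :=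
    hyi.aevalEquivField.symm.trans (hyi2.aevalEquivField.trans (IntermediateField.equivOfEq hr))
  have he : ∀ i, ((e ⟨y i, subset_adjoin k _ ⟨i, rfl⟩⟩ : adjoin k (Set.range y)) : K) = y (π i) := by
    intro i
    have h1 : hyi.aevalEquivField.symm ⟨y i, subset_adjoin k _ ⟨i, rfl⟩⟩ =
        algebraMap _ _ (MvPolynomial.X i : MvPolynomial (Fin n) k) := by
      rw [AlgEquiv.symm_apply_eq]
      apply Subtype.ext
      rw [AlgebraicIndependent.aevalEquivField_algebraMap_apply_coe]
      simp
    have h2 : e ⟨y i, subset_adjoin k _ ⟨i, rfl⟩⟩ = IntermediateField.equivOfEq hr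
        (hyi2.aevalEquivField (hyi.aevalEquivField.symm ⟨y i, subset_adjoin k _ ⟨i, rfl⟩⟩)) := rfl
    rw [h2, h1]
    have h3 : ∀ z : adjoin k (Set.range (y ∘ π)),
        ((IntermediateField.equivOfEq hr z : adjoin k (Set.range y)) : K) = z := fun z => rfl
    rw [h3, AlgebraicIndependent.aevalEquivField_algebraMap_apply_coe]
    simp
  have : IsAlgClosure (adjoin k (Set.range y)) K := ⟨inferInstance, halg⟩
  let f := IsAlgClosure.equivOfEquiv K K e.toRingEquiv
  have hf : ∀ z : adjoin k (Set.range y), f z = (e z : K) := fun z =>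
    IsAlgClosure.equivOfEquiv_algebraMap K K e.toRingEquiv z
  let σ : K ≃ₐ[k] K := AlgEquiv.ofRingEquiv (f := f) (by
    intro c
    have h1 := hf (algebraMap k _ c)
    rw [e.commutes] at h1
    exact h1)
  have hσ : ∀ i, σ (y i) = y (π i) := by
    intro i
    have h1 := hf ⟨y i, subset_adjoin k _ ⟨i, rfl⟩⟩
    rw [he] at h1
    exact h1
  exact ⟨σ, epa_fix x y hy π σ hσ, hσ⟩

end Pool.Agent.Helper273.Sup
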