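import Pool.Agent.Helper273.Sup.Defs



namespace Pool.Agent.Helper273.Sup
open IntermediateField


theorem galois_mem {k K : Type*} [Field k] [Field K] [Algebra k K] [CharZero k] [IsAlgClosed K]
    (M : IntermediateField k K) (hM : Algebra.IsAlgebraic M K) (S : Set K) (a : K)
    (h : ∀ σ : K ≃ₐ[k] K, (∀ b ∈ M, σ b = b) → (∀ s ∈ S, σ s = s) → σ a = a) :
    a ∈ adjoin k ((M : Set K) ∪ S) := by
  set L : IntermediateField k K := adjoin k ((M : Set K) ∪ S) with hL
  have hsub : ((M : Set K) ∪ S) ⊆ L := subset_adjoin k _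
  have hML : M ≤ L := fun b hb => hsub (Or.inl hb)
  have halg : Algebra.IsAlgebraic L K := by
    constructor
    intro x
    obtain ⟨p, hp0, hp⟩ := hM.isAlgebraic x
    refine ⟨p.map (inclusion hML).toRingHom, ?_, ?_⟩
    · rw [Ne, Polynomial.map_eq_zero]
      exact hp0
    · rw [Polynomial.aeval_def, Polynomial.eval₂_map]
      rw [Polynomial.aeval_def] at hp
      exact hp
  have hcl : IsAlgClosure L K := ⟨inferInstance, halg⟩
  have hnorm : Normal L K := IsAlgClosure.normal L K
  have hchar : CharZero L := inferInstance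
  have hgal : IsGalois L K := {}
  have hbot : a ∈ (⊥ : IntermediateField L K) := by
    rw [InfiniteGalois.mem_bot_iff_fixed]
    intro σ
    refine h (σ.restrictScalars k) ?_ ?_
    · intro b hb
      exact σ.commutes ⟨b, hML hb⟩
    · intro s hs
      exact σ.commutes ⟨s, hsub (Or.inr hs)⟩
  rw [IntermediateField.mem_bot] at hbot
  obtain ⟨l, hl⟩ := hbot
  rw [← hl]
  exact l.2

end Pool.Agent.Helper273.Sup
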