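import Pool.Agent.Helper273.Sup.Defs
import Pool.Agent.Helper273.Sup.P_galois_mem



namespace Pool.Agent.Helper273.Sup
open IntermediateField


theorem fixed_mem {k K : Type*} [Field k] [Field K] [Algebra k K] [CharZero k] [IsAlgClosed K]
    (M : IntermediateField k K) (hM : Algebra.IsAlgebraic M K) (a : K)
    (h : ∀ σ : K ≃ₐ[k] K, (∀ b ∈ M, σ b = b) → σ a = a) : a ∈ M := by
  have h1 := galois_mem M hM ∅ a (fun σ hσ _ => h σ hσ)
  rwa [Set.union_empty, adjoin_self] at h1

end Pool.Agent.Helper273.Sup
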