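import Pool.Agent.Helper273.Sup.Defs



namespace Pool.Agent.Helper273.Sup
open IntermediateField


theorem le_step {k K : Type*} [Field k] [Field K] [Algebra k K] (r : ℕ) (hr : 1 ≤ r)
    (M : IntermediateField k K) : M ≤ step r M := by
  intro a ha
  unfold step
  apply IntermediateField.subset_adjoin
  refine ⟨fun _ => a, fun _ => ha, ?_⟩
  have h : a ∈ adjoin k (Set.range fun _ : Fin r => a) :=
    IntermediateField.subset_adjoin _ _ ⟨⟨0, hr⟩, rfl⟩
  exact isAlgebraic_algebraMap (⟨a, h⟩ : adjoin k (Set.range fun _ : Fin r => a))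

end Pool.Agent.Helper273.Sup
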