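import Pool.Agent.Helper273.Sup.Defs



namespace Pool.Agent.Helper273.Sup
open IntermediateField


theorem step_stable_alg {k K : Type*} [Field k] [Field K] [Algebra k K] {r : ℕ}
    (t : Fin r → K) (τ : K ≃ₐ[k] K) {a : K} (h : IsAlgebraic (adjoin k (Set.range t)) a) :
    IsAlgebraic (adjoin k (Set.range fun i => τ (t i))) (τ a) := by
  have hmem : ∀ z ∈ adjoin k (Set.range t), τ z ∈ adjoin k (Set.range fun i => τ (t i)) := by
    intro z hz
    have h1 : (τ : K →ₐ[k] K) z ∈ (adjoin k (Set.range t)).map (τ : K →ₐ[k] K) :=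
      (IntermediateField.mem_map _).2 ⟨z, hz, rfl⟩
    rw [adjoin_map] at h1
    have h2 : (τ : K →ₐ[k] K) '' Set.range t = Set.range fun i => τ (t i) := by
      ext w; simp
    rw [h2] at h1
    exact h1
  let φ : adjoin k (Set.range t) →+* adjoin k (Set.range fun i => τ (t i)) :=
    { toFun := fun z => ⟨τ z, hmem z z.2⟩
      map_one' := by ext; simp
      map_mul' := fun u v => by ext; simp
      map_zero' := by ext; simp
      map_add' := fun u v => by ext; simp }
  exact h.ringHom_of_comp_eq φ (τ : K →+* K) φ.injective (by ext z; rfl)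

theorem step_stable {k K : Type*} [Field k] [Field K] [Algebra k K] (r : ℕ)
    (M : IntermediateField k K) (τ : K ≃ₐ[k] K) (h : ∀ a ∈ M, τ a ∈ M) :
    ∀ a ∈ step r M, τ a ∈ step r M := by
  have key : (step r M).map (τ : K →ₐ[k] K) ≤ step r M := by
    unfold step
    rw [adjoin_map, adjoin_le_iff]
    rintro _ ⟨a, ⟨t, ht, hta⟩, rfl⟩
    apply subset_adjoin
    exact ⟨fun i => τ (t i), fun i => h _ (ht i), step_stable_alg t τ hta⟩
  intro a ha
  exact key ((IntermediateField.mem_map _).2 ⟨a, ha, rfl⟩)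

end Pool.Agent.Helper273.Sup
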