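import Pool.Agent.Helper273.Sup.Defs



namespace Pool.Agent.Helper273.Sup
open IntermediateField


theorem mem_step_of_algebraic {k K : Type*} [Field k] [Field K] [Algebra k K]
    (M : IntermediateField k K) (t a : K) (ht : t ∈ M) (ha : IsAlgebraic (adjoin k {t}) a) :
    a ∈ step 1 M := by
  refine subset_adjoin k _ ⟨fun _ => t, fun _ => ht, ?_⟩
  have h : Set.range (fun _ : Fin 1 => t) = {t} := Set.range_const
  rw [h]
  exact ha

end Pool.Agent.Helper273.Sup
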