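import Pool.Agent.Helper273.Sup.Defs
import Pool.Agent.Helper273.Sup.P_mem_step_of_algebraic



namespace Pool.Agent.Helper273.Sup
open IntermediateField


theorem pow_mem_step {k K : Type*} [Field k] [Field K] [Algebra k K]
    (M : IntermediateField k K) (m : ℕ) (hm : 1 ≤ m) (t a : K) (ht : t ∈ M) (ha : a ^ m = t) :
    a ∈ step 1 M := by
  apply mem_step_of_algebraic M t a ht
  have ht' : t ∈ adjoin k {t} := mem_adjoin_simple_self k t
  have h1 : IsAlgebraic (adjoin k {t}) (a ^ m) := by
    rw [ha]
    exact isAlgebraic_algebraMap (⟨t, ht'⟩ : adjoin k {t})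
  exact h1.of_pow (by omega)

end Pool.Agent.Helper273.Sup
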