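import Pool.Agent.Helper273.Sup.Defs
import Pool.Agent.Helper273.Sup.P_fixed_mem
import Pool.Agent.Helper273.Sup.P_roots_indep
import Pool.Agent.Helper273.Sup.P_exists_hom
import Pool.Agent.Helper273.Sup.P_le_step
import Pool.Agent.Helper273.Sup.P_pow_mem_step



namespace Pool.Agent.Helper273.Sup
open IntermediateField


theorem even_perm_det {k K : Type*} [Field k] [Field K] [Algebra k K] {n : ℕ} (y : Fin n → K)
    (σ : K ≃ₐ[k] K) (π : Equiv.Perm (Fin n)) (hπ : ∀ i, σ (y i) = y (π i)) :
    σ (Matrix.det (Matrix.vandermonde y)) =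
      ((Equiv.Perm.sign π : ℤˣ) : ℤ) * Matrix.det (Matrix.vandermonde y) := by
  have h1 : σ (Matrix.det (Matrix.vandermonde y)) =
      Matrix.det ((Matrix.vandermonde y).map σ) := by
    exact RingHom.map_det (σ : K →+* K) (Matrix.vandermonde y)
  have h2 : (Matrix.vandermonde y).map σ = (Matrix.vandermonde y).submatrix π id := by
    ext i j
    simp only [Matrix.map_apply, Matrix.vandermonde_apply, Matrix.submatrix_apply, id, map_pow, hπ]
  rw [h1, h2, Matrix.det_permute]

theorem even_perm {k K : Type*} [Field k] [Field K] [Algebra k K] [CharZero k]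
    [IsAlgClosed K] {n : ℕ} (x y : Fin n → K) (hx : Gen k x) (hy : IsRoots x y)
    (σ : K ≃ₐ[k] K) (hσ : ∀ b ∈ step 1 (adjoin k (Set.range x)), σ b = b)
    (π : Equiv.Perm (Fin n)) (hπ : ∀ i, σ (y i) = y (π i)) : π ∈ alternatingGroup (Fin n) := by
  have hinj : Function.Injective y := (roots_indep x y hx hy).injective
  have hne : Matrix.det (Matrix.vandermonde y) ≠ 0 :=
    Matrix.det_vandermonde_ne_zero_iff.2 hinj
  obtain ⟨ρ, hρ⟩ := exists_hom x y hx hy
  have hsq : (Matrix.det (Matrix.vandermonde y)) ^ 2 ∈ adjoin k (Set.range x) := by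
    refine fixed_mem (adjoin k (Set.range x)) hx.alg _ ?_
    intro τ hτ
    have hmem : τ ∈ (adjoin k (Set.range x)).fixingSubgroup := by
      rw [IntermediateField.mem_fixingSubgroup_iff]
      exact hτ
    have h1 := even_perm_det y τ (ρ ⟨τ, hmem⟩) (fun i => hρ ⟨τ, hmem⟩ i)
    rw [map_pow, h1, mul_pow]
    have h2 : (((Equiv.Perm.sign (ρ ⟨τ, hmem⟩) : ℤˣ) : ℤ) : K) ^ 2 = 1 := by
      rcases Int.units_eq_one_or (Equiv.Perm.sign (ρ ⟨τ, hmem⟩)) with h | h <;> rw [h] <;> simp
    rw [h2, one_mul]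
  have hstep := pow_mem_step (adjoin k (Set.range x)) 2 (by norm_num) _
    (Matrix.det (Matrix.vandermonde y)) hsq rfl
  have hfix := hσ _ hstep
  have h3 := even_perm_det y σ π hπ
  rw [hfix] at h3
  haveI : CharZero K := charZero_of_injective_algebraMap (algebraMap k K).injective
  rw [Equiv.Perm.mem_alternatingGroup]
  rcases Int.units_eq_one_or (Equiv.Perm.sign π) with h | h
  · exact h
  · exfalso
    rw [h] at h3
    simp only [Units.val_neg, Units.val_one, Int.cast_neg, Int.cast_one, neg_mul, one_mul] at h3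
    have h4 : (2 : K) * Matrix.det (Matrix.vandermonde y) = 0 := by
      linear_combination h3
    rcases mul_eq_zero.1 h4 with h5 | h5
    · exact two_ne_zero h5
    · exact hne h5

end Pool.Agent.Helper273.Sup
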