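import Pool.Agent.Helper273.Sup.Defs



namespace Pool.Agent.Helper273.Sup
open IntermediateField


theorem step_mono {k K : Type*} [Field k] [Field K] [Algebra k K] (r r' : ℕ) (hr : r ≤ r')
    (M : IntermediateField k K) : step r M ≤ step r' M := by
  unfold step
  apply adjoin.mono
  rintro a ⟨t, ht, ha⟩
  refine ⟨fun i => if h : (i : ℕ) < r then t ⟨i, h⟩ else 0, fun i => ?_, ?_⟩
  · by_cases h : (i : ℕ) < r
    · simp only [h, dite_true]; exact ht _
    · simp only [h, dite_false]; exact M.zero_mem
  · have hle : adjoin k (Set.range t) ≤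
        adjoin k (Set.range (fun i : Fin r' => if h : (i : ℕ) < r then t ⟨i, h⟩ else 0)) := by
      apply adjoin.mono
      rintro _ ⟨i, rfl⟩
      refine ⟨⟨i, lt_of_lt_of_le i.2 hr⟩, ?_⟩
      simp
    exact IsAlgebraic.tower_top_of_subalgebra_le
      (A := (adjoin k (Set.range t)).toSubalgebra)
      (B := (adjoin k (Set.range (fun i : Fin r' =>
        if h : (i : ℕ) < r then t ⟨i, h⟩ else 0))).toSubalgebra) hle ha

end Pool.Agent.Helper273.Sup
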