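import Pool.Agent.Helper273.Sup.Defs
import Pool.Agent.Helper273.Sup.P_le_step
import Pool.Agent.Helper273.Sup.P_mem_step_of_algebraic
import Pool.Agent.Helper273.Sup.P_pow_mem_step



namespace Pool.Agent.Helper273.Sup
open IntermediateField


theorem depressed_mem_step_alg {k K : Type*} [Field k] [Field K] [Algebra k K] (c y : K)
    (h : y ^ 6 + c * y ^ 2 + c = 0) : IsAlgebraic (adjoin k {c}) y := by
  have hc : c ∈ adjoin k ({c} : Set K) := IntermediateField.mem_adjoin_simple_self k c
  refine ⟨Polynomial.X ^ 6 + (Polynomial.C (⟨c, hc⟩ : adjoin k ({c} : Set K)) *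
    Polynomial.X ^ 2 + Polynomial.C (⟨c, hc⟩ : adjoin k ({c} : Set K))), ?_, ?_⟩
  · intro h0
    have h1 := congrArg (fun P => Polynomial.coeff P 6) h0
    simp [Polynomial.coeff_X_pow, Polynomial.coeff_C] at h1
  · have e : algebraMap (adjoin k ({c} : Set K)) K ⟨c, hc⟩ = c := rfl
    rw [map_add, map_add, map_mul, map_pow, map_pow, Polynomial.aeval_X, Polynomial.aeval_C, e,
      ← add_assoc]
    exact h

theorem depressed_mem_step {k K : Type*} [Field k] [Field K] [Algebra k K] [CharZero k]
    [IsAlgClosed K] (M : IntermediateField k K) (p q w v : K) (hp : p ∈ M) (hq : q ∈ M)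
    (h : w ^ 3 + p * w + q = 0) (hv : v ^ 2 = w) : v ∈ step 1 M := by
  by_cases hp0 : p = 0
  · refine pow_mem_step M 6 (by norm_num) (-q) v (M.neg_mem hq) ?_
    have e : v ^ 6 = w ^ 3 := by rw [← hv]; ring
    rw [e]
    rw [hp0] at h
    linear_combination h
  · by_cases hq0 : q = 0
    · rw [hq0, add_zero] at h
      have h1 : w * (w ^ 2 + p) = 0 := by linear_combination h
      rcases mul_eq_zero.1 h1 with h2 | h2
      · have hv0 : v = 0 := by
          rw [h2] at hv
          exact pow_eq_zero_iff (by norm_num) |>.1 hv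
        rw [hv0]
        exact (step 1 M).zero_mem
      · refine pow_mem_step M 4 (by norm_num) (-p) v (M.neg_mem hp) ?_
        have e : v ^ 4 = w ^ 2 := by rw [← hv]; ring
        rw [e]
        linear_combination h2
    · have hl : q / p ∈ M := M.div_mem hq hp
      have hc : p ^ 3 / q ^ 2 ∈ M := M.div_mem (pow_mem hp 3) (pow_mem hq 2)
      obtain ⟨s, hs⟩ := IsAlgClosed.exists_pow_nat_eq (q / p) (n := 2) (by norm_num)
      have hsM : s ∈ step 1 M := pow_mem_step M 2 (by norm_num) (q / p) s hl hs
      have hs0 : s ≠ 0 := by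
        rintro rfl
        have : q / p = 0 := by rw [← hs]; ring
        exact (div_ne_zero hq0 hp0) this
      have hy2 : (v / s) ^ 2 = w * p / q := by
        rw [div_pow, hv, hs]
        field_simp
      have hy : (v / s) ^ 6 + p ^ 3 / q ^ 2 * (v / s) ^ 2 + p ^ 3 / q ^ 2 = 0 := by
        have e6 : (v / s) ^ 6 = ((v / s) ^ 2) ^ 3 := by ring
        rw [e6, hy2]
        have e7 : (w * p / q) ^ 3 + p ^ 3 / q ^ 2 * (w * p / q) + p ^ 3 / q ^ 2 =
            p ^ 3 / q ^ 3 * (w ^ 3 + p * w + q) := by
          field_simp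
        rw [e7, h, mul_zero]
      have hyM : v / s ∈ step 1 M :=
        mem_step_of_algebraic M (p ^ 3 / q ^ 2) (v / s) hc (depressed_mem_step_alg _ _ hy)
      have e8 : v = v / s * s := by field_simp
      rw [e8]
      exact (step 1 M).mul_mem hyM hsM

end Pool.Agent.Helper273.Sup
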