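import Pool.Agent.Helper273.Sup.Defs
import Pool.Agent.Helper273.Sup.P_le_step
import Pool.Agent.Helper273.Sup.P_depressed_mem_step



namespace Pool.Agent.Helper273.Sup
open IntermediateField


theorem cubic_mem_step {k K : Type*} [Field k] [Field K] [Algebra k K] [CharZero k]
    [IsAlgClosed K] (M : IntermediateField k K) (a b c z : K) (ha : a ∈ M) (hb : b ∈ M)
    (hc : c ∈ M) (h : z ^ 3 + a * z ^ 2 + b * z + c = 0) : z ∈ step 1 M := by
  have : CharZero K := charZero_of_injective_algebraMap (algebraMap k K).injective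
  have h3 : (3 : K) ∈ M := by exact_mod_cast IntermediateField.natCast_mem M 3
  have h2 : (2 : K) ∈ M := by exact_mod_cast IntermediateField.natCast_mem M 2
  have h27 : (27 : K) ∈ M := by exact_mod_cast IntermediateField.natCast_mem M 27
  have hp : b - a ^ 2 / 3 ∈ M := M.sub_mem hb (M.div_mem (pow_mem ha 2) h3)
  have hq : 2 * a ^ 3 / 27 - a * b / 3 + c ∈ M :=
    M.add_mem (M.sub_mem (M.div_mem (M.mul_mem h2 (pow_mem ha 3)) h27)
      (M.div_mem (M.mul_mem ha hb) h3)) hc
  obtain ⟨v, hv⟩ := IsAlgClosed.exists_pow_nat_eq (z + a / 3) (n := 2) (by norm_num)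
  have h33 : (3 : K) ≠ 0 := by norm_num
  have h2727 : (27 : K) ≠ 0 := by norm_num
  have hcub : (z + a / 3) ^ 3 + (b - a ^ 2 / 3) * (z + a / 3) +
      (2 * a ^ 3 / 27 - a * b / 3 + c) = 0 := by
    rw [← h]
    field_simp
    ring
  have hvm := depressed_mem_step M _ _ _ v hp hq hcub hv
  have ha' : a / 3 ∈ step 1 M := le_step 1 le_rfl M (M.div_mem ha h3)
  have hz : z = v ^ 2 - a / 3 := by rw [hv]; ring
  rw [hz]
  exact (step 1 M).sub_mem (pow_mem hvm 2) ha'

end Pool.Agent.Helper273.Sup
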