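import Pool.Agent.Helper273.Sup.Defs
import Pool.Agent.Helper273.Sup.P_alg_inf
import Pool.Agent.Helper273.Sup.P_trbasis



namespace Pool.Agent.Helper273.Sup
open IntermediateField


theorem curve_trick {k K : Type*} [Field k] [Field K] [Algebra k K] [CharZero k] [IsAlgClosed K]
    (M : IntermediateField k K) (hM : Algebra.IsAlgebraic M K) {r : ℕ} (u : Fin r → K)
    (h : ∀ σ : K ≃ₐ[k] K, (∀ b ∈ M, σ b = b) → ∀ j, σ (u j) ∈ adjoin k (Set.range u)) :
    ∀ j, u j ∈ step r M := by
  intro j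
  have hF : ∀ σ : K ≃ₐ[k] K, (∀ b ∈ M, σ b = b) → ∀ a ∈ adjoin k (Set.range u),
      σ a ∈ adjoin k (Set.range u) := by
    intro σ hσ a ha
    have h1 : (adjoin k (Set.range u)).map (σ : K →ₐ[k] K) ≤ adjoin k (Set.range u) := by
      rw [adjoin_map, adjoin_le_iff]
      rintro _ ⟨_, ⟨i, rfl⟩, rfl⟩
      exact h σ hσ i
    exact h1 ⟨a, ha, rfl⟩
  have h1 := alg_inf M (adjoin k (Set.range u)) hM hF (u j) (subset_adjoin _ _ ⟨j, rfl⟩)
  obtain ⟨t, ht, hta⟩ := trbasis u (M ⊓ adjoin k (Set.range u)) inf_le_right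
  have hle : adjoin k (Set.range t) ≤ (M ⊓ adjoin k (Set.range u)) := by
    rw [adjoin_le_iff]
    rintro _ ⟨i, rfl⟩
    exact ht i
  letI : Algebra (adjoin k (Set.range t)) (M ⊓ adjoin k (Set.range u) : IntermediateField k K) :=
    (IntermediateField.inclusion hle).toRingHom.toAlgebra
  haveI : IsScalarTower (adjoin k (Set.range t)) (M ⊓ adjoin k (Set.range u) : IntermediateField k K) K :=
    IsScalarTower.of_algebraMap_eq' rfl
  haveI : Algebra.IsAlgebraic (adjoin k (Set.range t))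
      (M ⊓ adjoin k (Set.range u) : IntermediateField k K) := by
    refine ⟨fun a => ?_⟩
    have h2 := hta a a.2
    exact (isAlgebraic_algebraMap_iff (R := adjoin k (Set.range t))
      (A := K) (a := a) Subtype.val_injective).1 h2
  have h3 : IsAlgebraic (adjoin k (Set.range t)) (u j) := h1.restrictScalars _
  exact subset_adjoin _ _ ⟨t, fun i => (ht i).1, h3⟩

end Pool.Agent.Helper273.Sup
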