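import Pool.Agent.Helper273.Sup.Defs



namespace Pool.Agent.Helper273.Sup
open IntermediateField


theorem exists_roots {K : Type*} [Field K] [IsAlgClosed K] {n : ℕ} (x : Fin n → K) :
    ∃ y : Fin n → K, IsRoots x y := by
  classical
  set q : Polynomial K := ∑ i : Fin n, Polynomial.C (x i) * Polynomial.X ^ (n - 1 - (i : ℕ)) with hq
  have hdeg : q.degree < (n : WithBot ℕ) := by
    refine (Polynomial.degree_sum_le _ _).trans_lt ((Finset.sup_lt_iff (WithBot.bot_lt_coe n)).2
      fun i _ => ?_)
    refine (Polynomial.degree_C_mul_X_pow_le _ _).trans_lt ?_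
    have := i.2
    exact WithBot.coe_lt_coe.2 (by omega : n - 1 - (i : ℕ) < n)
  set p : Polynomial K := Polynomial.X ^ n + q with hp
  have hm : p.Monic := Polynomial.monic_X_pow_add hdeg
  have hn : p.natDegree = n := by
    have h1 : (Polynomial.X ^ n : Polynomial K).degree = n := Polynomial.degree_X_pow n
    have h2 : p.degree = n := by
      rw [hp, Polynomial.degree_add_eq_left_of_degree_lt (by rw [h1]; exact hdeg), h1]
    exact Polynomial.natDegree_eq_of_degree_eq_some h2
  have hs : p.Splits := IsAlgClosed.splits p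
  have hc : p.roots.card = n := by rw [IsAlgClosed.card_roots_eq_natDegree, hn]
  have hpr := hs.eq_prod_roots_of_monic hm
  have hlen : p.roots.toList.length = n := by rw [Multiset.length_toList, hc]
  refine ⟨fun i => p.roots.toList.get (Fin.cast hlen.symm i), ?_⟩
  unfold IsRoots
  rw [← hq, ← hp]
  refine Eq.trans ?_ hpr.symm
  have h3 : (p.roots.map fun a => Polynomial.X - Polynomial.C a).prod =
      (p.roots.toList.map fun a => Polynomial.X - Polynomial.C a).prod := by
    conv_lhs => rw [← Multiset.coe_toList p.roots]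
    rw [Multiset.map_coe, Multiset.prod_coe]
  rw [h3]
  have h4 : ∏ i : Fin n, (Polynomial.X - Polynomial.C (p.roots.toList.get (Fin.cast hlen.symm i))) =
      ∏ i : Fin p.roots.toList.length, (Polynomial.X - Polynomial.C (p.roots.toList.get i)) :=
    Fintype.prod_equiv (finCongr hlen.symm) _ _ (fun i => rfl)
  rw [h4, ← List.prod_ofFn]
  congr 1
  rw [← List.ofFn_get (p.roots.toList.map fun a => Polynomial.X - Polynomial.C a)]
  apply List.ext_get
  · simp
  · intro n h1 h2
    simp

end Pool.Agent.Helper273.Sup
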