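import Pool.Agent.Helper273.Sup.Defs
import Pool.Agent.Helper273.Sup.P_roots_indep
import Pool.Agent.Helper273.Sup.P_exists_perm_aut



namespace Pool.Agent.Helper273.Sup
open IntermediateField


theorem not_mem_base {k K : Type*} [Field k] [Field K] [Algebra k K] [CharZero k]
    [IsAlgClosed K] {n : ℕ} (hn : 2 ≤ n) (x y : Fin n → K) (hx : Gen k x) (hy : IsRoots x y)
    (i : Fin n) : y i ∉ adjoin k (Set.range x) := by
  intro hmem
  haveI : Nontrivial (Fin n) := Fin.nontrivial_iff_two_le.mpr hn
  obtain ⟨j, hj⟩ := exists_ne i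
  obtain ⟨σ, hσ, hy'⟩ := exists_perm_aut x y hx hy (Equiv.swap i j)
  have h1 : σ (y i) = y i := hσ _ hmem
  have h2 : σ (y i) = y j := by rw [hy' i, Equiv.swap_apply_left]
  have h3 : y i = y j := h1.symm.trans h2
  have h4 := (roots_indep x y hx hy).injective h3
  exact hj h4.symm

end Pool.Agent.Helper273.Sup
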