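import Pool.Agent.Helper273.Sup.Defs
import Pool.Agent.Helper273.Sup.P_le_step
import Pool.Agent.Helper273.Sup.P_pow_mem_step



namespace Pool.Agent.Helper273.Sup
open IntermediateField


theorem quad_mem_step {k K : Type*} [Field k] [Field K] [Algebra k K] [CharZero k]
    (M : IntermediateField k K) (a b z : K) (ha : a ∈ M) (hb : b ∈ M)
    (h : z ^ 2 + a * z + b = 0) : z ∈ step 1 M := by
  have : CharZero K := charZero_of_injective_algebraMap (algebraMap k K).injective
  have h4 : (4 : K) ∈ M := by
    have := M.algebraMap_mem (4 : k)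
    simpa using this
  have ht : a ^ 2 - 4 * b ∈ M := M.sub_mem (pow_mem ha 2) (M.mul_mem h4 hb)
  have h1 : 2 * z + a ∈ step 1 M := by
    refine pow_mem_step M 2 (by norm_num) (a ^ 2 - 4 * b) (2 * z + a) ht ?_
    linear_combination 4 * h
  have h2 : a ∈ step 1 M := le_step 1 le_rfl M ha
  have h3 : (2 : K) ∈ step 1 M := by
    have := (step 1 M).algebraMap_mem (2 : k)
    simpa using this
  have h5 : z = ((2 * z + a) - a) / 2 := by
    have : (2 : K) ≠ 0 := two_ne_zero
    field_simp
    ring
  rw [h5]
  exact (step 1 M).div_mem ((step 1 M).sub_mem h1 h2) h3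

end Pool.Agent.Helper273.Sup
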