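import Pool.Agent.Helper273.Sup.Defs



namespace Pool.Agent.Helper273.Sup
open IntermediateField


theorem al_swap {K : Type*} [Field K] (y : Fin 4 → K) (a b : Fin 4) (hab : a ≠ b) :
    ∃ τ : Equiv.Perm (Fin 3), ∀ j, al (fun i => y (Equiv.swap a b i)) j = al y (τ j) := by
  have h3 : ∀ (y' : Fin 4 → K) (τ : Equiv.Perm (Fin 3)), al y' 0 = al y (τ 0) → al y' 1 = al y (τ 1) →
      al y' 2 = al y (τ 2) → ∀ j, al y' j = al y (τ j) := by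
    intro y' τ h0 h1 h2 j
    fin_cases j
    · exact h0
    · exact h1
    · exact h2
  have e0 : ∀ y' : Fin 4 → K, al y' 0 = (y' 0 + y' 1 - y' 2 - y' 3) ^ 2 := fun _ => rfl
  have e1 : ∀ y' : Fin 4 → K, al y' 1 = (y' 0 - y' 1 + y' 2 - y' 3) ^ 2 := fun _ => rfl
  have e2 : ∀ y' : Fin 4 → K, al y' 2 = (y' 0 - y' 1 - y' 2 + y' 3) ^ 2 := fun _ => rfl
  have t12 : Equiv.swap (1 : Fin 3) 2 0 = 0 ∧ Equiv.swap (1 : Fin 3) 2 1 = 2 ∧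
      Equiv.swap (1 : Fin 3) 2 2 = 1 := by decide
  have t02 : Equiv.swap (0 : Fin 3) 2 0 = 2 ∧ Equiv.swap (0 : Fin 3) 2 1 = 1 ∧
      Equiv.swap (0 : Fin 3) 2 2 = 0 := by decide
  have t01 : Equiv.swap (0 : Fin 3) 1 0 = 1 ∧ Equiv.swap (0 : Fin 3) 1 1 = 0 ∧
      Equiv.swap (0 : Fin 3) 1 2 = 2 := by decide
  have s01 : Equiv.swap (0 : Fin 4) 1 0 = 1 ∧ Equiv.swap (0 : Fin 4) 1 1 = 0 ∧
      Equiv.swap (0 : Fin 4) 1 2 = 2 ∧ Equiv.swap (0 : Fin 4) 1 3 = 3 := by decide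
  have s02 : Equiv.swap (0 : Fin 4) 2 0 = 2 ∧ Equiv.swap (0 : Fin 4) 2 1 = 1 ∧
      Equiv.swap (0 : Fin 4) 2 2 = 0 ∧ Equiv.swap (0 : Fin 4) 2 3 = 3 := by decide
  have s03 : Equiv.swap (0 : Fin 4) 3 0 = 3 ∧ Equiv.swap (0 : Fin 4) 3 1 = 1 ∧
      Equiv.swap (0 : Fin 4) 3 2 = 2 ∧ Equiv.swap (0 : Fin 4) 3 3 = 0 := by decide
  have s12 : Equiv.swap (1 : Fin 4) 2 0 = 0 ∧ Equiv.swap (1 : Fin 4) 2 1 = 2 ∧
      Equiv.swap (1 : Fin 4) 2 2 = 1 ∧ Equiv.swap (1 : Fin 4) 2 3 = 3 := by decide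
  have s13 : Equiv.swap (1 : Fin 4) 3 0 = 0 ∧ Equiv.swap (1 : Fin 4) 3 1 = 3 ∧
      Equiv.swap (1 : Fin 4) 3 2 = 2 ∧ Equiv.swap (1 : Fin 4) 3 3 = 1 := by decide
  have s23 : Equiv.swap (2 : Fin 4) 3 0 = 0 ∧ Equiv.swap (2 : Fin 4) 3 1 = 1 ∧
      Equiv.swap (2 : Fin 4) 3 2 = 3 ∧ Equiv.swap (2 : Fin 4) 3 3 = 2 := by decide
  have c01 : ∃ τ : Equiv.Perm (Fin 3), ∀ j, al (fun i => y (Equiv.swap 0 1 i)) j = al y (τ j) := by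
    refine ⟨Equiv.swap 1 2, h3 _ _ ?_ ?_ ?_⟩ <;>
      simp only [t12.1, t12.2.1, t12.2.2, e0, e1, e2, s01.1, s01.2.1, s01.2.2.1, s01.2.2.2] <;> ring
  have c23 : ∃ τ : Equiv.Perm (Fin 3), ∀ j, al (fun i => y (Equiv.swap 2 3 i)) j = al y (τ j) := by
    refine ⟨Equiv.swap 1 2, h3 _ _ ?_ ?_ ?_⟩ <;>
      simp only [t12.1, t12.2.1, t12.2.2, e0, e1, e2, s23.1, s23.2.1, s23.2.2.1, s23.2.2.2] <;> ring
  have c02 : ∃ τ : Equiv.Perm (Fin 3), ∀ j, al (fun i => y (Equiv.swap 0 2 i)) j = al y (τ j) := by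
    refine ⟨Equiv.swap 0 2, h3 _ _ ?_ ?_ ?_⟩ <;>
      simp only [t02.1, t02.2.1, t02.2.2, e0, e1, e2, s02.1, s02.2.1, s02.2.2.1, s02.2.2.2] <;> ring
  have c13 : ∃ τ : Equiv.Perm (Fin 3), ∀ j, al (fun i => y (Equiv.swap 1 3 i)) j = al y (τ j) := by
    refine ⟨Equiv.swap 0 2, h3 _ _ ?_ ?_ ?_⟩ <;>
      simp only [t02.1, t02.2.1, t02.2.2, e0, e1, e2, s13.1, s13.2.1, s13.2.2.1, s13.2.2.2] <;> ring
  have c03 : ∃ τ : Equiv.Perm (Fin 3), ∀ j, al (fun i => y (Equiv.swap 0 3 i)) j = al y (τ j) := by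
    refine ⟨Equiv.swap 0 1, h3 _ _ ?_ ?_ ?_⟩ <;>
      simp only [t01.1, t01.2.1, t01.2.2, e0, e1, e2, s03.1, s03.2.1, s03.2.2.1, s03.2.2.2] <;> ring
  have c12 : ∃ τ : Equiv.Perm (Fin 3), ∀ j, al (fun i => y (Equiv.swap 1 2 i)) j = al y (τ j) := by
    refine ⟨Equiv.swap 0 1, h3 _ _ ?_ ?_ ?_⟩ <;>
      simp only [t01.1, t01.2.1, t01.2.2, e0, e1, e2, s12.1, s12.2.1, s12.2.2.1, s12.2.2.2] <;> ring
  rcases (by revert hab; revert b; revert a; decide : (a = 0 ∧ b = 1) ∨ (a = 0 ∧ b = 2) ∨ (a = 0 ∧ b = 3) ∨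
      (a = 1 ∧ b = 2) ∨ (a = 1 ∧ b = 3) ∨ (a = 2 ∧ b = 3) ∨ (a = 1 ∧ b = 0) ∨ (a = 2 ∧ b = 0) ∨
      (a = 3 ∧ b = 0) ∨ (a = 2 ∧ b = 1) ∨ (a = 3 ∧ b = 1) ∨ (a = 3 ∧ b = 2)) with
    ⟨rfl, rfl⟩ | ⟨rfl, rfl⟩ | ⟨rfl, rfl⟩ | ⟨rfl, rfl⟩ | ⟨rfl, rfl⟩ | ⟨rfl, rfl⟩ |
    ⟨rfl, rfl⟩ | ⟨rfl, rfl⟩ | ⟨rfl, rfl⟩ | ⟨rfl, rfl⟩ | ⟨rfl, rfl⟩ | ⟨rfl, rfl⟩
  · exact c01
  · exact c02
  · exact c03
  · exact c12
  · exact c13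
  · exact c23
  · rw [Equiv.swap_comm]; exact c01
  · rw [Equiv.swap_comm]; exact c02
  · rw [Equiv.swap_comm]; exact c03
  · rw [Equiv.swap_comm]; exact c12
  · rw [Equiv.swap_comm]; exact c13
  · rw [Equiv.swap_comm]; exact c23

theorem al_perm {K : Type*} [Field K] (y : Fin 4 → K) (π : Equiv.Perm (Fin 4)) :
    ∃ τ : Equiv.Perm (Fin 3), ∀ j, al (fun i => y (π i)) j = al y (τ j) := by
  classical
  revert y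
  induction π using Equiv.Perm.swap_induction_on with
  | one => exact fun y => ⟨1, fun j => rfl⟩
  | swap_mul f a b hab ih =>
    intro y
    obtain ⟨τ1, h1⟩ := al_swap y a b hab
    obtain ⟨τ2, h2⟩ := ih (fun i => y (Equiv.swap a b i))
    exact ⟨τ1 * τ2, fun j => (h2 j).trans (h1 (τ2 j))⟩

end Pool.Agent.Helper273.Sup
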