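import Pool.Agent.Helper273.Sup.Defs
import Pool.Agent.Helper273.Sup.P_fixed_mem
import Pool.Agent.Helper273.Sup.P_roots_indep
import Pool.Agent.Helper273.Sup.P_exists_hom
import Pool.Agent.Helper273.Sup.P_al_perm



namespace Pool.Agent.Helper273.Sup
open IntermediateField


theorem al_map {k K : Type*} [Field k] [Field K] [Algebra k K] (σ : K ≃ₐ[k] K) (y : Fin 4 → K)
    (j : Fin 3) : σ (al y j) = al (fun i => σ (y i)) j := by
  fin_cases j <;> simp [al]

theorem al_pow_mem {k K : Type*} [Field k] [Field K] [Algebra k K] [CharZero k] [IsAlgClosed K]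
    (x y : Fin 4 → K) (hx : Gen k x) (hy : IsRoots x y) (m : ℕ) :
    ∑ j, al y j ^ m ∈ adjoin k (Set.range x) := by
  refine fixed_mem _ hx.alg _ fun σ hσ => ?_
  obtain ⟨ρ, hρ⟩ := exists_hom x y hx hy
  have hmem : σ ∈ (adjoin k (Set.range x)).fixingSubgroup := by
    rw [IntermediateField.mem_fixingSubgroup_iff]
    exact hσ
  obtain ⟨τ, hτ⟩ := al_perm y (ρ ⟨σ, hmem⟩)
  rw [map_sum]
  have : ∀ j, σ (al y j ^ m) = al y (τ j) ^ m := by
    intro j
    rw [map_pow, al_map]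
    have h2 : (fun i => σ (y i)) = fun i => y (ρ ⟨σ, hmem⟩ i) := by
      funext i
      exact hρ ⟨σ, hmem⟩ i
    rw [h2, hτ]
  simp only [this]
  exact Equiv.sum_comp τ (fun j => al y j ^ m)

theorem al_t2 {k K : Type*} [Field k] [Field K] [Algebra k K] [CharZero k]
    (y : Fin 4 → K) (hy : AlgebraicIndependent k y) :
    3 * (∑ j, al y j ^ 2) - (∑ j, al y j) ^ 2 ≠ 0 := by
  intro h
  let X : Fin 4 → MvPolynomial (Fin 4) k := MvPolynomial.X
  let A0 : MvPolynomial (Fin 4) k := (X 0 + X 1 - X 2 - X 3) ^ 2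
  let A1 : MvPolynomial (Fin 4) k := (X 0 - X 1 + X 2 - X 3) ^ 2
  let A2 : MvPolynomial (Fin 4) k := (X 0 - X 1 - X 2 + X 3) ^ 2
  let P : MvPolynomial (Fin 4) k := 3 * (A0 ^ 2 + A1 ^ 2 + A2 ^ 2) - (A0 + A1 + A2) ^ 2
  have h1 : MvPolynomial.aeval y P = 0 := by
    rw [← h]
    simp [P, A0, A1, A2, X, al, Fin.sum_univ_three]
  have h2 : P = 0 := by
    have := (injective_iff_map_eq_zero (MvPolynomial.aeval (R := k) y)).1 hy P h1
    exact this
  have h3 : MvPolynomial.eval (![1, 1, 0, 0] : Fin 4 → k) P = 0 := by rw [h2, map_zero]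
  simp [P, A0, A1, A2, X] at h3
  norm_num at h3

theorem al_lin {k K : Type*} [Field k] [Field K] [Algebra k K] [CharZero k] [IsAlgClosed K]
    (x y : Fin 4 → K) (hx : Gen k x) (hy : IsRoots x y) :
    ∃ t0 ∈ adjoin k (Set.range x), ∃ t1 ∈ adjoin k (Set.range x),
      ∃ t2 ∈ adjoin k (Set.range x), t2 ≠ 0 ∧
      ∑ j, (t0 + t1 * al y j + t2 * al y j ^ 2) = 0 ∧
      ∑ j, al y j * (t0 + t1 * al y j + t2 * al y j ^ 2) = 0 := by
  have hp := al_pow_mem x y hx hy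
  have h1 := hp 1
  have h2 := hp 2
  have h3 := hp 3
  simp only [pow_one] at h1
  have h30 : (3 : K) ∈ adjoin k (Set.range x) := by
    exact_mod_cast (_root_.natCast_mem (adjoin k (Set.range x)) 3)
  refine ⟨(∑ j, al y j) * (∑ j, al y j ^ 3) - (∑ j, al y j ^ 2) ^ 2,
    sub_mem (mul_mem h1 h3) (pow_mem h2 2),
    (∑ j, al y j ^ 2) * (∑ j, al y j) - 3 * (∑ j, al y j ^ 3),
    sub_mem (mul_mem h2 h1) (mul_mem h30 h3),
    3 * (∑ j, al y j ^ 2) - (∑ j, al y j) ^ 2,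
    sub_mem (mul_mem h30 h2) (pow_mem h1 2), al_t2 y (roots_indep x y hx hy), ?_, ?_⟩
  · simp only [Fin.sum_univ_three]
    ring
  · simp only [Fin.sum_univ_three]
    ring

end Pool.Agent.Helper273.Sup
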