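import Pool.Agent.Helper273.Sup.Defs



namespace Pool.Agent.Helper273.Sup
open IntermediateField


theorem al_inj {k K : Type*} [Field k] [Field K] [Algebra k K] [CharZero k] (y : Fin 4 → K)
    (hy : AlgebraicIndependent k y) : Function.Injective (al y) := by
  have hK : CharZero K := charZero_of_injective_algebraMap (algebraMap k K).injective
  have hinj : Function.Injective y := hy.injective
  have hne : ∀ i j : Fin 4, i ≠ j → y i - y j ≠ 0 := fun i j hij h =>
    hij (hinj (sub_eq_zero.mp h))
  have h4 : (4 : K) ≠ 0 := by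
    have : ((4 : ℕ) : K) ≠ 0 := Nat.cast_ne_zero.mpr (by norm_num)
    exact_mod_cast this
  have h01 : al y 0 ≠ al y 1 := by
    intro h
    have h1 : al y 0 - al y 1 = 4 * (y 1 - y 2) * (y 0 - y 3) := by
      simp only [al, Matrix.cons_val_zero, Matrix.cons_val_one]
      ring
    rw [h, sub_self] at h1
    exact mul_ne_zero (mul_ne_zero h4 (hne 1 2 (by decide))) (hne 0 3 (by decide)) h1.symm
  have h02 : al y 0 ≠ al y 2 := by
    intro h
    have h1 : al y 0 - al y 2 = 4 * (y 1 - y 3) * (y 0 - y 2) := by
      simp [al]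
      ring
    rw [h, sub_self] at h1
    exact mul_ne_zero (mul_ne_zero h4 (hne 1 3 (by decide))) (hne 0 2 (by decide)) h1.symm
  have h12 : al y 1 ≠ al y 2 := by
    intro h
    have h1 : al y 1 - al y 2 = 4 * (y 2 - y 3) * (y 0 - y 1) := by
      simp [al]
      ring
    rw [h, sub_self] at h1
    exact mul_ne_zero (mul_ne_zero h4 (hne 2 3 (by decide))) (hne 0 1 (by decide)) h1.symm
  intro i j hij
  fin_cases i <;> fin_cases j <;> first | rfl | exact absurd hij h01 | exact absurd hij h02 | exact absurd hij h12 | exact absurd hij.symm h01 | exact absurd hij.symm h02 | exact absurd hij.symm h12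

end Pool.Agent.Helper273.Sup
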