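import Pool.Agent.Helper273.Sup.Defs
import Pool.Agent.Helper273.Sup.P_roots_indep
import Pool.Agent.Helper273.Sup.P_exists_perm_aut
import Pool.Agent.Helper273.Sup.P_al_inj



namespace Pool.Agent.Helper273.Sup
open IntermediateField


theorem al_ne {k K : Type*} [Field k] [Field K] [Algebra k K] [CharZero k] [IsAlgClosed K]
    (x y : Fin 4 → K) (hx : Gen k x) (hy : IsRoots x y) (t0 t1 t2 : K)
    (h0 : t0 ∈ adjoin k (Set.range x)) (h1 : t1 ∈ adjoin k (Set.range x))
    (h2 : t2 ∈ adjoin k (Set.range x)) (h2' : t2 ≠ 0) (j : Fin 3) :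
    t0 + t1 * al y j + t2 * al y j ^ 2 ≠ 0 := by
  intro hj
  obtain ⟨σ, hσ, hσy⟩ := exists_perm_aut (k := k) x y hx hy (Equiv.swap 1 2 * Equiv.swap 2 3)
  have e0 : σ (y 0) = y 0 := by rw [hσy]; congr 1
  have e1 : σ (y 1) = y 2 := by rw [hσy]; congr 1
  have e2 : σ (y 2) = y 3 := by rw [hσy]; congr 1
  have e3 : σ (y 3) = y 1 := by rw [hσy]; congr 1
  have hal : ∀ i : Fin 3, σ (al y i) = al y (i + 1) := by
    intro i
    fin_cases i
    · show σ ((y 0 + y 1 - y 2 - y 3) ^ 2) = (y 0 - y 1 + y 2 - y 3) ^ 2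
      simp only [map_pow, map_sub, map_add, e0, e1, e2, e3]
      ring
    · show σ ((y 0 - y 1 + y 2 - y 3) ^ 2) = (y 0 - y 1 - y 2 + y 3) ^ 2
      simp only [map_pow, map_sub, map_add, e0, e1, e2, e3]
      ring
    · show σ ((y 0 - y 1 - y 2 + y 3) ^ 2) = (y 0 + y 1 - y 2 - y 3) ^ 2
      simp only [map_pow, map_sub, map_add, e0, e1, e2, e3]
      ring
  have hstep : ∀ i : Fin 3, t0 + t1 * al y i + t2 * al y i ^ 2 = 0 →
      t0 + t1 * al y (i + 1) + t2 * al y (i + 1) ^ 2 = 0 := by
    intro i hi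
    have := congrArg σ hi
    rw [map_add, map_add, map_mul, map_mul, map_pow, map_zero, hσ t0 h0, hσ t1 h1, hσ t2 h2,
      hal i] at this
    exact this
  have hj1 := hstep j hj
  have hj2 := hstep (j + 1) hj1
  have hinj := al_inj (k := k) y (roots_indep x y hx hy)
  have n01 : al y j ≠ al y (j + 1) := fun h => by
    have := hinj h
    revert this
    fin_cases j <;> decide
  have n12 : al y (j + 1) ≠ al y (j + 1 + 1) := fun h => by
    have := hinj h
    revert this
    fin_cases j <;> decide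
  have n02 : al y j ≠ al y (j + 1 + 1) := fun h => by
    have := hinj h
    revert this
    fin_cases j <;> decide
  generalize al y j = a at *
  generalize al y (j + 1) = b at *
  generalize al y (j + 1 + 1) = c at *
  have m1 : (a - b) * (t1 + t2 * (a + b)) = 0 := by linear_combination hj - hj1
  have m2 : (a - c) * (t1 + t2 * (a + c)) = 0 := by linear_combination hj - hj2
  have m1' : t1 + t2 * (a + b) = 0 :=
    (mul_eq_zero.1 m1).resolve_left (sub_ne_zero.2 n01)
  have m2' : t1 + t2 * (a + c) = 0 :=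
    (mul_eq_zero.1 m2).resolve_left (sub_ne_zero.2 n02)
  have m3 : t2 * (b - c) = 0 := by linear_combination m1' - m2'
  rcases mul_eq_zero.1 m3 with h | h
  · exact h2' h
  · exact n12 (sub_eq_zero.1 h)

end Pool.Agent.Helper273.Sup
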