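import Pool.Agent.Helper273.Sup.Defs
import Pool.Agent.Helper273.Sup.P_fixed_mem
import Pool.Agent.Helper273.Sup.P_exists_hom
import Pool.Agent.Helper273.Sup.P_depressed_mem_step
import Pool.Agent.Helper273.Sup.P_al_perm



namespace Pool.Agent.Helper273.Sup
open IntermediateField


theorem al_sqrt_map {K : Type*} [Field K] {k : Type*} [Field k] [Algebra k K] (σ : K ≃ₐ[k] K)
    (y : Fin 4 → K) (j : Fin 3) : σ (al y j) = al (fun i => σ (y i)) j := by
  fin_cases j <;> simp [al]

theorem al_sqrt_aeval {k K : Type*} [Field k] [Field K] [Algebra k K] (M : IntermediateField k K)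
    (P : Polynomial M) (σ : K ≃ₐ[k] K) (h : ∀ b ∈ M, σ b = b) (a : K) :
    σ (Polynomial.aeval a P) = Polynomial.aeval (σ a) P := by
  have h1 : (σ : K →+* K).comp (algebraMap M K) = algebraMap M K := by
    ext b
    exact h b b.2
  have h2 := Polynomial.hom_eval₂ P (algebraMap M K) (σ : K →+* K) a
  rw [h1] at h2
  rw [Polynomial.aeval_def, Polynomial.aeval_def]
  exact h2

theorem al_sqrt {k K : Type*} [Field k] [Field K] [Algebra k K] [CharZero k] [IsAlgClosed K]
    (x y : Fin 4 → K) (hx : Gen k x) (hy : IsRoots x y) (P : Polynomial (adjoin k (Set.range x)))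
    (h : ∑ j, Polynomial.aeval (al y j) P = 0) (j : Fin 3) (v : K)
    (hv : v ^ 2 = Polynomial.aeval (al y j) P) : v ∈ step 1 (adjoin k (Set.range x)) := by
  classical
  obtain ⟨ρ, hρ⟩ := exists_hom x y hx hy
  set th : Fin 3 → K := fun j => Polynomial.aeval (al y j) P with hth
  have hfix : ∀ σ : K ≃ₐ[k] K, (∀ b ∈ adjoin k (Set.range x), σ b = b) →
      ∃ τ : Equiv.Perm (Fin 3), ∀ j, σ (th j) = th (τ j) := by
    intro σ hσ
    have hσ' : σ ∈ (adjoin k (Set.range x)).fixingSubgroup := by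
      rw [IntermediateField.mem_fixingSubgroup_iff]
      exact hσ
    obtain ⟨τ, hτ⟩ := al_perm y (ρ ⟨σ, hσ'⟩)
    refine ⟨τ, fun j => ?_⟩
    rw [hth]
    simp only
    rw [al_sqrt_aeval (adjoin k (Set.range x)) P σ hσ, al_sqrt_map]
    have hf : (fun i => σ (y i)) = fun i => y (ρ ⟨σ, hσ'⟩ i) := by
      funext i
      exact hρ ⟨σ, hσ'⟩ i
    rw [hf, hτ j]
  have hp : -((∑ j, th j ^ 2) / 2) ∈ adjoin k (Set.range x) := by
    refine fixed_mem (adjoin k (Set.range x)) hx.alg _ fun σ hσ => ?_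
    obtain ⟨τ, hτ⟩ := hfix σ hσ
    rw [map_neg, map_div₀, map_sum, map_ofNat]
    simp only [map_pow, hτ]
    rw [Equiv.sum_comp τ (fun j => th j ^ 2)]
  have hq : -(∏ j, th j) ∈ adjoin k (Set.range x) := by
    refine fixed_mem (adjoin k (Set.range x)) hx.alg _ fun σ hσ => ?_
    obtain ⟨τ, hτ⟩ := hfix σ hσ
    rw [map_neg, map_prod]
    simp only [hτ]
    rw [Equiv.prod_comp τ (fun j => th j)]
  have hsum : th 0 + th 1 + th 2 = 0 := by
    have := h
    rw [Fin.sum_univ_three] at this
    exact this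
  have h2 : (2 : K) ≠ 0 := by
    have : CharZero K := charZero_of_injective_algebraMap (algebraMap k K).injective
    exact two_ne_zero
  refine depressed_mem_step (adjoin k (Set.range x)) _ _ (th j) v hp hq ?_ hv
  rw [Fin.sum_univ_three, Fin.prod_univ_three]
  have h3 : th 2 = - th 0 - th 1 := by linear_combination hsum
  fin_cases j
  · simp only [Fin.zero_eta]
    rw [h3]; field_simp; ring
  · simp only [Fin.mk_one]
    rw [h3]; field_simp; ring
  · simp only [Fin.reduceFinMk]
    rw [h3]; field_simp; ring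

end Pool.Agent.Helper273.Sup
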