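import Pool.Agent.Helper273.Sup.Defs
import Pool.Agent.Helper273.Sup.P_fixed_mem
import Pool.Agent.Helper273.Sup.P_coeff_mem
import Pool.Agent.Helper273.Sup.P_exists_hom
import Pool.Agent.Helper273.Sup.P_le_step
import Pool.Agent.Helper273.Sup.P_al_lin
import Pool.Agent.Helper273.Sup.P_al_ne
import Pool.Agent.Helper273.Sup.P_al_sqrt



namespace Pool.Agent.Helper273.Sup
open IntermediateField


theorem quartic_sq {K : Type*} [Field K] (y : Fin 4 → K) :
    ∀ j : Fin 3, (![y 0 + y 1 - y 2 - y 3, y 0 - y 1 + y 2 - y 3, y 0 - y 1 - y 2 + y 3] j) ^ 2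
      = al y j := by
  intro j
  fin_cases j <;> rfl

theorem quartic_sum {k K : Type*} [Field k] [Field K] [Algebra k K] [CharZero k] [IsAlgClosed K]
    (x y : Fin 4 → K) (hx : Gen k x) (hy : IsRoots x y) :
    ∑ i, y i ∈ adjoin k (Set.range x) := by
  obtain ⟨ρ, hρ⟩ := exists_hom (k := k) x y hx hy
  apply fixed_mem _ hx.alg
  intro σ hσ
  have hmem : σ ∈ (adjoin k (Set.range x)).fixingSubgroup := by
    rw [IntermediateField.mem_fixingSubgroup_iff]
    exact hσ
  have h1 := hρ ⟨σ, hmem⟩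
  rw [map_sum]
  simp only at h1
  rw [Finset.sum_congr rfl (fun i _ => h1 i)]
  exact Equiv.sum_comp (ρ ⟨σ, hmem⟩) y

theorem quartic {k K : Type*} [Field k] [Field K] [Algebra k K] [CharZero k] [IsAlgClosed K]
    (x y : Fin 4 → K) (hx : Gen k x) (hy : IsRoots x y) (i : Fin 4) :
    y i ∈ step 1 (adjoin k (Set.range x)) := by
  have hch : CharZero K := charZero_of_injective_algebraMap (algebraMap k K).injective
  obtain ⟨t0, h0, t1, h1, t2, h2, h2', hs1, hs2⟩ := al_lin x y hx hy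
  set B := adjoin k (Set.range x) with hB
  have hne : ∀ j, t0 + t1 * al y j + t2 * al y j ^ 2 ≠ 0 := al_ne x y hx hy t0 t1 t2 h0 h1 h2 h2'
  set P : Polynomial B := Polynomial.C ⟨t0, h0⟩ + Polynomial.C ⟨t1, h1⟩ * Polynomial.X
    + Polynomial.C ⟨t2, h2⟩ * Polynomial.X ^ 2 with hP
  have hPe : ∀ z : K, Polynomial.aeval z P = t0 + t1 * z + t2 * z ^ 2 := by
    intro z
    rw [hP]
    simp only [map_add, map_mul, map_pow, Polynomial.aeval_X, Polynomial.aeval_C]
    rfl
  have hXPe : ∀ z : K, Polynomial.aeval z (Polynomial.X * P) = z * (t0 + t1 * z + t2 * z ^ 2) := by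
    intro z
    rw [map_mul, Polynomial.aeval_X, hPe]
  set s : Fin 3 → K := ![y 0 + y 1 - y 2 - y 3, y 0 - y 1 + y 2 - y 3, y 0 - y 1 - y 2 + y 3]
    with hs
  have hsm : ∀ j, s j ∈ step 1 B := by
    intro j
    obtain ⟨a, ha⟩ := IsAlgClosed.exists_pow_nat_eq
      (t0 + t1 * al y j + t2 * al y j ^ 2) (n := 2) (by norm_num)
    obtain ⟨b, hb⟩ := IsAlgClosed.exists_pow_nat_eq
      (al y j * (t0 + t1 * al y j + t2 * al y j ^ 2)) (n := 2) (by norm_num)
    have ha' : a ∈ step 1 B := by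
      apply al_sqrt x y hx hy P _ j
      · rw [hPe]; exact ha
      · simp only [hPe]; exact hs1
    have hb' : b ∈ step 1 B := by
      apply al_sqrt x y hx hy (Polynomial.X * P) _ j
      · rw [hXPe]; exact hb
      · simp only [hXPe]; exact hs2
    have ha0 : a ≠ 0 := by
      intro h
      rw [h] at ha
      exact hne j (by rw [← ha]; simp)
    have hsq : (s j * a) ^ 2 = b ^ 2 := by
      rw [mul_pow, ha, hb, quartic_sq y j]
    rcases sq_eq_sq_iff_eq_or_eq_neg.1 hsq with h | h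
    · have : s j = b / a := by rw [eq_div_iff ha0]; exact h
      rw [this]
      exact div_mem hb' ha'
    · have : s j = -b / a := by rw [eq_div_iff ha0]; exact h
      rw [this]
      exact div_mem (neg_mem hb') ha'
  have he : ∑ i, y i ∈ step 1 B := le_step 1 le_rfl _ (quartic_sum (k := k) x y hx hy)
  rw [Fin.sum_univ_four] at he
  have m0 : y 0 + y 1 - y 2 - y 3 ∈ step 1 B := hsm 0
  have m1 : y 0 - y 1 + y 2 - y 3 ∈ step 1 B := hsm 1
  have m2 : y 0 - y 1 - y 2 + y 3 ∈ step 1 B := hsm 2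
  have h4 : (4 : K) ∈ step 1 B := by
    have := IntermediateField.natCast_mem (step 1 B) 4
    exact_mod_cast this
  have h40 : (4 : K) ≠ 0 := by norm_num
  fin_cases i
  · show y 0 ∈ step 1 B
    have : y 0 = ((y 0 + y 1 + y 2 + y 3) + (y 0 + y 1 - y 2 - y 3) + (y 0 - y 1 + y 2 - y 3)
        + (y 0 - y 1 - y 2 + y 3)) / 4 := by
      rw [eq_div_iff h40]; ring
    rw [this]
    exact div_mem (add_mem (add_mem (add_mem he m0) m1) m2) h4
  · show y 1 ∈ step 1 B
    have : y 1 = ((y 0 + y 1 + y 2 + y 3) + (y 0 + y 1 - y 2 - y 3) - (y 0 - y 1 + y 2 - y 3)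
        - (y 0 - y 1 - y 2 + y 3)) / 4 := by
      rw [eq_div_iff h40]; ring
    rw [this]
    exact div_mem (sub_mem (sub_mem (add_mem he m0) m1) m2) h4
  · show y 2 ∈ step 1 B
    have : y 2 = ((y 0 + y 1 + y 2 + y 3) - (y 0 + y 1 - y 2 - y 3) + (y 0 - y 1 + y 2 - y 3)
        - (y 0 - y 1 - y 2 + y 3)) / 4 := by
      rw [eq_div_iff h40]; ring
    rw [this]
    exact div_mem (sub_mem (add_mem (sub_mem he m0) m1) m2) h4
  · show y 3 ∈ step 1 B
    have : y 3 = ((y 0 + y 1 + y 2 + y 3) - (y 0 + y 1 - y 2 - y 3) - (y 0 - y 1 + y 2 - y 3)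
        + (y 0 - y 1 - y 2 + y 3)) / 4 := by
      rw [eq_div_iff h40]; ring
    rw [this]
    exact div_mem (add_mem (sub_mem (sub_mem he m0) m1) m2) h4

end Pool.Agent.Helper273.Sup
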