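import Pool.Agent.Helper273.Sup.Defs
import Pool.Agent.Helper273.Sup.P_galois_mem



namespace Pool.Agent.Helper273.Sup
open IntermediateField


/-- the group of even permutations induced by automorphisms fixing `M` and `l` -/
def lgN {k K : Type*} [Field k] [Field K] [Algebra k K]
    (M : IntermediateField k K) (y : Fin 5 → K) (l : K) : Subgroup (alternatingGroup (Fin 5)) where
  carrier := {π | ∃ σ : K ≃ₐ[k] K, (∀ b ∈ M, σ b = b) ∧
    (∀ i, σ (y i) = y ((π : Equiv.Perm (Fin 5)) i)) ∧ σ l = l}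
  mul_mem' := by
    rintro π₁ π₂ ⟨σ₁, h1, h2, h3⟩ ⟨σ₂, g1, g2, g3⟩
    refine ⟨σ₂.trans σ₁, ?_, ?_, ?_⟩
    · intro b hb
      rw [AlgEquiv.trans_apply, g1 b hb, h1 b hb]
    · intro i
      rw [AlgEquiv.trans_apply, g2, h2]
      rfl
    · rw [AlgEquiv.trans_apply, g3, h3]
  one_mem' := ⟨AlgEquiv.refl, fun _ _ => rfl, fun _ => rfl, rfl⟩
  inv_mem' := by
    rintro π ⟨σ, h1, h2, h3⟩
    refine ⟨σ.symm, ?_, ?_, ?_⟩
    · intro b hb
      rw [AlgEquiv.symm_apply_eq, h1 b hb]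
    · intro i
      rw [AlgEquiv.symm_apply_eq, h2]
      congr 1
      change i = (π : Equiv.Perm (Fin 5)) ((π : Equiv.Perm (Fin 5))⁻¹ i)
      simp
    · rw [AlgEquiv.symm_apply_eq, h3]

theorem lg_fix {k K : Type*} [Field k] [Field K] [Algebra k K] (l : K) (σ : K ≃ₐ[k] K)
    (h : σ l = l) (a : K) (ha : a ∈ adjoin k {l}) : σ a = a := by
  induction ha using adjoin_induction with
  | mem x hx =>
    rw [Set.mem_singleton_iff] at hx
    rw [hx, h]
  | algebraMap x => exact σ.commutes x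
  | add x y _ _ hx hy => rw [map_add, hx, hy]
  | inv x _ hx => rw [map_inv₀, hx]
  | mul x y _ _ hx hy => rw [map_mul, hx, hy]

theorem lam_gen {k K : Type*} [Field k] [Field K] [Algebra k K] [CharZero k] [IsAlgClosed K]
    (M : IntermediateField k K) (hM : Algebra.IsAlgebraic M K) (y : Fin 5 → K)
    (hinj : Function.Injective y) (l : K) (w : k) (hw1 : w ≠ 1) (hl : l ≠ 0)
    (hy : ∀ σ : K ≃ₐ[k] K, (∀ b ∈ M, σ b = b) →
      ∃ π ∈ alternatingGroup (Fin 5), ∀ i, σ (y i) = y (π i))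
    (hA : ∀ π ∈ alternatingGroup (Fin 5), ∃ σ : K ≃ₐ[k] K,
      (∀ b ∈ M, σ b = b) ∧ ∀ i, σ (y i) = y (π i))
    (hstab : ∀ σ : K ≃ₐ[k] K, (∀ b ∈ M, σ b = b) → σ l ∈ adjoin k {l})
    (hrot : ∀ σ : K ≃ₐ[k] K, (∀ b ∈ M, σ b = b) → (∀ i, σ (y i) = y (finRotate 5 i)) →
      σ l = algebraMap k K w * l) (i : Fin 5) :
    y i ∈ adjoin k ((M : Set K) ∪ {l}) := by
  classical
  have hnormal : (lgN M y l).Normal := by
    constructor
    rintro π ⟨σ, h1, h2, h3⟩ τ'
    obtain ⟨τ, t1, t2⟩ := hA τ'.1 τ'.2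
    have ts1 : ∀ b ∈ M, τ.symm b = b := by
      intro b hb
      rw [AlgEquiv.symm_apply_eq, t1 b hb]
    refine ⟨τ.symm.trans (σ.trans τ), ?_, ?_, ?_⟩
    · intro b hb
      rw [AlgEquiv.trans_apply, AlgEquiv.trans_apply, ts1 b hb, h1 b hb, t1 b hb]
    · intro i
      have h4 : τ.symm (y i) = y ((τ'.1)⁻¹ i) := by
        rw [AlgEquiv.symm_apply_eq, t2]
        simp
      rw [AlgEquiv.trans_apply, AlgEquiv.trans_apply, h4, h2, t2]
      rfl
    · rw [AlgEquiv.trans_apply, AlgEquiv.trans_apply]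
      have h5 : σ (τ.symm l) = τ.symm l := lg_fix l σ h3 _ (hstab τ.symm ts1)
      rw [h5, AlgEquiv.apply_symm_apply]
  haveI := alternatingGroup.isSimpleGroup_five
  rcases hnormal.eq_bot_or_eq_top with hN | hN
  · refine galois_mem M hM {l} (y i) ?_
    intro σ hσM hσl
    obtain ⟨π, hπ, hπy⟩ := hy σ hσM
    have h1 : (⟨π, hπ⟩ : alternatingGroup (Fin 5)) ∈ lgN M y l :=
      ⟨σ, hσM, hπy, hσl l (Set.mem_singleton l)⟩
    rw [hN, Subgroup.mem_bot] at h1
    have h2 : π = 1 := congrArg Subtype.val h1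
    rw [hπy, h2]
    rfl
  · exfalso
    have hrm : finRotate 5 ∈ alternatingGroup (Fin 5) := by
      rw [Equiv.Perm.mem_alternatingGroup, sign_finRotate]
      rfl
    have h1 : (⟨finRotate 5, hrm⟩ : alternatingGroup (Fin 5)) ∈ lgN M y l := by
      rw [hN]
      exact Subgroup.mem_top _
    obtain ⟨σ, g1, g2, g3⟩ := h1
    have h2 := hrot σ g1 g2
    rw [g3] at h2
    have h3 : algebraMap k K w = 1 := by
      have h4 : (algebraMap k K w - 1) * l = 0 := by
        rw [sub_mul, one_mul, ← h2, sub_self]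
      rcases mul_eq_zero.1 h4 with h5 | h5
      · exact sub_eq_zero.1 h5
      · exact absurd h5 hl
    rw [← map_one (algebraMap k K)] at h3
    exact hw1 ((algebraMap k K).injective h3)

end Pool.Agent.Helper273.Sup
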