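import Pool.Agent.Helper273.Sup.Defs



namespace Pool.Agent.Helper273.Sup
open IntermediateField


theorem c_ne {K : Type*} [Field K] [CharZero K] (w : K) (hw : w ^ 5 = 1) (hw1 : w ≠ 1) :
    (1 + w ^ 2 + w ^ 3) ^ 2 + 1 ≠ 0 := by
  have hS : 1 + w + w ^ 2 + w ^ 3 + w ^ 4 = 0 := by
    have h1 : (w - 1) * (1 + w + w ^ 2 + w ^ 3 + w ^ 4) = 0 := by
      linear_combination hw
    exact (mul_eq_zero.1 h1).resolve_left (sub_ne_zero.2 hw1)
  intro h
  have h1 : (1 + w ^ 2 + w ^ 3) ^ 2 + 1 = w ^ 2 + w ^ 3 + 3 := by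
    linear_combination hS + (w + 2) * hw
  have h2 : (w ^ 2 + w ^ 3 + 3) * (w + w ^ 4 + 3) = 5 := by
    linear_combination (w + w ^ 2) * hw + 4 * hS
  rw [← h1, h, zero_mul] at h2
  exact (by norm_num : (5 : K) ≠ 0) h2.symm

end Pool.Agent.Helper273.Sup
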