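import Pool.Agent.Helper273.Sup.Defs



namespace Pool.Agent.Helper273.Sup
open IntermediateField


/-- a word in the two generators -/
def gw5 (w : List Bool) : Equiv.Perm (Fin 5) :=
  (w.map (fun b => if b then Equiv.swap 1 2 * Equiv.swap 3 4 else finRotate 5)).prod

/-- twelve words -/
def gwords5 : List (List Bool) :=
  [[], [true], [false, false, false, true, false], [false, true, false, false, false], [false, false, false, true, false, true], [false, true, false, false, false, true], [true, false, false, false, true, false], [true, false, true, false, false, false], [true, false, false, false, true, false, true], [true, false, true, false, false, false, true], [false, false, true, false, false, false, true, false, false], [false, false, true, false, false, false, true, false, false, true]]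

theorem gw5_mem (w : List Bool) : gw5 w ∈ Submonoid.closure ({finRotate 5,
    Equiv.swap 1 2 * Equiv.swap 3 4} : Set (Equiv.Perm (Fin 5))) := by
  unfold gw5
  apply Submonoid.list_prod_mem
  intro x hx
  rw [List.mem_map] at hx
  obtain ⟨b, _, rfl⟩ := hx
  apply Submonoid.subset_closure
  cases b
  · simp
  · simp

theorem stab5 : ∀ σ : Equiv.Perm (Fin 5), Equiv.Perm.sign σ = 1 → σ 0 = 0 →
    ∃ w ∈ gwords5, gw5 w = σ := by
  decide +kernel

theorem rot5 : ∀ a : Fin 5, (finRotate 5 ^ (a : ℕ)) 0 = a := by decide +kernel

theorem sign_rot5 : Equiv.Perm.sign (finRotate 5) = 1 := by decide +kernel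

theorem gen_five (π : Equiv.Perm (Fin 5)) (h : π ∈ alternatingGroup (Fin 5)) :
    π ∈ Submonoid.closure ({finRotate 5, Equiv.swap 1 2 * Equiv.swap 3 4} :
      Set (Equiv.Perm (Fin 5))) := by
  rw [Equiv.Perm.mem_alternatingGroup] at h
  set a : Fin 5 := π 0 with ha
  obtain ⟨w, _, hw⟩ := stab5 ((finRotate 5 ^ (a : ℕ))⁻¹ * π)
    (by rw [map_mul, map_inv, map_pow, sign_rot5, h]; simp)
    (by
      rw [Equiv.Perm.mul_apply, Equiv.Perm.inv_eq_iff_eq, rot5 a])
  have h2 : π = finRotate 5 ^ (a : ℕ) * gw5 w := by
    rw [hw, mul_inv_cancel_left]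
  rw [h2]
  exact Submonoid.mul_mem _ (Submonoid.pow_mem _ (Submonoid.subset_closure (by simp)) _)
    (gw5_mem w)

end Pool.Agent.Helper273.Sup
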