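import Pool.Agent.Helper273.Sup.Defs



namespace Pool.Agent.Helper273.Sup
open IntermediateField


theorem inv_id_aux {K : Type*} [Field K] (w : K) (hw : w ^ 5 = 1) (hw1 : w ≠ 1) (z : Fin 5 → K)
    (h1 : ∑ i, z i = 0) (h2 : ∑ i, z i ^ 2 = 0) :
    2 * (res w (fun i => z ((Equiv.swap 1 2 * Equiv.swap 3 4 : Equiv.Perm (Fin 5)) i)) *
        ((1 + w ^ 2 + w ^ 3) * res w z + res (w ^ 2) z)) =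
      2 * (res (w ^ 2) (fun i => z ((Equiv.swap 1 2 * Equiv.swap 3 4 : Equiv.Perm (Fin 5)) i)) *
        (- res w z + (1 + w ^ 2 + w ^ 3) * res (w ^ 2) z)) := by
  have s0 : (Equiv.swap 1 2 * Equiv.swap 3 4 : Equiv.Perm (Fin 5)) 0 = 0 := by decide
  have s1 : (Equiv.swap 1 2 * Equiv.swap 3 4 : Equiv.Perm (Fin 5)) 1 = 2 := by decide
  have s2 : (Equiv.swap 1 2 * Equiv.swap 3 4 : Equiv.Perm (Fin 5)) 2 = 1 := by decide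
  have s3 : (Equiv.swap 1 2 * Equiv.swap 3 4 : Equiv.Perm (Fin 5)) 3 = 4 := by decide
  have s4 : (Equiv.swap 1 2 * Equiv.swap 3 4 : Equiv.Perm (Fin 5)) 4 = 3 := by decide
  have hw4 : 1 + w + w ^ 2 + w ^ 3 + w ^ 4 = 0 := by
    have : (w - 1) * (1 + w + w ^ 2 + w ^ 3 + w ^ 4) = 0 := by linear_combination hw
    exact (mul_eq_zero.1 this).resolve_left (sub_ne_zero.2 hw1)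
  have v0 : ((0 : Fin 5) : ℕ) = 0 := rfl
  have v1 : ((1 : Fin 5) : ℕ) = 1 := rfl
  have v2 : ((2 : Fin 5) : ℕ) = 2 := rfl
  have v3 : ((3 : Fin 5) : ℕ) = 3 := rfl
  have v4 : ((4 : Fin 5) : ℕ) = 4 := rfl
  rw [Fin.sum_univ_five] at h1 h2
  simp only [res, Fin.sum_univ_five, s0, s1, s2, s3, s4, v0, v1, v2, v3, v4]
  linear_combination ((5)) * h2 + ((-1)*z 4 + (-1)*z 3 + (-1)*z 2 + (-1)*z 1 + (-1)*z 0) * h1 + ((-4)*z 4 ^ 2 + (2)*z 3*z 4 + (-4)*z 3 ^ 2 + (2)*z 2*z 4 + (2)*z 2*z 3 + (-4)*z 2 ^ 2 + (2)*z 1*z 4 + (2)*z 1*z 3 + (2)*z 1*z 2 + (-4)*z 1 ^ 2 + (2)*z 0*z 4 + (2)*z 0*z 3 + (2)*z 0*z 2 + (2)*z 0*z 1 + (4)*w ^ 1*z 4 ^ 2 + (-2)*w ^ 1*z 3*z 4 + (4)*w ^ 1*z 3 ^ 2 + (-2)*w ^ 1*z 2*z 4 + (-2)*w ^ 1*z 2*z 3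 + (4)*w ^ 1*z 2 ^ 2 + (-2)*w ^ 1*z 1*z 4 + (-2)*w ^ 1*z 1*z 3 + (-2)*w ^ 1*z 1*z 2 + (4)*w ^ 1*z 1 ^ 2 + (-2)*w ^ 1*z 0*z 4 + (-2)*w ^ 1*z 0*z 3 + (2)*w ^ 1*z 0*z 2 + (2)*w ^ 1*z 0*z 1 + (2)*w ^ 2*z 1*z 2 + (2)*w ^ 3*z 2 ^ 2 + (2)*w ^ 3*z 1*z 2 + (2)*w ^ 3*z 1 ^ 2 + (4)*w ^ 3*z 0*z 4 + (4)*w ^ 3*z 0*z 3 + (-2)*w ^ 3*z 0*z 2 + (-2)*w ^ 3*z 0*z 1 + (2)*w ^ 4*z 2*z 3 + (2)*w ^ 4*z 1*z 4 + (-2)*w ^ 4*z 1*z 2 + (-4)*w ^ 5*z 4 ^ 2 + (2)*w ^ 5*z 3*z 4 + (-4)*w ^ 5*z 3 ^ 2 + (6)*w ^ 5*z 2*z 4 + (2)*w ^ 5*z 2*z 3 + (-2)*w ^ 5*z 2 ^ 2 + (2)*w ^ 5*z 1*z 4 + (6)*w ^ 5*z 1*z 3 + (2)*w ^ 5*z 1*z 2 + (-2)*w ^ 5*z 1 ^ 2 + (4)*w ^ 6*z 4 ^ 2 + (4)*w ^ 6*z 3 ^ 2 + (-4)*w ^ 6*z 2*z 4 + (-4)*w ^ 6*z 1*z 3 + (2)*w ^ 7*z 4 ^ 2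 + (-2)*w ^ 7*z 3*z 4 + (2)*w ^ 7*z 3 ^ 2 + (4)*w ^ 7*z 2*z 4 + (4)*w ^ 7*z 1*z 3 + (-2)*w ^ 7*z 1*z 2 + (-2)*w ^ 7*z 0*z 4 + (-2)*w ^ 7*z 0*z 3 + (-2)*w ^ 8*z 4 ^ 2 + (4)*w ^ 8*z 3*z 4 + (-2)*w ^ 8*z 3 ^ 2 + (-2)*w ^ 8*z 2*z 3 + (-2)*w ^ 8*z 1*z 4 + (2)*w ^ 9*z 4 ^ 2 + (2)*w ^ 9*z 3*z 4 + (2)*w ^ 9*z 3 ^ 2 + (-4)*w ^ 9*z 2*z 4 + (2)*w ^ 9*z 2*z 3 + (2)*w ^ 9*z 1*z 4 + (-4)*w ^ 9*z 1*z 3 + (-2)*w ^ 10*z 4 ^ 2 + (-2)*w ^ 10*z 3*z 4 + (-2)*w ^ 10*z 3 ^ 2 + (2)*w ^ 11*z 4 ^ 2 + (2)*w ^ 11*z 3 ^ 2 + (-2)*w ^ 11*z 2*z 3 + (-2)*w ^ 11*z 1*z 4 + (-2)*w ^ 12*z 3*z 4 + (-2)*w ^ 13*z 4 ^ 2 + (2)*w ^ 13*z 3*z 4 + (-2)*w ^ 13*z 3 ^ 2 + (-2)*w ^ 15*z 3*z 4) * hw4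

theorem inv_id {K : Type*} [Field K] (w : K) (hw : w ^ 5 = 1) (hw1 : w ≠ 1) (z : Fin 5 → K)
    (h1 : ∑ i, z i = 0) (h2 : ∑ i, z i ^ 2 = 0) (h20 : (2 : K) ≠ 0) :
    res w (fun i => z ((Equiv.swap 1 2 * Equiv.swap 3 4 : Equiv.Perm (Fin 5)) i)) *
        ((1 + w ^ 2 + w ^ 3) * res w z + res (w ^ 2) z) =
      res (w ^ 2) (fun i => z ((Equiv.swap 1 2 * Equiv.swap 3 4 : Equiv.Perm (Fin 5)) i)) *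
        (- res w z + (1 + w ^ 2 + w ^ 3) * res (w ^ 2) z) :=
  mul_left_cancel₀ h20 (inv_id_aux w hw hw1 z h1 h2)

end Pool.Agent.Helper273.Sup
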