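import Pool.Agent.Helper273.Sup.Defs



namespace Pool.Agent.Helper273.Sup
open IntermediateField


theorem quad_five {K : Type*} [Field K] (y : Fin 5 → K) (hy : Function.Injective y) (c d : K)
    (h : ∀ i j, y i ^ 2 + c * y i + d = y j ^ 2 + c * y j + d) : False := by
  have key : ∀ i j, i ≠ j → y i + y j + c = 0 := by
    intro i j hij
    have h1 : (y i - y j) * (y i + y j + c) = 0 := by linear_combination h i j
    exact (mul_eq_zero.1 h1).resolve_left fun h2 => hij (hy (sub_eq_zero.1 h2))
  have h1 := key 0 1 (by decide)
  have h2 := key 0 2 (by decide)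
  have h3 : y 1 = y 2 := by linear_combination h1 - h2
  exact absurd (hy h3) (by decide)

end Pool.Agent.Helper273.Sup
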