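import Pool.Agent.Helper273.Sup.Defs



namespace Pool.Agent.Helper273.Sup
open IntermediateField


theorem res_zero {K : Type*} [Field K] [CharZero K] (w : K) (hw : w ^ 5 = 1) (hw1 : w ≠ 1)
    (z : Fin 5 → K) (h : ∀ π ∈ alternatingGroup (Fin 5), res w (fun i => z (π i)) = 0) :
    ∀ i j, z i = z j := by
  have key : ∀ π ∈ alternatingGroup (Fin 5), z (π 0) = z (π 1) := by
    intro π hπ
    have hc : (Equiv.swap 0 1 * Equiv.swap 1 4 : Equiv.Perm (Fin 5)) ∈
        alternatingGroup (Fin 5) := Equiv.Perm.mem_alternatingGroup.mpr (by decide)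
    have hd : (Equiv.swap 0 1 * Equiv.swap 2 3 : Equiv.Perm (Fin 5)) ∈
        alternatingGroup (Fin 5) := Equiv.Perm.mem_alternatingGroup.mpr (by decide)
    have h1 := h π hπ
    have h2 := h _ (mul_mem hπ hc)
    have h3 := h _ (mul_mem hπ hd)
    have h4 := h _ (mul_mem (mul_mem hπ hd) hc)
    have c0 : (Equiv.swap 0 1 * Equiv.swap 1 4 : Equiv.Perm (Fin 5)) 0 = 1 := by decide
    have c1 : (Equiv.swap 0 1 * Equiv.swap 1 4 : Equiv.Perm (Fin 5)) 1 = 4 := by decide
    have c2 : (Equiv.swap 0 1 * Equiv.swap 1 4 : Equiv.Perm (Fin 5)) 2 = 2 := by decide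
    have c3 : (Equiv.swap 0 1 * Equiv.swap 1 4 : Equiv.Perm (Fin 5)) 3 = 3 := by decide
    have c4 : (Equiv.swap 0 1 * Equiv.swap 1 4 : Equiv.Perm (Fin 5)) 4 = 0 := by decide
    have d0 : (Equiv.swap 0 1 * Equiv.swap 2 3 : Equiv.Perm (Fin 5)) 0 = 1 := by decide
    have d1 : (Equiv.swap 0 1 * Equiv.swap 2 3 : Equiv.Perm (Fin 5)) 1 = 0 := by decide
    have d2 : (Equiv.swap 0 1 * Equiv.swap 2 3 : Equiv.Perm (Fin 5)) 2 = 3 := by decide
    have d3 : (Equiv.swap 0 1 * Equiv.swap 2 3 : Equiv.Perm (Fin 5)) 3 = 2 := by decide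
    have d4 : (Equiv.swap 0 1 * Equiv.swap 2 3 : Equiv.Perm (Fin 5)) 4 = 4 := by decide
    generalize (Equiv.swap 0 1 * Equiv.swap 1 4 : Equiv.Perm (Fin 5)) = c at *
    generalize (Equiv.swap 0 1 * Equiv.swap 2 3 : Equiv.Perm (Fin 5)) = d at *
    simp only [res, Fin.sum_univ_five, Equiv.Perm.mul_apply, c0, c1, c2, c3, c4, d0, d1, d2, d3,
      d4] at h1 h2 h3 h4
    norm_num at h1 h2 h3 h4
    have h5 : (z (π 0) - z (π 1)) * (2 - w - w ^ 4) = 0 := by
      linear_combination h1 - h2 - h3 + h4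
    rcases mul_eq_zero.mp h5 with h6 | h6
    · exact sub_eq_zero.mp h6
    · exfalso
      apply hw1
      have h7 : (w - 1) ^ 2 = 0 := by
        linear_combination -w * h6 - hw
      have h8 : w - 1 = 0 := pow_eq_zero_iff (two_ne_zero) |>.mp h7
      exact sub_eq_zero.mp h8
  have hr : (finRotate 5) ∈ alternatingGroup (Fin 5) :=
    Equiv.Perm.mem_alternatingGroup.mpr (by decide)
  have k0 := key 1 (one_mem _)
  have k1 := key (finRotate 5) hr
  have k2 := key (finRotate 5 ^ 2) (pow_mem hr 2)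
  have k3 := key (finRotate 5 ^ 3) (pow_mem hr 3)
  have e0 : (1 : Equiv.Perm (Fin 5)) 0 = 0 := rfl
  have e0' : (1 : Equiv.Perm (Fin 5)) 1 = 1 := rfl
  have e1 : (finRotate 5) 0 = 1 := by decide
  have e1' : (finRotate 5) 1 = 2 := by decide
  have e2 : (finRotate 5 ^ 2) 0 = 2 := by decide
  have e2' : (finRotate 5 ^ 2) 1 = 3 := by decide
  have e3 : (finRotate 5 ^ 3) 0 = 3 := by decide
  have e3' : (finRotate 5 ^ 3) 1 = 4 := by decide
  rw [e0, e0'] at k0
  rw [e1, e1'] at k1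
  rw [e2, e2'] at k2
  rw [e3, e3'] at k3
  have hall : ∀ i, z i = z 0 := by
    intro i
    fin_cases i
    · rfl
    · exact k0.symm
    · exact (k0.trans k1).symm
    · exact (k0.trans (k1.trans k2)).symm
    · exact (k0.trans (k1.trans (k2.trans k3))).symm
  intro i j
  rw [hall i, hall j]

end Pool.Agent.Helper273.Sup
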