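import Pool.Agent.Helper273.Sup.Defs
import Pool.Agent.Helper273.Sup.P_res_zero
import Pool.Agent.Helper273.Sup.P_quad_five



namespace Pool.Agent.Helper273.Sup
open IntermediateField


theorem res_ne_aux {k K : Type*} [Field k] [Field K] [Algebra k K] [CharZero k]
    (M : IntermediateField k K) (y : Fin 5 → K) (hinj : Function.Injective y) (w : k)
    (hw : w ^ 5 = 1) (hw1 : w ≠ 1) (c d : K) (hc : c ∈ M) (hd : d ∈ M)
    (hA : ∀ π ∈ alternatingGroup (Fin 5), ∃ σ : K ≃ₐ[k] K,
      (∀ b ∈ M, σ b = b) ∧ ∀ i, σ (y i) = y (π i)) :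
    res (algebraMap k K w) (fun i => y i ^ 2 + c * y i + d) ≠ 0 := by
  intro h0
  haveI : CharZero K := charZero_of_injective_algebraMap (algebraMap k K).injective
  have hW : (algebraMap k K w) ^ 5 = 1 := by
    rw [← map_pow, hw, map_one]
  have hW1 : algebraMap k K w ≠ 1 := by
    intro h
    apply hw1
    apply (algebraMap k K).injective
    rw [h, map_one]
  have hall := res_zero (algebraMap k K w) hW hW1 (fun i => y i ^ 2 + c * y i + d) (by
    intro π hπ
    obtain ⟨σ, h1, h2⟩ := hA π hπ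
    have h3 := congrArg σ h0
    rw [map_zero] at h3
    rw [← h3]
    unfold res
    rw [map_sum]
    refine Finset.sum_congr rfl ?_
    intro i _
    rw [map_mul, map_pow, AlgEquiv.commutes, map_add, map_add, map_mul, map_pow, h1 c hc, h1 d hd,
      h2 i])
  exact quad_five y hinj c d hall

theorem res_ne {k K : Type*} [Field k] [Field K] [Algebra k K] [CharZero k]
    (M : IntermediateField k K) (y : Fin 5 → K) (hinj : Function.Injective y) (w : k)
    (hw : w ^ 5 = 1) (hw1 : w ≠ 1) (c d : K) (hc : c ∈ M) (hd : d ∈ M)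
    (hA : ∀ π ∈ alternatingGroup (Fin 5), ∃ σ : K ≃ₐ[k] K,
      (∀ b ∈ M, σ b = b) ∧ ∀ i, σ (y i) = y (π i)) :
    res (algebraMap k K w) (fun i => y i ^ 2 + c * y i + d) ≠ 0 ∧
    res (algebraMap k K w ^ 2) (fun i => y i ^ 2 + c * y i + d) ≠ 0 := by
  refine ⟨res_ne_aux M y hinj w hw hw1 c d hc hd hA, ?_⟩
  rw [← map_pow]
  refine res_ne_aux M y hinj (w ^ 2) ?_ ?_ c d hc hd hA
  · rw [← pow_mul, mul_comm 2 5, pow_mul, hw, one_pow]
  · intro h
    apply hw1
    have : w ^ 5 = (w ^ 2) ^ 2 * w := by ring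
    rw [this, h] at hw
    simpa using hw

end Pool.Agent.Helper273.Sup
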