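import Pool.Agent.Helper273.Sup.Defs



namespace Pool.Agent.Helper273.Sup
open IntermediateField


theorem rot_id {K : Type*} [Field K] (w : K) (hw : w ^ 5 = 1) (z : Fin 5 → K) :
    w * res w (fun i => z (finRotate 5 i)) = res w z ∧
    w ^ 2 * res (w ^ 2) (fun i => z (finRotate 5 i)) = res (w ^ 2) z := by
  have r0 : finRotate 5 0 = 1 := by decide
  have r1 : finRotate 5 1 = 2 := by decide
  have r2 : finRotate 5 2 = 3 := by decide
  have r3 : finRotate 5 3 = 4 := by decide
  have r4 : finRotate 5 4 = 0 := by decide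
  have v0 : ((0 : Fin 5) : ℕ) = 0 := rfl
  have v1 : ((1 : Fin 5) : ℕ) = 1 := rfl
  have v2 : ((2 : Fin 5) : ℕ) = 2 := rfl
  have v3 : ((3 : Fin 5) : ℕ) = 3 := rfl
  have v4 : ((4 : Fin 5) : ℕ) = 4 := rfl
  constructor
  · simp only [res, Fin.sum_univ_five, r0, r1, r2, r3, r4, v0, v1, v2, v3, v4]
    linear_combination z 0 * hw
  · simp only [res, Fin.sum_univ_five, r0, r1, r2, r3, r4, v0, v1, v2, v3, v4]
    linear_combination z 0 * (w ^ 5 + 1) * hw

end Pool.Agent.Helper273.Sup
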