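import Pool.Agent.Helper273.Sup.Defs
import Pool.Agent.Helper273.Sup.P_rot_id
import Pool.Agent.Helper273.Sup.P_inv_id
import Pool.Agent.Helper273.Sup.P_c_ne
import Pool.Agent.Helper273.Sup.P_gen_five
import Pool.Agent.Helper273.Sup.P_res_ne



namespace Pool.Agent.Helper273.Sup
open IntermediateField


theorem ls_map {k K : Type*} [Field k] [Field K] [Algebra k K] (w : k) (y : Fin 5 → K) (c d : K)
    (σ : K ≃ₐ[k] K) (hc : σ c = c) (hd : σ d = d) (π : Equiv.Perm (Fin 5)) (hσπ : ∀ i, σ (y i) = y (π i))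
    (e : ℕ) (ρ : Equiv.Perm (Fin 5)) :
    σ (res (algebraMap k K w ^ e) (fun i => (fun i => y i ^ 2 + c * y i + d) (ρ i)))
      = res (algebraMap k K w ^ e) (fun i => (fun i => y i ^ 2 + c * y i + d) ((π * ρ) i)) := by
  unfold res
  rw [map_sum]
  refine Finset.sum_congr rfl fun i _ => ?_
  simp only [map_mul, map_pow, map_add, AlgEquiv.commutes, hc, hd, hσπ, Equiv.Perm.coe_mul, Function.comp_apply]

theorem lam_stable {k K : Type*} [Field k] [Field K] [Algebra k K] [CharZero k]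
    (M : IntermediateField k K) (y : Fin 5 → K) (hinj : Function.Injective y) (w : k)
    (hw : w ^ 5 = 1) (hw1 : w ≠ 1) (c d : K) (hc : c ∈ M) (hd : d ∈ M)
    (h1 : ∑ i, (y i ^ 2 + c * y i + d) = 0) (h2 : ∑ i, (y i ^ 2 + c * y i + d) ^ 2 = 0)
    (hA : ∀ π ∈ alternatingGroup (Fin 5), ∃ σ : K ≃ₐ[k] K,
      (∀ b ∈ M, σ b = b) ∧ ∀ i, σ (y i) = y (π i))
    (σ : K ≃ₐ[k] K) (hσ : ∀ b ∈ M, σ b = b) (π : Equiv.Perm (Fin 5))
    (hπ : π ∈ alternatingGroup (Fin 5)) (hσπ : ∀ i, σ (y i) = y (π i)) :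
    σ (res (algebraMap k K w) (fun i => y i ^ 2 + c * y i + d) /
        res (algebraMap k K w ^ 2) (fun i => y i ^ 2 + c * y i + d)) ∈
      adjoin k {res (algebraMap k K w) (fun i => y i ^ 2 + c * y i + d) /
        res (algebraMap k K w ^ 2) (fun i => y i ^ 2 + c * y i + d)} := by
  haveI : CharZero K := charZero_of_injective_algebraMap (algebraMap k K).injective
  set W : K := algebraMap k K w with hWdef
  set z : Fin 5 → K := fun i => y i ^ 2 + c * y i + d with hz
  have hW5 : W ^ 5 = 1 := by rw [hWdef, ← map_pow, hw, map_one]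
  have hW1 : W ≠ 1 := by
    intro h
    apply hw1
    apply (algebraMap k K).injective
    rw [← hWdef, h, map_one]
  have hW0 : W ≠ 0 := by
    intro h
    rw [h] at hW5
    norm_num at hW5
  obtain ⟨hp1, hp2⟩ := res_ne M y hinj w hw hw1 c d hc hd hA
  change res W z ≠ 0 at hp1
  change res (W ^ 2) z ≠ 0 at hp2
  set F : IntermediateField k K := adjoin k {res W z / res (W ^ 2) z} with hF
  have hlam : res W z / res (W ^ 2) z ∈ F := subset_adjoin k _ rfl
  have hWF : W ∈ F := F.algebraMap_mem w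
  let LAM : Equiv.Perm (Fin 5) → K := fun ρ => res W (fun i => z (ρ i)) / res (W ^ 2) (fun i => z (ρ i))
  -- action
  have hact : ∀ (τ : K ≃ₐ[k] K) (hτ : ∀ b ∈ M, τ b = b) (ρ1 ρ2 : Equiv.Perm (Fin 5))
      (hτπ : ∀ i, τ (y i) = y (ρ1 i)),
      τ (res W (fun i => z (ρ2 i))) = res W (fun i => z ((ρ1 * ρ2) i)) ∧
      τ (res (W ^ 2) (fun i => z (ρ2 i))) = res (W ^ 2) (fun i => z ((ρ1 * ρ2) i)) := by
    intro τ hτ ρ1 ρ2 hτπ
    have e1 := ls_map w y c d τ (hτ c hc) (hτ d hd) ρ1 hτπ 1 ρ2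
    have e2 := ls_map w y c d τ (hτ c hc) (hτ d hd) ρ1 hτπ 2 ρ2
    rw [pow_one] at e1
    exact ⟨e1, e2⟩
  have hactL : ∀ (τ : K ≃ₐ[k] K) (hτ : ∀ b ∈ M, τ b = b) (ρ1 ρ2 : Equiv.Perm (Fin 5))
      (hτπ : ∀ i, τ (y i) = y (ρ1 i)), τ (LAM ρ2) = LAM (ρ1 * ρ2) := by
    intro τ hτ ρ1 ρ2 hτπ
    obtain ⟨e1, e2⟩ := hact τ hτ ρ1 ρ2 hτπ
    simp only [LAM]
    rw [map_div₀, e1, e2]
  have hL1 : LAM 1 = res W z / res (W ^ 2) z := rfl
  have key : ∀ ρ ∈ Submonoid.closure ({finRotate 5, Equiv.swap 1 2 * Equiv.swap 3 4} :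
      Set (Equiv.Perm (Fin 5))), ρ ∈ alternatingGroup (Fin 5) ∧ LAM ρ ∈ F := by
    intro ρ hρ
    induction hρ using Submonoid.closure_induction with
    | one => exact ⟨Subgroup.one_mem _, by rw [hL1]; exact hlam⟩
    | mem x hx =>
      rcases hx with rfl | hx
      · refine ⟨by rw [Equiv.Perm.mem_alternatingGroup]; decide, ?_⟩
        obtain ⟨e1, e2⟩ := rot_id W hW5 z
        have e3 : LAM (finRotate 5) = W * (res W z / res (W ^ 2) z) := by
          simp only [LAM]
          have hq1 : res W (fun i => z (finRotate 5 i)) ≠ 0 := by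
            intro h
            rw [h, mul_zero] at e1
            exact hp1 e1.symm
          have hq2 : res (W ^ 2) (fun i => z (finRotate 5 i)) ≠ 0 := by
            intro h
            rw [h, mul_zero] at e2
            exact hp2 e2.symm
          rw [← e1, ← e2]
          field_simp
        rw [e3]
        exact F.mul_mem hWF hlam
      · rw [Set.mem_singleton_iff] at hx
        subst hx
        have hT : (Equiv.swap 1 2 * Equiv.swap 3 4 : Equiv.Perm (Fin 5)) ∈ alternatingGroup (Fin 5) := by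
          rw [Equiv.Perm.mem_alternatingGroup]; decide
        refine ⟨hT, ?_⟩
        have e1 := inv_id W hW5 hW1 z h1 h2 two_ne_zero
        have e2 := c_ne W hW5 hW1
        obtain ⟨τ, hτ, hτy⟩ := hA _ hT
        have hq2 : res (W ^ 2) (fun i => z ((Equiv.swap 1 2 * Equiv.swap 3 4 : Equiv.Perm (Fin 5)) i)) ≠ 0 := by
          have e3 := (hact τ hτ _ 1 hτy).2
          rw [mul_one] at e3
          rw [← e3]
          intro h
          exact hp2 ((map_eq_zero τ).1 h)
        have hL : LAM (Equiv.swap 1 2 * Equiv.swap 3 4) = res W (fun i => z ((Equiv.swap 1 2 * Equiv.swap 3 4 : Equiv.Perm (Fin 5)) i)) / res (W ^ 2) (fun i => z ((Equiv.swap 1 2 * Equiv.swap 3 4 : Equiv.Perm (Fin 5)) i)) := rfl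
        generalize res W (fun i => z ((Equiv.swap 1 2 * Equiv.swap 3 4 : Equiv.Perm (Fin 5)) i)) = q1 at *
        generalize res (W ^ 2) (fun i => z ((Equiv.swap 1 2 * Equiv.swap 3 4 : Equiv.Perm (Fin 5)) i)) = q2 at *
        have hCF : (1 + W ^ 2 + W ^ 3) ∈ F := F.add_mem (F.add_mem F.one_mem (_root_.pow_mem hWF 2)) (_root_.pow_mem hWF 3)
        generalize (1 + W ^ 2 + W ^ 3) = C at *
        have hne : C * res W z + res (W ^ 2) z ≠ 0 := by
          intro h
          rw [h, mul_zero] at e1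
          rcases mul_eq_zero.1 e1.symm with h3 | h3
          · exact hq2 h3
          · have h4 : (C ^ 2 + 1) * res (W ^ 2) z = 0 := by
              linear_combination h + C * h3
            rcases mul_eq_zero.1 h4 with h5 | h5
            · exact e2 h5
            · exact hp2 h5
        have hne2 : C * (res W z / res (W ^ 2) z) + 1 ≠ 0 := by
          intro h
          apply hne
          field_simp at h
          rw [h, mul_zero]
        have e4 : LAM (Equiv.swap 1 2 * Equiv.swap 3 4) = (- (res W z / res (W ^ 2) z) + C) / (C * (res W z / res (W ^ 2) z) + 1) := by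
          rw [hL, div_eq_div_iff hq2 hne2]
          field_simp
          linear_combination e1
        rw [e4]
        exact F.div_mem (F.add_mem (F.neg_mem hlam) hCF) (F.add_mem (F.mul_mem hCF hlam) F.one_mem)
    | mul x x' _ _ hx hx' =>
      refine ⟨Subgroup.mul_mem _ hx.1 hx'.1, ?_⟩
      obtain ⟨τ, hτ, hτy⟩ := hA x hx.1
      rw [← hactL τ hτ x x' hτy]
      have e5 : F ≤ F.comap (τ : K →ₐ[k] K) := by
        rw [hF, adjoin_le_iff, Set.singleton_subset_iff]
        show τ (res W z / res (W ^ 2) z) ∈ adjoin k {res W z / res (W ^ 2) z}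
        have e6 := hactL τ hτ x 1 hτy
        rw [hL1, mul_one] at e6
        rw [e6]
        exact hx.2
      exact e5 hx'.2
  have hfin := (key π (gen_five π hπ)).2
  have e7 := hactL σ hσ π 1 hσπ
  rw [hL1, mul_one] at e7
  rw [e7]
  exact hfin

end Pool.Agent.Helper273.Sup
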