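import Pool.Agent.Helper273.Sup.Defs
import Pool.Agent.Helper273.Sup.P_fixed_mem
import Pool.Agent.Helper273.Sup.P_roots_indep
import Pool.Agent.Helper273.Sup.P_exists_hom
import Pool.Agent.Helper273.Sup.P_le_step
import Pool.Agent.Helper273.Sup.P_quad_mem_step



namespace Pool.Agent.Helper273.Sup
open IntermediateField


theorem tsch_psum_mem {k K : Type*} [Field k] [Field K] [Algebra k K] [CharZero k]
    [IsAlgClosed K] (x y : Fin 5 → K) (hx : Gen k x) (hy : IsRoots x y) (m : ℕ) :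
    (∑ i, y i ^ m) ∈ adjoin k (Set.range x) := by
  refine fixed_mem _ hx.alg _ ?_
  intro σ hσ
  obtain ⟨ρ, hρ⟩ := exists_hom x y hx hy
  have hmem : σ ∈ (adjoin k (Set.range x)).fixingSubgroup := by
    rw [IntermediateField.mem_fixingSubgroup_iff]
    exact hσ
  have h := hρ ⟨σ, hmem⟩
  simp only at h
  rw [map_sum]
  have h2 : ∀ i, σ (y i ^ m) = (y (ρ ⟨σ, hmem⟩ i)) ^ m := by
    intro i
    rw [map_pow, h i]
  simp only [h2]
  exact Equiv.sum_comp (ρ ⟨σ, hmem⟩) (fun i => y i ^ m)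

theorem tsch_disc_ne {k K : Type*} [Field k] [Field K] [Algebra k K] [CharZero k]
    (y : Fin 5 → K) (hy : AlgebraicIndependent k y) :
    5 * (∑ i, y i ^ 2) - (∑ i, y i ^ 1) ^ 2 ≠ 0 := by
  intro h0
  have h1 : MvPolynomial.aeval y ((5 : MvPolynomial (Fin 5) k) * (∑ i, MvPolynomial.X i ^ 2)
      - (∑ i, MvPolynomial.X i ^ 1) ^ 2) = 0 := by
    simp only [map_sub, map_mul, map_sum, map_pow, MvPolynomial.aeval_X, map_ofNat]
    exact h0
  have h2 := (algebraicIndependent_iff.mp hy) _ h1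
  have h3 := congrArg (MvPolynomial.eval (![1, 0, 0, 0, 0] : Fin 5 → k)) h2
  simp [Fin.sum_univ_five] at h3
  norm_num at h3

theorem tschirnhaus {k K : Type*} [Field k] [Field K] [Algebra k K] [CharZero k]
    [IsAlgClosed K] (x y : Fin 5 → K) (hx : Gen k x) (hy : IsRoots x y) :
    ∃ c ∈ step 1 (adjoin k (Set.range x)), ∃ d ∈ step 1 (adjoin k (Set.range x)),
      ∑ i, (y i ^ 2 + c * y i + d) = 0 ∧ ∑ i, (y i ^ 2 + c * y i + d) ^ 2 = 0 := by
  have hch : CharZero K := charZero_of_injective_algebraMap (algebraMap k K).injective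
  have hP := tsch_psum_mem x y hx hy
  have hA := tsch_disc_ne y (roots_indep x y hx hy)
  set M := adjoin k (Set.range x) with hM
  have hle : M ≤ step 1 M := le_step 1 le_rfl M
  set p1 := ∑ i, y i ^ 1 with hp1
  set p2 := ∑ i, y i ^ 2 with hp2
  set p3 := ∑ i, y i ^ 3 with hp3
  set p4 := ∑ i, y i ^ 4 with hp4
  have m1 : p1 ∈ M := hP 1
  have m2 : p2 ∈ M := hP 2
  have m3 : p3 ∈ M := hP 3
  have m4 : p4 ∈ M := hP 4
  have n2 : (2 : K) ∈ M := ofNat_mem M 2
  have n5 : (5 : K) ∈ M := ofNat_mem M 5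
  -- quadratic: A c^2 + B c + C = 0
  set A := 5 * p2 - p1 ^ 2 with hAdef
  set B := 10 * p3 - 2 * p1 * p2 with hBdef
  set C := 5 * p4 - p2 ^ 2 with hCdef
  have mA : A ∈ M := sub_mem (mul_mem n5 m2) (pow_mem m1 2)
  have mB : B ∈ M := sub_mem (mul_mem (ofNat_mem M 10) m3) (mul_mem (mul_mem n2 m1) m2)
  have mC : C ∈ M := sub_mem (mul_mem n5 m4) (pow_mem m2 2)
  obtain ⟨s, hs⟩ := IsAlgClosed.exists_pow_nat_eq ((B / A) ^ 2 / 4 - C / A) (n := 2) (by norm_num)
  have hc0 : (s - B / A / 2) ^ 2 + (B / A) * (s - B / A / 2) + C / A = 0 := by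
    have : (s - B / A / 2) ^ 2 + (B / A) * (s - B / A / 2) + C / A
        = s ^ 2 - ((B / A) ^ 2 / 4 - C / A) := by ring
    rw [this, hs, sub_self]
  set c := s - B / A / 2 with hc
  have mc : c ∈ step 1 M := quad_mem_step M (B / A) (C / A) c (div_mem mB mA) (div_mem mC mA) hc0
  have hc1 : A * c ^ 2 + B * c + C = 0 := by
    have : A * c ^ 2 + B * c + C = A * (c ^ 2 + (B / A) * c + C / A) := by
      field_simp
    rw [this, hc0, mul_zero]
  have h5 : (5 : K) ≠ 0 := by norm_num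
  have md : -(p2 + c * p1) / 5 ∈ step 1 M :=
    div_mem (neg_mem (add_mem (hle m2) (mul_mem mc (hle m1)))) (hle n5)
  refine ⟨c, mc, -(p2 + c * p1) / 5, md, ?_, ?_⟩
  · have e1 : ∀ d : K, ∑ i, (y i ^ 2 + c * y i + d) = p2 + c * p1 + 5 * d := by
      intro d
      simp only [hp1, hp2, Fin.sum_univ_five]
      ring
    rw [e1]
    field_simp
    ring
  · have e2 : ∀ d : K, ∑ i, (y i ^ 2 + c * y i + d) ^ 2
        = p4 + 2 * c * p3 + c ^ 2 * p2 + 2 * d * p2 + 2 * c * d * p1 + 5 * d ^ 2 := by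
      intro d
      simp only [hp1, hp2, hp3, hp4, Fin.sum_univ_five]
      ring
    rw [e2]
    have e3 : p4 + 2 * c * p3 + c ^ 2 * p2 + 2 * (-(p2 + c * p1) / 5) * p2
        + 2 * c * (-(p2 + c * p1) / 5) * p1 + 5 * (-(p2 + c * p1) / 5) ^ 2
        = (A * c ^ 2 + B * c + C) / 5 := by
      simp only [hAdef, hBdef, hCdef]
      field_simp
      ring
    rw [e3, hc1, zero_div]

end Pool.Agent.Helper273.Sup
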