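import Pool.Agent.Helper273.Sup.Defs
import Pool.Agent.Helper273.Sup.P_alg_of_le
import Pool.Agent.Helper273.Sup.P_roots_indep
import Pool.Agent.Helper273.Sup.P_exists_hom
import Pool.Agent.Helper273.Sup.P_le_step
import Pool.Agent.Helper273.Sup.P_curve_trick
import Pool.Agent.Helper273.Sup.P_tschirnhaus
import Pool.Agent.Helper273.Sup.P_realise
import Pool.Agent.Helper273.Sup.P_even_perm
import Pool.Agent.Helper273.Sup.P_rot_id
import Pool.Agent.Helper273.Sup.P_lam_stable
import Pool.Agent.Helper273.Sup.P_res_ne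
import Pool.Agent.Helper273.Sup.P_lam_gen



namespace Pool.Agent.Helper273.Sup
open IntermediateField


theorem h170_root {k : Type*} [Field k] [IsAlgClosed k] [CharZero k] : ∃ w : k, w ^ 5 = 1 ∧ w ≠ 1 := by
  have hd : (Polynomial.X ^ 4 + Polynomial.X ^ 3 + Polynomial.X ^ 2 + Polynomial.X + 1 : Polynomial k).degree ≠ 0 := by
    have : (Polynomial.X ^ 4 + Polynomial.X ^ 3 + Polynomial.X ^ 2 + Polynomial.X + 1 : Polynomial k).degree = 4 := by
      compute_degree!
    rw [this]; norm_num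
  obtain ⟨w, hw⟩ := IsAlgClosed.exists_root _ hd
  have hw' : w ^ 4 + w ^ 3 + w ^ 2 + w + 1 = 0 := by
    simpa [Polynomial.IsRoot.def] using hw
  refine ⟨w, ?_, ?_⟩
  · have : w ^ 5 - 1 = (w - 1) * (w ^ 4 + w ^ 3 + w ^ 2 + w + 1) := by ring
    rw [hw', mul_zero] at this
    exact sub_eq_zero.1 this
  · rintro rfl
    norm_num at hw'

theorem quintic {k K : Type*} [Field k] [Field K] [Algebra k K] [IsAlgClosed k] [CharZero k]
    [IsAlgClosed K] (x y : Fin 5 → K) (hx : Gen k x) (hy : IsRoots x y) (i : Fin 5) :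
    y i ∈ step 1 (step 1 (adjoin k (Set.range x))) := by
  rcases realise (le_refl 5) x y hx hy with h | hA
  · exact le_step 1 le_rfl _ (h i)
  obtain ⟨M, hMd⟩ : ∃ M, M = step 1 (adjoin k (Set.range x)) := ⟨_, rfl⟩
  have hM0 : adjoin k (Set.range x) ≤ M := by rw [hMd]; exact le_step 1 le_rfl _
  have hM : Algebra.IsAlgebraic M K := alg_of_le _ _ hM0 hx.alg
  obtain ⟨c, hc, d, hd, h1, h2⟩ := tschirnhaus x y hx hy
  obtain ⟨w, hw, hw1⟩ := h170_root (k := k)
  have hinj : Function.Injective y := (roots_indep x y hx hy).injective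
  obtain ⟨ρ, hρ⟩ := exists_hom x y hx hy
  have heven := even_perm x y hx hy
  rw [← hMd] at hA hc hd heven ⊢
  obtain ⟨hr1, hr2⟩ := res_ne M y hinj w hw hw1 c d hc hd hA
  obtain ⟨l, hl⟩ : ∃ l, l = res (algebraMap k K w) (fun i => y i ^ 2 + c * y i + d) /
        res (algebraMap k K w ^ 2) (fun i => y i ^ 2 + c * y i + d) := ⟨_, rfl⟩
  have hl0 : l ≠ 0 := by rw [hl]; exact div_ne_zero hr1 hr2
  have hyσ : ∀ σ : K ≃ₐ[k] K, (∀ b ∈ M, σ b = b) →
      ∃ π ∈ alternatingGroup (Fin 5), ∀ i, σ (y i) = y (π i) := by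
    intro σ hσ
    have hmem : σ ∈ (adjoin k (Set.range x)).fixingSubgroup := by
      rw [IntermediateField.mem_fixingSubgroup_iff]
      intro b hb
      exact hσ b (hM0 hb)
    exact ⟨ρ ⟨σ, hmem⟩, heven σ hσ _ (fun i => hρ ⟨σ, hmem⟩ i), fun i => hρ ⟨σ, hmem⟩ i⟩
  have hstab : ∀ σ : K ≃ₐ[k] K, (∀ b ∈ M, σ b = b) → σ l ∈ adjoin k {l} := by
    intro σ hσ
    obtain ⟨π, hπ, hπy⟩ := hyσ σ hσ
    rw [hl]
    exact lam_stable M y hinj w hw hw1 c d hc hd h1 h2 hA σ hσ π hπ hπy
  have hlM : l ∈ step 1 M := by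
    refine curve_trick M hM (fun _ : Fin 1 => l) (fun σ hσ _ => ?_) 0
    rw [Set.range_const]
    exact hstab σ hσ
  have hw0 : algebraMap k K w ≠ 0 := by
    intro h0
    have h3 : (algebraMap k K w) ^ 5 = 1 := by rw [← map_pow, hw, map_one]
    rw [h0] at h3
    norm_num at h3
  have hrot : ∀ σ : K ≃ₐ[k] K, (∀ b ∈ M, σ b = b) → (∀ i, σ (y i) = y (finRotate 5 i)) →
      σ l = algebraMap k K w * l := by
    intro σ hσ hσy
    have hz : ∀ i, σ (y i ^ 2 + c * y i + d) = y (finRotate 5 i) ^ 2 + c * y (finRotate 5 i) + d := by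
      intro i
      rw [map_add, map_add, map_mul, map_pow, hσ c hc, hσ d hd, hσy]
    have hres : ∀ v : K, σ v = v → σ (res v (fun i => y i ^ 2 + c * y i + d)) =
        res v (fun i => y (finRotate 5 i) ^ 2 + c * y (finRotate 5 i) + d) := by
      intro v hv
      unfold res
      rw [map_sum]
      refine Finset.sum_congr rfl fun i _ => ?_
      rw [map_mul, map_pow, hv, hz]
    have hw5 : (algebraMap k K w) ^ 5 = 1 := by rw [← map_pow, hw, map_one]
    obtain ⟨hi1, hi2⟩ := rot_id (algebraMap k K w) hw5 (fun i => y i ^ 2 + c * y i + d)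
    have hσw : σ (algebraMap k K w) = algebraMap k K w := σ.commutes w
    rw [hl, map_div₀, hres _ hσw, hres _ (by rw [map_pow, hσw])]
    rw [← hi1] at hr1
    rw [← hi2] at hr2
    have hr2' := right_ne_zero_of_mul hr2
    rw [← hi1, ← hi2]
    field_simp
  have hfin := lam_gen M hM y hinj l w hw1 hl0 hyσ hA hstab hrot i
  have hle : adjoin k ((M : Set K) ∪ {l}) ≤ step 1 M := by
    rw [IntermediateField.adjoin_le_iff]
    rintro b (hb | hb)
    · exact le_step 1 le_rfl M hb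
    · rw [Set.mem_singleton_iff] at hb
      rw [hb]; exact hlM
  exact hle hfin

end Pool.Agent.Helper273.Sup
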