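import Pool.Agent.Helper273.Sup.Defs



namespace Pool.Agent.Helper273.Sup
open IntermediateField


theorem root_mem {K : Type*} [Field K] {n : ℕ} (x y : Fin n → K) (hy : IsRoots x y) (f : K)
    (hf : f ^ n + ∑ i : Fin n, x i * f ^ (n - 1 - (i : ℕ)) = 0) : ∃ i, f = y i := by
  have h := congrArg (Polynomial.eval f) hy
  rw [Polynomial.eval_prod, Polynomial.eval_add, Polynomial.eval_finset_sum] at h
  simp only [Polynomial.eval_sub, Polynomial.eval_X, Polynomial.eval_C, Polynomial.eval_pow,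
    Polynomial.eval_mul] at h
  rw [hf, Finset.prod_eq_zero_iff] at h
  obtain ⟨i, _, hi⟩ := h
  exact ⟨i, sub_eq_zero.1 hi⟩

end Pool.Agent.Helper273.Sup
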