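import Pool.Agent.Helper273.Sup.Defs



namespace Pool.Agent.Helper273.Sup
open IntermediateField


theorem cr_alg_W {K : Type*} [Field K] (i j o p q : K) (hio : i - o ≠ 0) (hjo : j - o ≠ 0)
    (hqp : q - p ≠ 0) :
    cr i q p o - cr j q p o = ((q - o) * (p - o) / (q - p)) * ((i - j) / ((i - o) * (j - o))) := by
  unfold cr
  field_simp
  ring

theorem cr_alg_gen {K : Type*} [Field K] (a b c d o κ : K) (hκ : κ ≠ 0) (hao : a - o ≠ 0)
    (hbo : b - o ≠ 0) (hco : c - o ≠ 0) (hdo : d - o ≠ 0) (had : a - d ≠ 0) (hbc : b - c ≠ 0) :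
    cr a b c d = ((κ * ((a - c) / ((a - o) * (c - o)))) * (κ * ((b - d) / ((b - o) * (d - o))))) /
      ((κ * ((a - d) / ((a - o) * (d - o)))) * (κ * ((b - c) / ((b - o) * (c - o))))) := by
  unfold cr
  field_simp

theorem cr_alg_a {K : Type*} [Field K] (b c d o κ : K) (hκ : κ ≠ 0)
    (hbo : b - o ≠ 0) (hco : c - o ≠ 0) (hdo : d - o ≠ 0) (hod : o - d ≠ 0) (hbc : b - c ≠ 0) :
    cr o b c d = (κ * ((b - d) / ((b - o) * (d - o)))) / (κ * ((b - c) / ((b - o) * (c - o)))) := by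
  unfold cr
  field_simp
  ring

theorem cr_alg_b {K : Type*} [Field K] (a c d o κ : K) (hκ : κ ≠ 0)
    (hao : a - o ≠ 0) (hco : c - o ≠ 0) (hdo : d - o ≠ 0) (hoc : o - c ≠ 0) (had : a - d ≠ 0) :
    cr a o c d = (κ * ((a - c) / ((a - o) * (c - o)))) / (κ * ((a - d) / ((a - o) * (d - o)))) := by
  unfold cr
  field_simp
  ring

theorem cr_alg_c {K : Type*} [Field K] (a b d o κ : K) (hκ : κ ≠ 0)
    (hao : a - o ≠ 0) (hbo : b - o ≠ 0) (hdo : d - o ≠ 0) (had : a - d ≠ 0) :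
    cr a b o d = (κ * ((b - d) / ((b - o) * (d - o)))) / (κ * ((a - d) / ((a - o) * (d - o)))) := by
  unfold cr
  field_simp

theorem cr_alg_d {K : Type*} [Field K] (a b c o κ : K) (hκ : κ ≠ 0)
    (hao : a - o ≠ 0) (hbo : b - o ≠ 0) (hco : c - o ≠ 0) (hbc : b - c ≠ 0) :
    cr a b c o = (κ * ((a - c) / ((a - o) * (c - o)))) / (κ * ((b - c) / ((b - o) * (c - o)))) := by
  unfold cr
  field_simp

theorem cr_mem {k K : Type*} [Field k] [Field K] [Algebra k K] {ι : Type*} (y : ι → K)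
    (hy : Function.Injective y) (o p q : ι) (hop : o ≠ p) (hoq : o ≠ q) (hpq : p ≠ q)
    (F : IntermediateField k K) (hF : ∀ i, cr (y i) (y q) (y p) (y o) ∈ F) (a b c d : ι)
    (hab : a ≠ b) (hac : a ≠ c) (had : a ≠ d) (hbc : b ≠ c) (hbd : b ≠ d) (hcd : c ≠ d) :
    cr (y a) (y b) (y c) (y d) ∈ F := by
  have ne : ∀ i j : ι, i ≠ j → y i - y j ≠ 0 := fun i j h h0 => h (hy (sub_eq_zero.1 h0))
  set κ : K := (y q - y o) * (y p - y o) / (y q - y p) with hκd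
  have hκ : κ ≠ 0 := div_ne_zero (mul_ne_zero (ne _ _ hoq.symm) (ne _ _ hop.symm)) (ne _ _ hpq.symm)
  have key : ∀ i j : ι, i ≠ o → j ≠ o →
      κ * ((y i - y j) / ((y i - y o) * (y j - y o))) ∈ F := by
    intro i j hi hj
    rw [hκd, ← cr_alg_W (y i) (y j) (y o) (y p) (y q) (ne _ _ hi) (ne _ _ hj) (ne _ _ hpq.symm)]
    exact F.sub_mem (hF i) (hF j)
  by_cases ha : a = o
  · subst ha
    rw [cr_alg_a (y b) (y c) (y d) (y a) κ hκ (ne _ _ hab.symm) (ne _ _ hac.symm) (ne _ _ had.symm)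
      (ne _ _ had) (ne _ _ hbc)]
    exact F.div_mem (key b d hab.symm had.symm) (key b c hab.symm hac.symm)
  by_cases hb : b = o
  · subst hb
    rw [cr_alg_b (y a) (y c) (y d) (y b) κ hκ (ne _ _ hab) (ne _ _ hbc.symm) (ne _ _ hbd.symm)
      (ne _ _ hbc) (ne _ _ had)]
    exact F.div_mem (key a c hab hbc.symm) (key a d hab hbd.symm)
  by_cases hc : c = o
  · subst hc
    rw [cr_alg_c (y a) (y b) (y d) (y c) κ hκ (ne _ _ hac) (ne _ _ hbc) (ne _ _ hcd.symm)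
      (ne _ _ had)]
    exact F.div_mem (key b d hbc hcd.symm) (key a d hac hcd.symm)
  by_cases hd : d = o
  · subst hd
    rw [cr_alg_d (y a) (y b) (y c) (y d) κ hκ (ne _ _ had) (ne _ _ hbd) (ne _ _ hcd)
      (ne _ _ hbc)]
    exact F.div_mem (key a c had hcd) (key b c hbd hcd)
  rw [cr_alg_gen (y a) (y b) (y c) (y d) (y o) κ hκ (ne _ _ ha) (ne _ _ hb) (ne _ _ hc) (ne _ _ hd)
    (ne _ _ had) (ne _ _ hbc)]
  exact F.div_mem (F.mul_mem (key a c ha hc) (key b d hb hd))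
    (F.mul_mem (key a d ha hd) (key b c hb hc))

end Pool.Agent.Helper273.Sup
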