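import Pool.Agent.Helper273.Sup.Defs



namespace Pool.Agent.Helper273.Sup
open IntermediateField


theorem cr_range {k K : Type*} [Field k] [Field K] [Algebra k K] {n : ℕ} (hn : 4 ≤ n)
    (y : Fin n → K) (i : Fin n) :
    cr (y i) (y ⟨2, by omega⟩) (y ⟨1, by omega⟩) (y ⟨0, by omega⟩) ∈
      adjoin k (Set.range (fun j : Fin (n - 3) =>
        cr (y ⟨(j : ℕ) + 3, by have := j.2; omega⟩) (y ⟨2, by omega⟩) (y ⟨1, by omega⟩)
          (y ⟨0, by omega⟩))) := by
  obtain ⟨i, hi⟩ := i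
  rcases Nat.lt_or_ge i 3 with h | h
  · have hmem : ∀ z : K, z = 0 ∨ z = 1 → z ∈ adjoin k (Set.range (fun j : Fin (n - 3) =>
        cr (y ⟨(j : ℕ) + 3, by have := j.2; omega⟩) (y ⟨2, by omega⟩) (y ⟨1, by omega⟩)
          (y ⟨0, by omega⟩))) := by
      rintro z (rfl | rfl)
      · exact zero_mem _
      · exact one_mem _
    apply hmem
    interval_cases i
    · left
      simp [cr]
    · left
      simp [cr]
    · unfold cr
      by_cases h0 : (y ⟨2, hi⟩ - y ⟨0, by omega⟩) * (y ⟨2, hi⟩ - y ⟨1, by omega⟩) = 0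
      · left
        rw [h0, div_zero]
      · right
        rw [mul_comm (y ⟨2, hi⟩ - y ⟨1, by omega⟩)]
        exact div_self h0
  · apply subset_adjoin
    refine ⟨⟨i - 3, by omega⟩, ?_⟩
    have : i - 3 + 3 = i := by omega
    simp only [this]

end Pool.Agent.Helper273.Sup
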