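import Pool.Agent.Helper273.Sup.Defs



namespace Pool.Agent.Helper273.Sup
open IntermediateField


theorem cr_rigid {k K : Type*} [Field k] [Field K] [Algebra k K] [CharZero k] {n : ℕ}
    (y : Fin n → K) (hy : AlgebraicIndependent k y) (a b c d a' b' c' d' : Fin n)
    (hab : a ≠ b) (hac : a ≠ c) (had : a ≠ d) (hbc : b ≠ c) (hbd : b ≠ d) (hcd : c ≠ d)
    (hab' : a' ≠ b') (hac' : a' ≠ c') (had' : a' ≠ d') (hbc' : b' ≠ c') (hbd' : b' ≠ d')
    (hcd' : c' ≠ d')
    (h : cr (y a') (y b') (y c') (y d') = cr (y a) (y b) (y c) (y d)) :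
    a' = a ∨ a' = b ∨ a' = c ∨ a' = d := by
  by_contra hcon
  push Not at hcon
  obtain ⟨h1, h2, h3, h4⟩ := hcon
  have hinj : Function.Injective y := hy.injective
  have sub_ne : ∀ {i j : Fin n}, i ≠ j → y i - y j ≠ 0 := fun {i j} hij h0 =>
    hij (hinj (sub_eq_zero.mp h0))
  unfold cr at h
  have hd1 : (y a' - y d') * (y b' - y c') ≠ 0 := mul_ne_zero (sub_ne had') (sub_ne hbc')
  have hd2 : (y a - y d) * (y b - y c) ≠ 0 := mul_ne_zero (sub_ne had) (sub_ne hbc)
  rw [div_eq_div_iff hd1 hd2] at h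
  let X : Fin n → MvPolynomial (Fin n) k := fun i => MvPolynomial.X i
  let p : MvPolynomial (Fin n) k :=
    (X a' - X c') * (X b' - X d') * ((X a - X d) * (X b - X c)) -
      (X a - X c) * (X b - X d) * ((X a' - X d') * (X b' - X c'))
  have hp0 : MvPolynomial.aeval y p = 0 := by
    simp only [p, X, map_sub, map_mul, MvPolynomial.aeval_X]
    rw [h]; ring
  have hp : p = 0 := (algebraicIndependent_iff.mp hy) p hp0
  let P : Fin n → k := fun i => if i = a' then ((c' : ℕ) : k) else ((i : ℕ) : k)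
  have hPa' : P a' = ((c' : ℕ) : k) := by simp [P]
  have hP : ∀ i, i ≠ a' → P i = ((i : ℕ) : k) := fun i hi => by simp [P, hi]
  have hev : MvPolynomial.eval P p = 0 := by rw [hp]; simp
  simp only [p, X, map_sub, map_mul, MvPolynomial.eval_X] at hev
  have e1 : P a' - P c' = 0 := by rw [hPa', hP c' hac'.symm]; ring
  rw [e1] at hev
  have cast_ne : ∀ {i j : Fin n}, i ≠ j → ((i : ℕ) : k) - ((j : ℕ) : k) ≠ 0 := by
    intro i j hij h0
    apply hij
    have : ((i : ℕ) : k) = ((j : ℕ) : k) := sub_eq_zero.mp h0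
    exact Fin.ext (Nat.cast_injective this)
  have f1 : P a - P c ≠ 0 := by rw [hP a (Ne.symm h1), hP c (Ne.symm h3)]; exact cast_ne hac
  have f2 : P b - P d ≠ 0 := by rw [hP b (Ne.symm h2), hP d (Ne.symm h4)]; exact cast_ne hbd
  have f3 : P a' - P d' ≠ 0 := by rw [hPa', hP d' had'.symm]; exact cast_ne hcd'
  have f4 : P b' - P c' ≠ 0 := by rw [hP b' hab'.symm, hP c' hac'.symm]; exact cast_ne hbc'
  have : (P a - P c) * (P b - P d) * ((P a' - P d') * (P b' - P c')) = 0 := by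
    linear_combination -hev
  exact (mul_ne_zero (mul_ne_zero f1 f2) (mul_ne_zero f3 f4)) this

end Pool.Agent.Helper273.Sup
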