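import Pool.Agent.Helper273.Sup.Defs



namespace Pool.Agent.Helper273.Sup
open IntermediateField


theorem perm_eq_one {n : ℕ} (hn : 5 ≤ n) (π : Equiv.Perm (Fin n))
    (h : ∀ a b c d : Fin n, a ≠ b → a ≠ c → a ≠ d → b ≠ c → b ≠ d → c ≠ d →
      π a = a ∨ π a = b ∨ π a = c ∨ π a = d) : π = 1 := by
  classical
  ext a
  rw [Equiv.Perm.one_apply]
  by_contra hne0
  have hne : π a ≠ a := fun h => hne0 (by rw [h])
  have hcard : 2 < ((Finset.univ \ {a, π a} : Finset (Fin n))).card := by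
    rw [Finset.card_sdiff_of_subset (Finset.subset_univ _), Finset.card_univ, Fintype.card_fin,
      Finset.card_pair (Ne.symm hne)]
    omega
  rw [Finset.two_lt_card] at hcard
  obtain ⟨b, hb, c, hc, d, hd, hbc, hbd, hcd⟩ := hcard
  simp only [Finset.mem_sdiff, Finset.mem_univ, Finset.mem_insert, Finset.mem_singleton, true_and,
    not_or] at hb hc hd
  rcases h a b c d (Ne.symm hb.1) (Ne.symm hc.1) (Ne.symm hd.1) hbc hbd hcd with h1 | h1 | h1 | h1
  · exact hne h1
  · exact hb.2 h1.symm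
  · exact hc.2 h1.symm
  · exact hd.2 h1.symm

end Pool.Agent.Helper273.Sup
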