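import Pool.Agent.Helper273.Sup.Defs
import Pool.Agent.Helper273.Sup.P_galois_mem
import Pool.Agent.Helper273.Sup.P_roots_indep
import Pool.Agent.Helper273.Sup.P_exists_hom
import Pool.Agent.Helper273.Sup.P_le_step
import Pool.Agent.Helper273.Sup.P_curve_trick
import Pool.Agent.Helper273.Sup.P_cr_mem
import Pool.Agent.Helper273.Sup.P_cr_range
import Pool.Agent.Helper273.Sup.P_cr_rigid
import Pool.Agent.Helper273.Sup.P_perm_eq_one



namespace Pool.Agent.Helper273.Sup
open IntermediateField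


theorem upper_cross_map {k K : Type*} [Field k] [Field K] [Algebra k K] (σ : K ≃ₐ[k] K)
    (a b c d : K) : σ (cr a b c d) = cr (σ a) (σ b) (σ c) (σ d) := by
  unfold cr
  rw [map_div₀, map_mul, map_mul, map_sub, map_sub, map_sub, map_sub]

theorem upper_cross_fix {k K : Type*} [Field k] [Field K] [Algebra k K] (σ : K ≃ₐ[k] K)
    (S : Set K) (h : ∀ s ∈ S, σ s = s) (f : K) (hf : f ∈ adjoin k S) : σ f = f := by
  induction hf using IntermediateField.adjoin_induction with
  | mem x hx => exact h x hx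
  | algebraMap c => exact σ.commutes c
  | add x y _ _ hx hy => rw [map_add, hx, hy]
  | inv x _ hx => rw [map_inv₀, hx]
  | mul x y _ _ hx hy => rw [map_mul, hx, hy]

theorem upper_cross {k K : Type*} [Field k] [Field K] [Algebra k K] [CharZero k]
    [IsAlgClosed K] {n : ℕ} (hn : 5 ≤ n) (x y : Fin n → K) (hx : Gen k x) (hy : IsRoots x y)
    (i : Fin n) : y i ∈ step (n - 3) (adjoin k (Set.range x)) := by
  have hyi : AlgebraicIndependent k y := roots_indep x y hx hy
  have yinj : Function.Injective y := hyi.injective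
  have hex := exists_hom x y hx hy
  have halg := hx.alg
  set M := adjoin k (Set.range x) with hM
  obtain ⟨ρ, hρ⟩ := hex
  let u : Fin (n - 3) → K := fun j =>
    cr (y ⟨(j : ℕ) + 3, by have := j.2; omega⟩) (y ⟨2, by omega⟩) (y ⟨1, by omega⟩)
      (y ⟨0, by omega⟩)
  have hF : ∀ i, cr (y i) (y ⟨2, by omega⟩) (y ⟨1, by omega⟩) (y ⟨0, by omega⟩) ∈
      adjoin k (Set.range u) := fun i => cr_range (by omega) y i
  have crF : ∀ a b c d : Fin n, a ≠ b → a ≠ c → a ≠ d → b ≠ c → b ≠ d → c ≠ d →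
      cr (y a) (y b) (y c) (y d) ∈ adjoin k (Set.range u) := fun a b c d hab hac had hbc hbd hcd =>
    cr_mem y yinj ⟨0, by omega⟩ ⟨1, by omega⟩ ⟨2, by omega⟩ (by simp) (by simp) (by simp) _ hF
      a b c d hab hac had hbc hbd hcd
  have hperm : ∀ σ : K ≃ₐ[k] K, (∀ b ∈ M, σ b = b) → ∃ π : Equiv.Perm (Fin n),
      ∀ i, σ (y i) = y (π i) := by
    intro σ hσ
    have hmem := (IntermediateField.mem_fixingSubgroup_iff M σ).mpr hσ
    exact ⟨ρ ⟨σ, hmem⟩, fun i => hρ ⟨σ, hmem⟩ i⟩
  have hu : ∀ j, u j ∈ step (n - 3) M := by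
    refine curve_trick M halg u ?_
    intro σ hσ j
    obtain ⟨π, hπ⟩ := hperm σ hσ
    show σ (cr _ _ _ _) ∈ _
    rw [upper_cross_map, hπ, hπ, hπ, hπ]
    refine crF _ _ _ _ ?_ ?_ ?_ ?_ ?_ ?_ <;>
    · rw [Ne, π.injective.eq_iff, Fin.ext_iff]
      simp
  have hmem : y i ∈ adjoin k ((M : Set K) ∪ Set.range u) := by
    refine galois_mem M halg (Set.range u) (y i) ?_
    intro σ hσ hσu
    obtain ⟨π, hπ⟩ := hperm σ hσ
    have hfix := upper_cross_fix σ (Set.range u) hσu
    have hπ1 : π = 1 := by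
      refine perm_eq_one hn π ?_
      intro a b c d hab hac had hbc hbd hcd
      refine cr_rigid y hyi a b c d (π a) (π b) (π c) (π d) hab hac had hbc hbd hcd
        (fun h => hab (π.injective h)) (fun h => hac (π.injective h))
        (fun h => had (π.injective h)) (fun h => hbc (π.injective h))
        (fun h => hbd (π.injective h)) (fun h => hcd (π.injective h)) ?_
      have h1 := hfix _ (crF a b c d hab hac had hbc hbd hcd)
      rw [upper_cross_map, hπ, hπ, hπ, hπ] at h1
      exact h1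
    rw [hπ i, hπ1]
    rfl
  refine (IntermediateField.adjoin_le_iff.mpr ?_) hmem
  rintro z (hz | ⟨j, rfl⟩)
  · exact le_step (n - 3) (by omega) M hz
  · exact hu j

end Pool.Agent.Helper273.Sup
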