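import Pool.Agent.Helper273.Sup.P_lower_bound
import Pool.Agent.Helper273.Sup.P_exists_roots
import Pool.Agent.Helper273.Sup.P_root_mem
import Pool.Agent.Helper273.Sup.P_upper_cross
import Pool.Agent.Helper273.Sup.P_not_mem_base
import Pool.Agent.Helper273.Sup.P_quad_mem_step
import Pool.Agent.Helper273.Sup.P_cubic_mem_step
import Pool.Agent.Helper273.Sup.P_quartic
import Pool.Agent.Helper273.Sup.P_quintic
import Pool.Agent.Helper273.Sup.P_step_mono
import Pool.Agent.Helper273.Sup.P_le_step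

namespace Pool.Agent.Helper273.Sup

open IntermediateField

theorem step_le_step {k K : Type*} [Field k] [Field K] [Algebra k K] (r : ℕ)
    (M M' : IntermediateField k K) (h : M ≤ M') : step r M ≤ step r M' := by
  unfold step
  refine adjoin.mono _ _ _ ?_
  rintro a ⟨t, ht, ha⟩
  exact ⟨t, fun i => h (ht i), ha⟩

theorem one_not {k K : Type*} [Field k] [Field K] [Algebra k K] [CharZero k] [IsAlgClosed K]
    {n : ℕ} (hn : 2 ≤ n) (x y : Fin n → K) (hx : Gen k x) (hy : IsRoots x y) (i : Fin n)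
    (r s : ℕ) (hs : 1 ≤ s) (h : y i ∈ tower k x r s) : 2 ≤ s := by
  by_contra h2
  have h3 : s = 1 := by omega
  subst h3
  exact not_mem_base hn x y hx hy i h

theorem main (k : Type*) [Field k] [IsAlgClosed k] [CharZero k] (K : Type*) [Field K]
    [Algebra k K] [IsAlgClosed K] (n : ℕ) (x : Fin n → K)
    (hx : AlgebraicIndependent k x) (hK : Algebra.IsAlgebraic (adjoin k (Set.range x)) K)
    (f : K) (hf : f ^ n + ∑ i : Fin n, x i * f ^ (n - 1 - (i : ℕ)) = 0) :
    (n = 1 → ∀ r, IsLeast {s | 1 ≤ s ∧ f ∈ tower k x r s} 1) ∧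
    ((n = 2 ∨ n = 3 ∨ n = 4) → ∀ r, 1 ≤ r → IsLeast {s | 1 ≤ s ∧ f ∈ tower k x r s} 2) ∧
    (n = 5 → IsLeast {s | 1 ≤ s ∧ f ∈ tower k x 1 s} 3 ∧
      ∀ r, 2 ≤ r → IsLeast {s | 1 ≤ s ∧ f ∈ tower k x r s} 2) ∧
    (5 ≤ n → (∀ r, n - 3 ≤ r → IsLeast {s | 1 ≤ s ∧ f ∈ tower k x r s} 2) ∧
      ∀ r, r < n / 2 → ∀ s, 1 ≤ s → f ∈ tower k x r s → 3 ≤ s) := by
  have hg : Gen k x := ⟨hx, hK⟩
  obtain ⟨y, hy⟩ := exists_roots x
  obtain ⟨i0, hi0⟩ := root_mem x y hy f hf
  have two : ∀ r, tower k x r 2 = step r (adjoin k (Set.range x)) := fun r => rfl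
  have three : ∀ r, tower k x r 3 = step r (step r (adjoin k (Set.range x))) := fun r => rfl
  have low : 5 ≤ n → ∀ r, f ∈ tower k x r 2 → n / 2 ≤ r := by
    intro hn r h
    rw [two, hi0] at h
    exact lower_bound hn x y hg hy r i0 h
  have up : 5 ≤ n → ∀ r, n - 3 ≤ r → f ∈ tower k x r 2 := by
    intro hn r hr
    rw [two, hi0]
    exact step_mono _ _ hr _ (upper_cross hn x y hg hy i0)
  have least2 : 2 ≤ n → ∀ r, f ∈ tower k x r 2 →
      IsLeast {s | 1 ≤ s ∧ f ∈ tower k x r s} 2 := by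
    intro hn r h
    refine ⟨⟨by norm_num, h⟩, ?_⟩
    rintro s ⟨hs, hs'⟩
    rw [hi0] at hs'
    exact one_not hn x y hg hy i0 r s hs hs'
  have low3 : 5 ≤ n → ∀ r, r < n / 2 → ∀ s, 1 ≤ s → f ∈ tower k x r s → 3 ≤ s := by
    intro hn r hr s hs h
    have h2 : 2 ≤ s := by
      rw [hi0] at h
      exact one_not (by omega) x y hg hy i0 r s hs h
    by_contra h3
    have h4 : s = 2 := by omega
    subst h4
    have := low hn r h
    omega
  refine ⟨?_, ?_, ?_, ?_⟩
  · rintro rfl r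
    refine ⟨⟨le_rfl, ?_⟩, fun s hs => hs.1⟩
    have h1 : f = - x 0 := by
      simp at hf
      linear_combination hf
    rw [h1]
    change - x 0 ∈ adjoin k (Set.range x)
    exact neg_mem (subset_adjoin _ _ ⟨0, rfl⟩)
  · intro hn r hr
    have hn2 : 2 ≤ n := by omega
    refine least2 hn2 r ?_
    rw [two]
    refine step_mono 1 r hr _ ?_
    rcases hn with rfl | rfl | rfl
    · refine quad_mem_step _ (x 0) (x 1) f (subset_adjoin _ _ ⟨0, rfl⟩)
        (subset_adjoin _ _ ⟨1, rfl⟩) ?_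
      simp [Fin.sum_univ_two] at hf
      linear_combination hf
    · refine cubic_mem_step _ (x 0) (x 1) (x 2) f (subset_adjoin _ _ ⟨0, rfl⟩)
        (subset_adjoin _ _ ⟨1, rfl⟩) (subset_adjoin _ _ ⟨2, rfl⟩) ?_
      simp [Fin.sum_univ_three] at hf
      linear_combination hf
    · rw [hi0]
      exact quartic x y hg hy i0
  · rintro rfl
    refine ⟨⟨⟨by norm_num, ?_⟩, ?_⟩, ?_⟩
    · rw [three, hi0]
      exact quintic x y hg hy i0
    · rintro s ⟨hs, hs'⟩
      exact low3 le_rfl 1 (by norm_num) s hs hs'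
    · intro r hr
      exact least2 (by norm_num) r (up le_rfl r (by omega))
  · intro hn
    exact ⟨fun r hr => least2 (by omega) r (up hn r hr), low3 hn⟩

end Pool.Agent.Helper273.Sup
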