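import Pool.Agent.Helper273.Sup.Defs



namespace Pool.Agent.Helper273.Sup
open IntermediateField


theorem alt_le_map {Γ : Type*} [Group Γ] {n : ℕ} (hn : 5 ≤ n) (ρ : Γ →* Equiv.Perm (Fin n))
    (hρ : Function.Surjective ρ) (N N' : Subgroup Γ) (hN : N.Normal) (hN' : N'.Normal)
    (h : alternatingGroup (Fin n) ≤ N.map ρ) (h' : alternatingGroup (Fin n) ≤ N'.map ρ) :
    alternatingGroup (Fin n) ≤ (N ⊓ N').map ρ := by
  have h5 : 5 ≤ Nat.card (Fin n) := by simpa using hn
  have h1 : ⁅alternatingGroup (Fin n), alternatingGroup (Fin n)⁆ = alternatingGroup (Fin n) :=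
    commutator_alternatingGroup_eq_self h5
  calc alternatingGroup (Fin n) = ⁅alternatingGroup (Fin n), alternatingGroup (Fin n)⁆ := h1.symm
    _ ≤ ⁅N.map ρ, N'.map ρ⁆ := Subgroup.commutator_mono h h'
    _ = (⁅N, N'⁆).map ρ := (Subgroup.map_commutator N N' ρ).symm
    _ ≤ (N ⊓ N').map ρ := Subgroup.map_mono (Subgroup.commutator_le_inf N N')

end Pool.Agent.Helper273.Sup
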