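import Pool.Agent.Helper273.Sup.Defs



namespace Pool.Agent.Helper273.Sup
open IntermediateField


theorem artin_restr {k K : Type*} [Field k] [Field K] [Algebra k K] (O : Finset K) (e : K ≃ₐ[k] K)
    (he : ∀ o ∈ O, e o ∈ O) :
    ∃ τ : adjoin k (O : Set K) ≃ₐ[k] adjoin k (O : Set K), ∀ a, (τ a : K) = e a := by
  classical
  have h1 : O.image e = O := Finset.eq_of_subset_of_card_le
    (by intro x hx; obtain ⟨o, ho, rfl⟩ := Finset.mem_image.1 hx; exact he o ho)
    (by rw [Finset.card_image_of_injective _ e.injective])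
  have h2 : (adjoin k (O : Set K)).map e.toAlgHom = adjoin k (O : Set K) := by
    rw [adjoin_map]
    congr 1
    have := congrArg (fun s : Finset K => (s : Set K)) h1
    simpa using this
  exact ⟨(intermediateFieldMap e _).trans (equivOfEq h2), fun a => rfl⟩

theorem artin {k K : Type*} [Field k] [Field K] [Algebra k K] (G : Subgroup (K ≃ₐ[k] K))
    (O : Finset K) (hO : ∀ g ∈ G, ∀ o ∈ O, g o ∈ O) (σ : K ≃ₐ[k] K) (hσ : ∀ o ∈ O, σ o ∈ O)
    (h : ∀ a ∈ adjoin k (O : Set K), (∀ g ∈ G, g a = a) → σ a = a) :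
    ∃ g ∈ G, ∀ o ∈ O, σ o = g o := by
  classical
  have huniq : ∀ (e e' : K ≃ₐ[k] K), (∀ o ∈ O, e o = e' o) → ∀ a ∈ adjoin k (O : Set K), e a = e' a := by
    intro e e' hee a ha
    induction ha using adjoin_induction with
    | mem x hx => exact hee x hx
    | algebraMap x => rw [e.commutes, e'.commutes]
    | add x y _ _ hx hy => rw [map_add, map_add, hx, hy]
    | inv x _ hx => rw [map_inv₀, map_inv₀, hx]
    | mul x y _ _ hx hy => rw [map_mul, map_mul, hx, hy]
  let H : Subgroup (adjoin k (O : Set K) ≃ₐ[k] adjoin k (O : Set K)) :=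
    { carrier := {τ | ∃ g ∈ G, ∀ a, (τ a : K) = g a}
      mul_mem' := by
        rintro τ1 τ2 ⟨g1, h1, e1⟩ ⟨g2, h2, e2⟩
        refine ⟨g1 * g2, G.mul_mem h1 h2, fun a => ?_⟩
        rw [AlgEquiv.mul_apply, AlgEquiv.mul_apply, e1, e2]
      one_mem' := ⟨1, G.one_mem, fun a => rfl⟩
      inv_mem' := by
        rintro τ ⟨g, hg, e⟩
        refine ⟨g⁻¹, G.inv_mem hg, fun a => ?_⟩
        have h1 := e (τ⁻¹ a)
        have h2 : τ (τ⁻¹ a) = a := τ.apply_symm_apply a
        rw [h2] at h1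
        have h3 : g⁻¹ (g ((τ⁻¹ a : adjoin k (O : Set K)) : K)) = (τ⁻¹ a : adjoin k (O : Set K)) :=
          g.symm_apply_apply _
        rw [← h3, ← h1] }
  have hmem : ∀ (τ : H) (o : O), ((τ.1 ⟨o.1, subset_adjoin k _ o.2⟩ : adjoin k (O : Set K)) : K) ∈ O := by
    rintro ⟨τ, g, hg, e⟩ o
    show ((τ ⟨o.1, subset_adjoin k _ o.2⟩ : adjoin k (O : Set K)) : K) ∈ O
    rw [e]
    exact hO g hg _ o.2
  have hfin : Finite H := by
    apply Finite.of_injective (fun (τ : H) (o : O) => (⟨_, hmem τ o⟩ : O))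
    rintro ⟨τ1, g1, h1, e1⟩ ⟨τ2, g2, h2, e2⟩ heq
    apply Subtype.ext
    apply AlgEquiv.ext
    intro a
    apply Subtype.ext
    show ((τ1 a : adjoin k (O : Set K)) : K) = τ2 a
    rw [e1, e2]
    apply huniq g1 g2 _ _ a.2
    intro o ho
    have h3 := congrArg (fun f : O → O => ((f ⟨o, ho⟩ : O) : K)) heq
    simp only at h3
    rw [e1, e2] at h3
    exact h3
  obtain ⟨s, hs⟩ := artin_restr (k := k) O σ hσ
  let s' : adjoin k (O : Set K) →ₐ[FixedPoints.subfield H (adjoin k (O : Set K))] adjoin k (O : Set K) :=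
    { s.toRingEquiv.toRingHom with
      commutes' := by
        intro r
        apply Subtype.ext
        show ((s (r : adjoin k (O : Set K)) : adjoin k (O : Set K)) : K) = (r : adjoin k (O : Set K))
        rw [hs]
        apply h _ (r : adjoin k (O : Set K)).2
        intro g hg
        obtain ⟨τ, hτ⟩ := artin_restr (k := k) O g (hO g hg)
        have h1 := r.2 (⟨τ, g, hg, hτ⟩ : H)
        have h2 : τ (r : adjoin k (O : Set K)) = (r : adjoin k (O : Set K)) := h1
        rw [← hτ, h2] }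
  obtain ⟨η, hη⟩ := (FixedPoints.toAlgHom_bijective H (adjoin k (O : Set K))).2 s'
  obtain ⟨τ, g, hg, e⟩ := η
  refine ⟨g, hg, fun o ho => ?_⟩
  have h1 := DFunLike.congr_fun hη (⟨o, subset_adjoin k _ ho⟩ : adjoin k (O : Set K))
  have h2 : τ (⟨o, subset_adjoin k _ ho⟩ : adjoin k (O : Set K)) = s ⟨o, subset_adjoin k _ ho⟩ := h1
  have h3 := hs ⟨o, subset_adjoin k _ ho⟩
  rw [← h2, e] at h3
  exact h3.symm

end Pool.Agent.Helper273.Sup
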