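import Pool.Agent.Helper273.Sup.Defs



namespace Pool.Agent.Helper273.Sup
open IntermediateField


/-- change of coordinates -/
def coords_uf {R : Type*} [Ring R] {n : ℕ} (y : Fin n → R) : Fin n → R := fun l =>
  if (l : ℕ) % 2 = 1 then y ⟨(l : ℕ) - 1, by have := l.2; omega⟩ - y l
  else if h : (l : ℕ) + 1 < n then y l + y ⟨(l : ℕ) + 1, h⟩ else y l

/-- inverse change of coordinates -/
def coords_vf {R : Type*} [Ring R] {n : ℕ} (c : R) (y : Fin n → R) : Fin n → R := fun l =>
  if (l : ℕ) % 2 = 1 then c * (y ⟨(l : ℕ) - 1, by have := l.2; omega⟩ - y l)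
  else if h : (l : ℕ) + 1 < n then c * (y l + y ⟨(l : ℕ) + 1, h⟩) else y l

theorem coords_vf_uf {R : Type*} [CommRing R] {n : ℕ} (c : R) (hc : c * 2 = 1) (y : Fin n → R)
    (l : Fin n) : coords_vf c (coords_uf y) l = y l := by
  obtain ⟨l, hl⟩ := l
  unfold coords_vf
  by_cases h1 : l % 2 = 1
  · have h2 : ¬ (l - 1) % 2 = 1 := by omega
    have h3 : l - 1 + 1 < n := by omega
    have h4 : l - 1 + 1 = l := by omega
    simp only [h1, if_true, coords_uf, h2, if_false, h4, hl, dif_pos]
    linear_combination (y ⟨l, hl⟩) * hc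
  · by_cases h2 : l + 1 < n
    · have h3 : (l + 1) % 2 = 1 := by omega
      simp only [h1, if_false, coords_uf, h3, if_true, h2, dif_pos, Nat.add_sub_cancel]
      linear_combination (y ⟨l, hl⟩) * hc
    · simp only [h1, if_false, coords_uf, h2, dif_neg, not_false_eq_true]

theorem coords_uf_vf {R : Type*} [CommRing R] {n : ℕ} (c : R) (hc : c * 2 = 1) (y : Fin n → R)
    (l : Fin n) : coords_uf (coords_vf c y) l = y l := by
  obtain ⟨l, hl⟩ := l
  unfold coords_uf
  by_cases h1 : l % 2 = 1
  · have h2 : ¬ (l - 1) % 2 = 1 := by omega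
    have h3 : l - 1 + 1 < n := by omega
    have h4 : l - 1 + 1 = l := by omega
    simp only [h1, if_true, coords_vf, h2, if_false, h4, hl, dif_pos]
    linear_combination (y ⟨l, hl⟩) * hc
  · by_cases h2 : l + 1 < n
    · have h3 : (l + 1) % 2 = 1 := by omega
      simp only [h1, if_false, coords_vf, h3, if_true, h2, dif_pos, Nat.add_sub_cancel]
      linear_combination (y ⟨l, hl⟩) * hc
    · simp only [h1, if_false, coords_vf, h2, dif_neg, not_false_eq_true]

theorem coords_map_uf {R S : Type*} [Ring R] [Ring S] {n : ℕ} (φ : R →+* S) (y : Fin n → R)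
    (l : Fin n) : φ (coords_uf y l) = coords_uf (fun i => φ (y i)) l := by
  unfold coords_uf
  split_ifs <;> simp

theorem coords_uf_indep {k K : Type*} [Field k] [Field K] [Algebra k K] [CharZero k] {n : ℕ}
    (y : Fin n → K) (hy : AlgebraicIndependent k y) : AlgebraicIndependent k (coords_uf y) := by
  unfold AlgebraicIndependent at *
  have h1 : MvPolynomial.aeval (R := k) (coords_uf y) =
      (MvPolynomial.aeval (R := k) y).comp
        (MvPolynomial.aeval (R := k) (coords_uf (MvPolynomial.X (R := k) (σ := Fin n)))) := by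
    apply MvPolynomial.algHom_ext
    intro l
    rw [MvPolynomial.aeval_X, AlgHom.comp_apply, MvPolynomial.aeval_X]
    have := coords_map_uf (MvPolynomial.aeval (R := k) y).toRingHom
      (MvPolynomial.X (R := k) (σ := Fin n)) l
    simp only [AlgHom.toRingHom_eq_coe, RingHom.coe_coe, MvPolynomial.aeval_X] at this
    rw [this]
  rw [h1, AlgHom.coe_comp]
  refine hy.comp ?_
  set c : MvPolynomial (Fin n) k := MvPolynomial.C (2⁻¹ : k) with hcdef
  have hc : c * 2 = 1 := by
    have h2 : (2 : MvPolynomial (Fin n) k) = MvPolynomial.C (2 : k) := by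
      rw [map_ofNat]
    rw [hcdef, h2, ← MvPolynomial.C_mul, inv_mul_cancel₀ (by norm_num), MvPolynomial.C_1]
  have h3 : (MvPolynomial.aeval (R := k) (coords_vf c (MvPolynomial.X (R := k) (σ := Fin n)))).comp
      (MvPolynomial.aeval (R := k) (coords_uf (MvPolynomial.X (R := k) (σ := Fin n)))) =
        AlgHom.id k _ := by
    apply MvPolynomial.algHom_ext
    intro l
    rw [AlgHom.comp_apply, MvPolynomial.aeval_X]
    have := coords_map_uf (MvPolynomial.aeval (R := k)
      (coords_vf c (MvPolynomial.X (R := k) (σ := Fin n)))).toRingHom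
      (MvPolynomial.X (R := k) (σ := Fin n)) l
    simp only [AlgHom.toRingHom_eq_coe, RingHom.coe_coe, MvPolynomial.aeval_X] at this
    rw [this]
    exact coords_uf_vf c hc _ l
  apply Function.LeftInverse.injective
    (g := MvPolynomial.aeval (R := k) (coords_vf c (MvPolynomial.X (R := k) (σ := Fin n))))
  intro p
  have := congrArg (fun f => f p) h3
  simpa using this

theorem coords_uf_mem {k K : Type*} [Field k] [Field K] [Algebra k K] {n : ℕ}
    (y : Fin n → K) (F : IntermediateField k K) (hy : ∀ i, y i ∈ F) (l : Fin n) :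
    coords_uf y l ∈ F := by
  unfold coords_uf
  split_ifs
  · exact F.sub_mem (hy _) (hy _)
  · exact F.add_mem (hy _) (hy _)
  · exact hy _

theorem coords_vf_mem {k K : Type*} [Field k] [Field K] [Algebra k K] {n : ℕ}
    (c : K) (y : Fin n → K) (F : IntermediateField k K) (hc : c ∈ F) (hy : ∀ i, y i ∈ F)
    (l : Fin n) : coords_vf c y l ∈ F := by
  unfold coords_vf
  split_ifs
  · exact F.mul_mem hc (F.sub_mem (hy _) (hy _))
  · exact F.mul_mem hc (F.add_mem (hy _) (hy _))
  · exact hy _

theorem coords {k K : Type*} [Field k] [Field K] [Algebra k K] [CharZero k] {n : ℕ}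
    (y : Fin n → K) (hy : AlgebraicIndependent k y) :
    ∃ u : Fin n → K, AlgebraicIndependent k u ∧
      adjoin k (Set.range u) = adjoin k (Set.range y) ∧
      ∀ (i : Fin (n / 2)) (σ : K ≃ₐ[k] K),
        (∀ l, σ (y l) = y (Equiv.swap (⟨2 * (i : ℕ), by have := i.2; omega⟩ : Fin n)
          ⟨2 * (i : ℕ) + 1, by have := i.2; omega⟩ l)) →
        ∀ l, σ (u l) = if l = ⟨2 * (i : ℕ) + 1, by have := i.2; omega⟩ then - u l else u l := by
  refine ⟨coords_uf y, coords_uf_indep y hy, ?_, ?_⟩
  · have h2K : (2 : K) ≠ 0 := by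
      have : (2 : K) = algebraMap k K 2 := by rw [map_ofNat]
      rw [this]
      intro h
      have h' : (2 : k) = 0 := (algebraMap k K).injective (by rw [h, map_zero])
      exact two_ne_zero h'
    apply le_antisymm
    · rw [adjoin_le_iff]
      rintro _ ⟨l, rfl⟩
      exact coords_uf_mem y _ (fun i => subset_adjoin k _ (Set.mem_range_self i)) l
    · rw [adjoin_le_iff]
      rintro _ ⟨l, rfl⟩
      rw [← coords_vf_uf (2⁻¹ : K) (inv_mul_cancel₀ h2K) y l]
      refine coords_vf_mem _ _ _ ?_ (fun i => subset_adjoin k _ (Set.mem_range_self i)) l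
      apply IntermediateField.inv_mem
      exact ofNat_mem _ 2
  · rintro ⟨i, hi⟩ σ hσ ⟨l, hl⟩
    have e := fun (m : ℕ) (hm : m < n) => hσ ⟨m, hm⟩
    have hm := coords_map_uf (σ : K →+* K) y ⟨l, hl⟩
    simp only [RingHom.coe_coe] at hm
    have hm' : σ (coords_uf y ⟨l, hl⟩) = coords_uf (fun i => σ (y i)) ⟨l, hl⟩ := by
      simpa using hm
    rw [hm']
    have hn1 : 2 * i < n := by omega
    have hn2 : 2 * i + 1 < n := by omega
    have eswap1 : σ (y ⟨2 * i, hn1⟩) = y ⟨2 * i + 1, hn2⟩ := by
      rw [hσ, Equiv.swap_apply_left]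
    have eswap2 : σ (y ⟨2 * i + 1, hn2⟩) = y ⟨2 * i, hn1⟩ := by
      rw [hσ, Equiv.swap_apply_right]
    have eoth : ∀ (m : ℕ) (hm : m < n), m ≠ 2 * i → m ≠ 2 * i + 1 →
        σ (y ⟨m, hm⟩) = y ⟨m, hm⟩ := by
      intro m hm h1 h2
      rw [hσ, Equiv.swap_apply_of_ne_of_ne]
      · intro h; exact h1 (congrArg Fin.val h)
      · intro h; exact h2 (congrArg Fin.val h)
    by_cases h1 : l = 2 * i + 1
    · subst h1
      have hodd : (2 * i + 1) % 2 = 1 := by omega
      simp only [if_true, coords_uf, hodd, Nat.add_sub_cancel, eswap1, eswap2]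
      ring
    · have h1' : ¬ ((⟨l, hl⟩ : Fin n) = ⟨2 * i + 1, hn2⟩) := by
        intro h; exact h1 (congrArg Fin.val h)
      rw [if_neg h1']
      unfold coords_uf
      by_cases h2 : l % 2 = 1
      · simp only [h2, if_true]
        rw [eoth (l - 1) (by omega) (by omega) (by omega), eoth l hl (by omega) h1]
      · by_cases h3 : l + 1 < n
        · simp only [h2, if_false, h3, dif_pos]
          by_cases h4 : l = 2 * i
          · subst h4
            rw [eswap1, eswap2, add_comm]
          · rw [eoth l hl h4 h1, eoth (l + 1) h3 (by omega) (by omega)]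
        · simp only [h2, if_false, h3, dif_neg, not_false_eq_true]
          rw [eoth l hl (by omega) h1]

end Pool.Agent.Helper273.Sup
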