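import Pool.Agent.Helper273.Sup.Defs



namespace Pool.Agent.Helper273.Sup
open IntermediateField


/-- the commuting product of the transpositions indexed by `s` -/
def eigP {n : ℕ} (s : Finset (Fin (n / 2))) (l : Fin n) : Fin n :=
  if h : ∃ i ∈ s, (i : ℕ) = (l : ℕ) / 2 then
    ⟨2 * ((l : ℕ) / 2) + (1 - (l : ℕ) % 2), by
      obtain ⟨i, _, hi⟩ := h
      have := i.2
      omega⟩
  else l

theorem eigP_swap {n : ℕ} (s : Finset (Fin (n / 2))) (i : Fin (n / 2)) (l : Fin n) :
    Equiv.swap (⟨2 * (i : ℕ), by have := i.2; omega⟩ : Fin n)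
      ⟨2 * (i : ℕ) + 1, by have := i.2; omega⟩ (eigP s l) = eigP (symmDiff s {i}) l := by
  have hi2 := i.2
  have hval : ∀ (t : Finset (Fin (n / 2))), ((eigP t l : Fin n) : ℕ) =
      if (∃ i ∈ t, (i : ℕ) = (l : ℕ) / 2) then 2 * ((l : ℕ) / 2) + (1 - (l : ℕ) % 2) else (l : ℕ) := by
    intro t
    unfold eigP
    split_ifs <;> rfl
  have hsw : ∀ x : Fin n, ((Equiv.swap (⟨2 * (i : ℕ), by omega⟩ : Fin n)
      ⟨2 * (i : ℕ) + 1, by omega⟩ x : Fin n) : ℕ) =
      if (x : ℕ) = 2 * (i : ℕ) then 2 * (i : ℕ) + 1 else if (x : ℕ) = 2 * (i : ℕ) + 1 then 2 * (i : ℕ)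
        else (x : ℕ) := by
    intro x
    rw [Equiv.swap_apply_def]
    simp only [Fin.ext_iff]
    split_ifs <;> rfl
  apply Fin.ext
  rw [hsw, hval, hval]
  by_cases hl : (i : ℕ) = (l : ℕ) / 2
  · by_cases his : i ∈ s
    · have h1 : ∃ i ∈ s, (i : ℕ) = (l : ℕ) / 2 := ⟨i, his, hl⟩
      have h2 : ¬ ∃ i' ∈ symmDiff s {i}, (i' : ℕ) = (l : ℕ) / 2 := by
        rintro ⟨i', hi', hi''⟩
        have : i' = i := Fin.ext (by omega)
        subst this
        rw [Finset.mem_symmDiff] at hi'
        simp [his] at hi'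
      rw [if_pos h1, if_neg h2]
      split_ifs <;> omega
    · have h1 : ¬ ∃ i ∈ s, (i : ℕ) = (l : ℕ) / 2 := by
        rintro ⟨i', hi', hi''⟩
        have : i' = i := Fin.ext (by omega)
        subst this
        exact his hi'
      have h2 : ∃ i' ∈ symmDiff s {i}, (i' : ℕ) = (l : ℕ) / 2 := by
        refine ⟨i, ?_, hl⟩
        rw [Finset.mem_symmDiff]
        simp [his]
      rw [if_neg h1, if_pos h2]
      split_ifs <;> omega
  · have h3 : (∃ i ∈ s, (i : ℕ) = (l : ℕ) / 2) ↔ (∃ i' ∈ symmDiff s {i}, (i' : ℕ) = (l : ℕ) / 2) := by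
      constructor
      · rintro ⟨i', hi', hi''⟩
        refine ⟨i', ?_, hi''⟩
        rw [Finset.mem_symmDiff]
        left
        refine ⟨hi', ?_⟩
        rw [Finset.mem_singleton]
        rintro rfl
        exact hl hi''
      · rintro ⟨i', hi', hi''⟩
        refine ⟨i', ?_, hi''⟩
        rw [Finset.mem_symmDiff] at hi'
        rcases hi' with ⟨h, _⟩ | ⟨h, _⟩
        · exact h
        · rw [Finset.mem_singleton] at h
          subst h
          exact absurd hi'' hl
    simp only [h3]
    split_ifs <;> omega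

theorem eigP_inj {n : ℕ} (s t : Finset (Fin (n / 2))) (h : ∀ l, eigP s l = eigP t l) : s = t := by
  ext i
  have hi2 := i.2
  have h1 := h ⟨2 * (i : ℕ), by omega⟩
  have hval : ∀ (t : Finset (Fin (n / 2))), ((eigP t (⟨2 * (i : ℕ), by omega⟩ : Fin n) : Fin n) : ℕ) =
      if i ∈ t then 2 * (i : ℕ) + 1 else 2 * (i : ℕ) := by
    intro t
    have h2 : (∃ i' ∈ t, (i' : ℕ) = ((⟨2 * (i : ℕ), by omega⟩ : Fin n) : ℕ) / 2) ↔ i ∈ t := by
      constructor
      · rintro ⟨i', hi', hi''⟩
        have : i' = i := Fin.ext (by rw [hi'']; simp)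
        rwa [this] at hi'
      · intro hi
        exact ⟨i, hi, by simp⟩
    unfold eigP
    by_cases hi : i ∈ t
    · rw [dif_pos (h2.mpr hi), if_pos hi]
      simp
    · rw [dif_neg (fun h => hi (h2.mp h)), if_neg hi]
  have h3 := congrArg Fin.val h1
  rw [hval, hval] at h3
  by_cases h4 : i ∈ s <;> by_cases h5 : i ∈ t <;> simp [h4, h5] at h3 ⊢

theorem eig_tau {k K : Type*} [Field k] [Field K] [Algebra k K] {n : ℕ}
    (y : Fin n → K) (F : IntermediateField k K) (σ : Fin (n / 2) → (K ≃ₐ[k] K))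
    (hσ : ∀ i l, σ i (y l) = y (Equiv.swap (⟨2 * (i : ℕ), by have := i.2; omega⟩ : Fin n)
          ⟨2 * (i : ℕ) + 1, by have := i.2; omega⟩ l))
    (hstab : ∀ i, ∀ a ∈ F, σ i a ∈ F) (s : Finset (Fin (n / 2))) :
    ∃ τ ∈ Subgroup.closure (Set.range σ), (∀ l, τ (y l) = y (eigP s l)) ∧ ∀ a ∈ F, τ a ∈ F := by
  induction s using Finset.induction_on with
  | empty =>
    refine ⟨1, Subgroup.one_mem _, fun l => ?_, fun a ha => ha⟩
    have : eigP (∅ : Finset (Fin (n / 2))) l = l := by
      unfold eigP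
      simp
    rw [this]
    rfl
  | insert i s hi ih =>
    obtain ⟨τ, hτ, h1, h2⟩ := ih
    refine ⟨σ i * τ, Subgroup.mul_mem _ (Subgroup.subset_closure ⟨i, rfl⟩) hτ, fun l => ?_,
      fun a ha => hstab i _ (h2 a ha)⟩
    have h3 : symmDiff s {i} = insert i s := by
      ext a
      rw [Finset.mem_symmDiff, Finset.mem_singleton, Finset.mem_insert]
      by_cases ha : a = i
      · subst ha
        simp [hi]
      · simp [ha]
    rw [← h3, ← eigP_swap, AlgEquiv.mul_apply, h1, hσ]

theorem eigen {k K : Type*} [Field k] [Field K] [Algebra k K] [CharZero k] {n : ℕ}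
    (y : Fin n → K) (hy : Function.Injective y) (F : IntermediateField k K)
    (hF : F ≤ adjoin k (Set.range y)) (σ : Fin (n / 2) → (K ≃ₐ[k] K))
    (hσ : ∀ i l, σ i (y l) = y (Equiv.swap (⟨2 * (i : ℕ), by have := i.2; omega⟩ : Fin n)
          ⟨2 * (i : ℕ) + 1, by have := i.2; omega⟩ l))
    (hstab : ∀ i, ∀ a ∈ F, σ i a ∈ F)
    (hfaith : ∀ τ ∈ Subgroup.closure (Set.range σ), (∀ a ∈ F, τ a = a) → ∀ l, τ (y l) = y l) :
    ∃ g : Fin (n / 2) → K, (∀ j, g j ∈ F ∧ g j ≠ 0) ∧
      ∀ i j, σ i (g j) = if i = j then - g j else g j := by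
  classical
  choose τ hτc hτy hτF using eig_tau y F σ hσ hstab
  -- agreement on the field generated by the roots
  have hagree : ∀ (i : Fin (n / 2)) (s : Finset (Fin (n / 2))), ∀ a ∈ F,
      σ i (τ s a) = τ (symmDiff s {i}) a := by
    intro i s a ha
    have h1 : ∀ a ∈ adjoin k (Set.range y), (σ i * τ s) a = τ (symmDiff s {i}) a := by
      intro a ha
      induction ha using IntermediateField.adjoin_induction with
      | mem x hx =>
        obtain ⟨l, rfl⟩ := hx
        rw [AlgEquiv.mul_apply, hτy, hσ, eigP_swap, hτy]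
      | algebraMap x => rw [AlgEquiv.commutes, AlgEquiv.commutes]
      | add x y _ _ hx hy => rw [map_add, map_add, hx, hy]
      | inv x _ hx => rw [map_inv₀, map_inv₀, hx]
      | mul x y _ _ hx hy => rw [map_mul, map_mul, hx, hy]
    exact h1 a (hF ha)
  let φ : Finset (Fin (n / 2)) → (F →* K) := fun s =>
    ((τ s : K →ₐ[k] K) : K →* K).comp ((F.val : F →ₐ[k] K) : F →* K)
  have hφ : ∀ s (a : F), φ s a = τ s (a : K) := fun s a => rfl
  have hinj : Function.Injective φ := by
    intro s t hst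
    apply eigP_inj
    intro l
    apply hy
    rw [← hτy, ← hτy]
    have h1 : ((τ t)⁻¹ * τ s) ∈ Subgroup.closure (Set.range σ) :=
      Subgroup.mul_mem _ (Subgroup.inv_mem _ (hτc t)) (hτc s)
    have h2 := hfaith _ h1 (fun a ha => by
      have h3 : τ s a = τ t a := by
        have := DFunLike.congr_fun hst (⟨a, ha⟩ : F)
        exact this
      rw [AlgEquiv.mul_apply, h3]
      exact (τ t).symm_apply_apply a) l
    rw [AlgEquiv.mul_apply] at h2
    have h4 := congrArg (τ t) h2
    rw [← AlgEquiv.mul_apply (τ t), mul_inv_cancel] at h4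
    exact h4
  have hli : LinearIndependent K (fun s : Finset (Fin (n / 2)) => (φ s : F → K)) :=
    (linearIndependent_monoidHom F K).comp φ hinj
  rw [Fintype.linearIndependent_iff] at hli
  have hex : ∀ j : Fin (n / 2), ∃ h : F,
      ∑ s : Finset (Fin (n / 2)), (if j ∈ s then (-1 : K) else 1) * τ s (h : K) ≠ 0 := by
    intro j
    by_contra hcon
    push Not at hcon
    have h1 := hli (fun s => if j ∈ s then (-1 : K) else 1) (by
      funext a
      rw [Finset.sum_apply]
      simp only [Pi.smul_apply, smul_eq_mul, Pi.zero_apply]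
      exact hcon a) ∅
    simp at h1
  choose h hh using hex
  refine ⟨fun j => ∑ s : Finset (Fin (n / 2)), (if j ∈ s then (-1 : K) else 1) * τ s (h j : K),
    fun j => ⟨?_, hh j⟩, ?_⟩
  · apply F.sum_mem
    intro s _
    apply F.mul_mem _ (hτF s _ (h j).2)
    split_ifs
    · exact F.neg_mem F.one_mem
    · exact F.one_mem
  · intro i j
    have e1 : σ i (∑ s : Finset (Fin (n / 2)), (if j ∈ s then (-1 : K) else 1) * τ s (h j : K)) =
        ∑ s : Finset (Fin (n / 2)), (if j ∈ s then (-1 : K) else 1) * τ (symmDiff s {i}) (h j : K) := by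
      rw [map_sum]
      apply Finset.sum_congr rfl
      intro s _
      rw [map_mul, hagree i s _ (h j).2]
      congr 1
      split_ifs <;> simp
    have e2 : ∑ s : Finset (Fin (n / 2)), (if j ∈ s then (-1 : K) else 1) * τ (symmDiff s {i}) (h j : K) =
        ∑ s : Finset (Fin (n / 2)), (if j ∈ symmDiff s {i} then (-1 : K) else 1) * τ s (h j : K) := by
      apply Finset.sum_nbij' (fun s => symmDiff s {i}) (fun s => symmDiff s {i})
      · intro s _; exact Finset.mem_univ _
      · intro s _; exact Finset.mem_univ _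
      · intro s _; simp
      · intro s _; simp
      · intro s _; simp
    simp only
    rw [e1, e2]
    by_cases hij : i = j
    · subst hij
      rw [if_pos rfl, ← Finset.sum_neg_distrib]
      apply Finset.sum_congr rfl
      intro s _
      by_cases his : i ∈ s <;> simp [his, Finset.mem_symmDiff]
    · rw [if_neg hij]
      apply Finset.sum_congr rfl
      intro s _
      have : ¬ (j = i) := fun h => hij h.symm
      by_cases hjs : j ∈ s <;> simp [hjs, this, Finset.mem_symmDiff]

end Pool.Agent.Helper273.Sup
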