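import Pool.Agent.Helper273.Sup.Defs
import Pool.Agent.Helper273.Sup.P_galois_mem



namespace Pool.Agent.Helper273.Sup
open IntermediateField


theorem finite_gen {k K : Type*} [Field k] [Field K] [Algebra k K] [CharZero k] [IsAlgClosed K]
    {n : ℕ} (x y : Fin n → K) (hx : Gen k x) {r : ℕ} (t : Fin r → K)
    (h : ∀ σ : K ≃ₐ[k] K, (∀ b ∈ adjoin k (Set.range x), σ b = b) →
      (∀ a, IsAlgebraic (adjoin k (Set.range t)) a → σ a = a) → ∀ i, σ (y i) = y i) :
    ∃ S : Finset K, (∀ s ∈ S, IsAlgebraic (adjoin k (Set.range t)) s) ∧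
      ∀ i, y i ∈ adjoin k ((adjoin k (Set.range x) : Set K) ∪ S) := by
  classical
  have h1 : ∀ i, y i ∈ adjoin k (((adjoin k (Set.range x) : IntermediateField k K) : Set K) ∪
      {a | IsAlgebraic (adjoin k (Set.range t)) a}) := by
    intro i
    apply galois_mem (adjoin k (Set.range x)) hx.alg
    intro σ h1 h2
    exact h σ h1 h2 i
  have h2 : ∀ i, ∃ T : Finset K,
      (T : Set K) ⊆ (((adjoin k (Set.range x) : IntermediateField k K) : Set K) ∪
      {a | IsAlgebraic (adjoin k (Set.range t)) a}) ∧ y i ∈ adjoin k (T : Set K) :=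
    fun i => IntermediateField.exists_finset_of_mem_adjoin (h1 i)
  choose T hT1 hT2 using h2
  refine ⟨Finset.univ.biUnion (fun i => (T i).filter
    (fun a => IsAlgebraic (adjoin k (Set.range t)) a)), ?_, ?_⟩
  · intro s hs
    simp only [Finset.mem_biUnion, Finset.mem_filter] at hs
    obtain ⟨i, -, -, hi⟩ := hs
    exact hi
  · intro i
    refine adjoin.mono k _ _ ?_ (hT2 i)
    intro a ha
    rcases hT1 i ha with hM | hA
    · exact Or.inl hM
    · right
      simp only [Finset.coe_biUnion, Set.mem_iUnion, Finset.coe_filter]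
      exact ⟨i, Finset.mem_coe.2 (Finset.mem_univ i), ha, hA⟩

end Pool.Agent.Helper273.Sup
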