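import Pool.Agent.Helper273.Sup.Defs



namespace Pool.Agent.Helper273.Sup
open IntermediateField


theorem finite_orbit {k K : Type*} [Field k] [Field K] [Algebra k K]
    (M : IntermediateField k K) (hM : Algebra.IsAlgebraic M K) {r : ℕ} (t : Fin r → K)
    (ht : ∀ i, t i ∈ M) (S : Finset K)
    (hS : ∀ s ∈ S, IsAlgebraic (adjoin k (Set.range t)) s) :
    ∃ O : Finset K, S ⊆ O ∧ (∀ s ∈ O, IsAlgebraic (adjoin k (Set.range t)) s) ∧
      ∀ σ : K ≃ₐ[k] K, (∀ b ∈ M, σ b = b) → ∀ o ∈ O, σ o ∈ O := by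
  classical
  have hEM : adjoin k (Set.range t) ≤ M := by
    rw [adjoin_le_iff]
    rintro _ ⟨i, rfl⟩
    exact ht i
  refine ⟨S.biUnion (fun s => ((minpoly M s).aroots K).toFinset), ?_, ?_, ?_⟩
  · intro s hs
    rw [Finset.mem_biUnion]
    refine ⟨s, hs, ?_⟩
    rw [Multiset.mem_toFinset, Polynomial.mem_aroots]
    exact ⟨minpoly.ne_zero (hM.isAlgebraic s).isIntegral, minpoly.aeval M s⟩
  · intro o ho
    rw [Finset.mem_biUnion] at ho
    obtain ⟨s, hs, ho⟩ := ho
    rw [Multiset.mem_toFinset, Polynomial.mem_aroots] at ho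
    obtain ⟨p, hp, hps⟩ := hS s hs
    refine ⟨p, hp, ?_⟩
    have e : ∀ z : K, Polynomial.aeval z (p.map (inclusion hEM).toRingHom) =
        Polynomial.aeval z p := by
      intro z
      rw [Polynomial.aeval_def, Polynomial.eval₂_map, Polynomial.aeval_def]
      rfl
    have hd : minpoly M s ∣ p.map (inclusion hEM).toRingHom :=
      minpoly.dvd M s (by rw [e, hps])
    rw [← e]
    obtain ⟨q, hq⟩ := hd
    rw [hq, map_mul, ho.2, zero_mul]
  · intro σ hσ o ho
    rw [Finset.mem_biUnion] at ho ⊢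
    obtain ⟨s, hs, ho⟩ := ho
    refine ⟨s, hs, ?_⟩
    rw [Multiset.mem_toFinset, Polynomial.mem_aroots] at ho ⊢
    refine ⟨ho.1, ?_⟩
    let σM : K →ₐ[M] K :=
      { (σ : K →+* K) with commutes' := fun b => hσ b b.2 }
    have h1 : Polynomial.aeval (σM o) (minpoly M s) = σM (Polynomial.aeval o (minpoly M s)) :=
      Polynomial.aeval_algHom_apply σM o _
    rw [ho.2, map_zero] at h1
    exact h1

end Pool.Agent.Helper273.Sup
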