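import Pool.Agent.Helper273.Sup.Defs
import Pool.Agent.Helper273.Sup.P_galois_mem
import Pool.Agent.Helper273.Sup.P_coeff_mem
import Pool.Agent.Helper273.Sup.P_artin
import Pool.Agent.Helper273.Sup.P_finite_orbit
import Pool.Agent.Helper273.Sup.P_finite_gen



namespace Pool.Agent.Helper273.Sup
open IntermediateField


theorem faithful {k K : Type*} [Field k] [Field K] [Algebra k K] [CharZero k] [IsAlgClosed K]
    {n : ℕ} (x y : Fin n → K) (hx : Gen k x) (hy : IsRoots x y) {r : ℕ} (t : Fin r → K)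
    (ht : ∀ i, t i ∈ adjoin k (Set.range x))
    (h : ∀ σ : K ≃ₐ[k] K, (∀ b ∈ adjoin k (Set.range x), σ b = b) →
      (∀ a, IsAlgebraic (adjoin k (Set.range t)) a → σ a = a) → ∀ i, σ (y i) = y i)
    (σ : K ≃ₐ[k] K) (hσ : ∀ b ∈ adjoin k (Set.range x), σ b = b)
    (hσ' : ∀ a ∈ adjoin k (Set.range y), IsAlgebraic (adjoin k (Set.range t)) a → σ a = a) :
    ∀ i, σ (y i) = y i := by
  obtain ⟨S, hS, hSy⟩ := finite_gen x y hx t h
  obtain ⟨O, hSO, hOalg, hOst⟩ := finite_orbit (adjoin k (Set.range x)) hx.alg t ht S hS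
  let G : Subgroup (K ≃ₐ[k] K) :=
    { carrier := {τ | (∀ b ∈ adjoin k (Set.range x), τ b = b) ∧ ∀ i, τ (y i) = y i}
      mul_mem' := by
        rintro a b ⟨ha, ha'⟩ ⟨hb, hb'⟩
        exact ⟨fun c hc => by rw [AlgEquiv.mul_apply, hb c hc, ha c hc],
          fun i => by rw [AlgEquiv.mul_apply, hb' i, ha' i]⟩
      one_mem' := ⟨fun _ _ => rfl, fun _ => rfl⟩
      inv_mem' := by
        rintro a ⟨ha, ha'⟩
        exact ⟨fun c hc => (AlgEquiv.symm_apply_eq a).2 (ha c hc).symm,
          fun i => (AlgEquiv.symm_apply_eq a).2 (ha' i).symm⟩ }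
  have hle : adjoin k ((adjoin k (Set.range x) : Set K) ∪ Set.range y) ≤
      adjoin k (Set.range y) := by
    rw [adjoin_le_iff, Set.union_subset_iff]
    exact ⟨coeff_mem x y hy, subset_adjoin k _⟩
  have halg : ∀ a ∈ adjoin k (O : Set K), IsAlgebraic (adjoin k (Set.range t)) a := by
    intro a ha
    have h1 : adjoin k (O : Set K) ≤
        (algebraicClosure (adjoin k (Set.range t)) K).restrictScalars k := by
      rw [adjoin_le_iff]
      intro o ho
      exact mem_algebraicClosure_iff.2 (hOalg o ho)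
    exact mem_algebraicClosure_iff.1 (h1 ha)
  obtain ⟨g, hg, hgO⟩ := artin G O (fun g hg o ho => hOst g hg.1 o ho) σ
    (fun o ho => hOst σ hσ o ho) (by
      intro a ha hfix
      refine hσ' a (hle (galois_mem (adjoin k (Set.range x)) hx.alg (Set.range y) a ?_))
        (halg a ha)
      intro τ hτ hτ'
      exact hfix τ ⟨hτ, fun i => hτ' _ ⟨i, rfl⟩⟩)
  have key : ∀ z ∈ adjoin k ((adjoin k (Set.range x) : Set K) ∪ S), σ z = g z := by
    intro z hz
    induction hz using adjoin_induction with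
    | mem z hz =>
      rcases hz with hz | hz
      · rw [hσ z hz, hg.1 z hz]
      · exact hgO z (hSO hz)
    | algebraMap z => rw [AlgEquiv.commutes, AlgEquiv.commutes]
    | add a b _ _ ha hb => rw [map_add, map_add, ha, hb]
    | mul a b _ _ ha hb => rw [map_mul, map_mul, ha, hb]
    | inv a _ ha => rw [map_inv₀, map_inv₀, ha]
  intro i
  rw [key (y i) (hSy i)]
  exact hg.2 i

end Pool.Agent.Helper273.Sup
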