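import Pool.Agent.Helper273.Sup.Defs



namespace Pool.Agent.Helper273.Sup
open IntermediateField


private theorem j29652_comb {k K : Type*} [Field k] [Field K] [Algebra k K] (r : ℕ)
    (M : IntermediateField k K) (f g : K)
    (hf : ∃ (m : ℕ) (t : Fin m → Fin r → K), (∀ l i, t l i ∈ M) ∧
      ∀ σ : K ≃ₐ[k] K, (∀ l a, IsAlgebraic (adjoin k (Set.range (t l))) a → σ a = a) →
        σ f = f)
    (hg : ∃ (m : ℕ) (t : Fin m → Fin r → K), (∀ l i, t l i ∈ M) ∧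
      ∀ σ : K ≃ₐ[k] K, (∀ l a, IsAlgebraic (adjoin k (Set.range (t l))) a → σ a = a) →
        σ g = g) :
    ∃ (m : ℕ) (t : Fin m → Fin r → K), (∀ l i, t l i ∈ M) ∧
      ∀ σ : K ≃ₐ[k] K, (∀ l a, IsAlgebraic (adjoin k (Set.range (t l))) a → σ a = a) →
        σ f = f ∧ σ g = g := by
  obtain ⟨m1, t1, h1, h1'⟩ := hf
  obtain ⟨m2, t2, h2, h2'⟩ := hg
  refine ⟨m1 + m2, Fin.append t1 t2, fun l => ?_, fun σ hσ => ⟨h1' σ fun l a ha => ?_,
    h2' σ fun l a ha => ?_⟩⟩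
  · refine Fin.addCases (fun l i => ?_) (fun l i => ?_) l
    · rw [Fin.append_left]; exact h1 l i
    · rw [Fin.append_right]; exact h2 l i
  · refine hσ (Fin.castAdd m2 l) a ?_
    rw [Fin.append_left]; exact ha
  · refine hσ (Fin.natAdd m1 l) a ?_
    rw [Fin.append_right]; exact ha

theorem finite_data {k K : Type*} [Field k] [Field K] [Algebra k K] (r : ℕ)
    (M : IntermediateField k K) (f : K) (hf : f ∈ step r M) :
    ∃ (m : ℕ) (t : Fin m → Fin r → K), (∀ l i, t l i ∈ M) ∧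
      ∀ σ : K ≃ₐ[k] K, (∀ l a, IsAlgebraic (adjoin k (Set.range (t l))) a → σ a = a) →
        σ f = f := by
  unfold step at hf
  induction hf using IntermediateField.adjoin_induction with
  | mem x hx =>
    obtain ⟨t, ht, hx2⟩ := hx
    exact ⟨1, fun _ => t, fun _ i => ht i, fun σ hσ => hσ 0 x hx2⟩
  | algebraMap x =>
    exact ⟨0, fun l => l.elim0, fun l => l.elim0, fun σ _ => σ.commutes x⟩
  | add x y _ _ hx hy =>
    obtain ⟨m, t, h1, h2⟩ := j29652_comb r M x y hx hy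
    exact ⟨m, t, h1, fun σ hσ => by rw [map_add, (h2 σ hσ).1, (h2 σ hσ).2]⟩
  | inv x _ hx =>
    obtain ⟨m, t, h1, h2⟩ := hx
    exact ⟨m, t, h1, fun σ hσ => by rw [map_inv₀, h2 σ hσ]⟩
  | mul x y _ _ hx hy =>
    obtain ⟨m, t, h1, h2⟩ := j29652_comb r M x y hx hy
    exact ⟨m, t, h1, fun σ hσ => by rw [map_mul, (h2 σ hσ).1, (h2 σ hσ).2]⟩

end Pool.Agent.Helper273.Sup
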