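import Pool.Agent.Helper273.Sup.Defs



namespace Pool.Agent.Helper273.Sup
open IntermediateField


theorem frac_rep {k K : Type*} [Field k] [Field K] [Algebra k K] {n : ℕ} (u : Fin n → K)
    (hu : AlgebraicIndependent k u) (g : K) (hg : g ∈ adjoin k (Set.range u)) (hg0 : g ≠ 0) :
    ∃ P Q : MvPolynomial (Fin n) k, P ≠ 0 ∧ Q ≠ 0 ∧
      g * MvPolynomial.aeval u Q = MvPolynomial.aeval u P := by
  obtain ⟨P, Q, hPQ⟩ := (IntermediateField.mem_adjoin_range_iff k u g).1 hg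
  have hQ : MvPolynomial.aeval u Q ≠ 0 := by
    intro h
    rw [h, div_zero] at hPQ
    exact hg0 hPQ
  have hP : MvPolynomial.aeval u P ≠ 0 := by
    intro h
    rw [h, zero_div] at hPQ
    exact hg0 hPQ
  refine ⟨P, Q, ?_, ?_, ?_⟩
  · rintro rfl; exact hP (by simp)
  · rintro rfl; exact hQ (by simp)
  · rw [hPQ, div_mul_cancel₀ _ hQ]

end Pool.Agent.Helper273.Sup
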