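import Pool.Agent.Helper273.Sup.Defs



namespace Pool.Agent.Helper273.Sup
open IntermediateField


theorem indep_crit_lin {k : Type*} [Field k] {n : ℕ} {ι : Type*} (S : Finset ι)
    (hS : S.Nonempty) (c : ι → k) (hc : ∀ s ∈ S, c s ≠ 0) (f : ι → MvPolynomial (Fin n) k)
    (hf : ∀ s ∈ S, f s ≠ 0)
    (hinj : ∀ s ∈ S, ∀ t ∈ S, (MonomialOrder.lex (σ := Fin n)).degree (f s) =
      (MonomialOrder.lex (σ := Fin n)).degree (f t) → s = t)
    (h0 : ∑ s ∈ S, MvPolynomial.C (c s) * f s = 0) : False := by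
  classical
  obtain ⟨s0, hs0, hmax⟩ := S.exists_max_image
    (fun s => (MonomialOrder.lex (σ := Fin n)).toSyn
      ((MonomialOrder.lex (σ := Fin n)).degree (f s))) hS
  have h1 : MvPolynomial.coeff ((MonomialOrder.lex (σ := Fin n)).degree (f s0))
      (∑ s ∈ S, MvPolynomial.C (c s) * f s) = 0 := by
    rw [h0, MvPolynomial.coeff_zero]
  rw [MvPolynomial.coeff_sum, Finset.sum_eq_single_of_mem s0 hs0] at h1
  · rw [MvPolynomial.coeff_C_mul] at h1
    rcases mul_eq_zero.mp h1 with h2 | h2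
    · exact hc s0 hs0 h2
    · exact (MonomialOrder.coeff_degree_ne_zero_iff
        (m := MonomialOrder.lex (σ := Fin n))).mpr (hf s0 hs0) h2
  · intro s hs hne
    rw [MvPolynomial.coeff_C_mul]
    rw [(MonomialOrder.lex (σ := Fin n)).coeff_eq_zero_of_lt, mul_zero]
    refine lt_of_le_of_ne (hmax s hs) ?_
    intro h
    exact hne (hinj s hs s0 hs0 ((MonomialOrder.lex (σ := Fin n)).toSyn.injective h))

theorem indep_crit {k K : Type*} [Field k] [Field K] [Algebra k K] {n m : ℕ}
    (u : Fin n → K) (hu : AlgebraicIndependent k u) (g : Fin m → K)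
    (P Q : Fin m → MvPolynomial (Fin n) k) (hP : ∀ j, P j ≠ 0) (hQ : ∀ j, Q j ≠ 0)
    (hg : ∀ j, g j * MvPolynomial.aeval u (Q j) = MvPolynomial.aeval u (P j))
    (hD : LinearIndependent ℤ (fun (j : Fin m) (l : Fin n) =>
      ((MonomialOrder.lex (σ := Fin n)).degree (P j) l : ℤ) -
        ((MonomialOrder.lex (σ := Fin n)).degree (Q j) l : ℤ))) :
    AlgebraicIndependent k g := by
  classical
  rw [algebraicIndependent_iff]
  intro R hR
  by_contra hR0
  -- a bound for all exponents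
  obtain ⟨N, hN⟩ : ∃ N : ℕ, ∀ s ∈ R.support, ∀ j : Fin m, s j ≤ N := by
    refine ⟨∑ s ∈ R.support, ∑ j : Fin m, s j, fun s hs j => ?_⟩
    calc s j ≤ ∑ j : Fin m, s j := Finset.single_le_sum (f := fun j => s j)
          (fun _ _ => Nat.zero_le _) (Finset.mem_univ j)
      _ ≤ ∑ s ∈ R.support, ∑ j : Fin m, s j :=
          Finset.single_le_sum (f := fun s : Fin m →₀ ℕ => ∑ j : Fin m, s j)
            (fun _ _ => Nat.zero_le _) hs
  set f : (Fin m →₀ ℕ) → MvPolynomial (Fin n) k :=
    fun s => ∏ j, (P j ^ (s j) * Q j ^ (N - s j)) with hf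
  have hPQ : ∀ (s : Fin m →₀ ℕ) (j : Fin m), P j ^ (s j) * Q j ^ (N - s j) ≠ 0 :=
    fun s j => mul_ne_zero (pow_ne_zero _ (hP j)) (pow_ne_zero _ (hQ j))
  have hfne : ∀ s ∈ R.support, f s ≠ 0 := fun s _ => Finset.prod_ne_zero_iff.mpr
    (fun j _ => hPQ s j)
  have hdeg : ∀ (s : Fin m →₀ ℕ) (l : Fin n), (MonomialOrder.lex (σ := Fin n)).degree (f s) l =
      ∑ j, (s j * (MonomialOrder.lex (σ := Fin n)).degree (P j) l +
        (N - s j) * (MonomialOrder.lex (σ := Fin n)).degree (Q j) l) := by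
    intro s l
    rw [hf]
    simp only
    rw [MonomialOrder.degree_prod (fun j _ => hPQ s j), Finsupp.finsetSum_apply]
    refine Finset.sum_congr rfl fun j _ => ?_
    rw [MonomialOrder.degree_mul (pow_ne_zero _ (hP j)) (pow_ne_zero _ (hQ j)),
      MonomialOrder.degree_pow, MonomialOrder.degree_pow]
    simp [Finsupp.add_apply, Finsupp.smul_apply]
  have hinj : ∀ s ∈ R.support, ∀ t ∈ R.support, (MonomialOrder.lex (σ := Fin n)).degree (f s) =
      (MonomialOrder.lex (σ := Fin n)).degree (f t) → s = t := by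
    intro s hs t ht hst
    rw [Fintype.linearIndependent_iff] at hD
    have h1 := hD (fun j => (s j : ℤ) - (t j : ℤ)) (by
      funext l
      have h2 : ((MonomialOrder.lex (σ := Fin n)).degree (f s) l : ℤ) =
          ((MonomialOrder.lex (σ := Fin n)).degree (f t) l : ℤ) := by rw [hst]
      rw [hdeg s l, hdeg t l] at h2
      rw [Finset.sum_apply]
      simp only [Pi.smul_apply, smul_eq_mul, Pi.zero_apply]
      push_cast at h2
      have h3 : ∀ s' ∈ R.support, ∀ j : Fin m, ((N - s' j : ℕ) : ℤ) = (N : ℤ) - (s' j : ℤ) :=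
        fun s' hs' j => Nat.cast_sub (hN s' hs' j)
      have h4 : ∀ s' ∈ R.support, ∑ j : Fin m,
          ((s' j : ℤ) * ((MonomialOrder.lex (σ := Fin n)).degree (P j) l : ℤ) +
          ((N - s' j : ℕ) : ℤ) * ((MonomialOrder.lex (σ := Fin n)).degree (Q j) l : ℤ)) =
          ∑ j : Fin m, (s' j : ℤ) * (((MonomialOrder.lex (σ := Fin n)).degree (P j) l : ℤ) -
          ((MonomialOrder.lex (σ := Fin n)).degree (Q j) l : ℤ)) +
          ∑ j : Fin m, (N : ℤ) * ((MonomialOrder.lex (σ := Fin n)).degree (Q j) l : ℤ) := by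
        intro s' hs'
        rw [← Finset.sum_add_distrib]
        refine Finset.sum_congr rfl fun j _ => ?_
        rw [h3 s' hs' j]
        ring
      rw [h4 s hs, h4 t ht] at h2
      have h5 := add_right_cancel h2
      simp only [sub_mul]
      rw [Finset.sum_sub_distrib, h5, sub_self])
    ext j
    have := h1 j
    omega
  refine indep_crit_lin R.support (by rwa [MvPolynomial.support_nonempty]) (fun s => R.coeff s)
    (fun s hs => MvPolynomial.mem_support_iff.mp hs) f hfne hinj ?_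
  rw [algebraicIndependent_iff] at hu
  apply hu
  rw [map_sum]
  have hR2 := congrArg (fun z => z * ∏ j, (MvPolynomial.aeval u (Q j)) ^ N) hR
  simp only [zero_mul] at hR2
  rw [MvPolynomial.aeval_def, MvPolynomial.eval₂_eq', Finset.sum_mul] at hR2
  rw [← hR2]
  refine Finset.sum_congr rfl fun s hs => ?_
  rw [map_mul, MvPolynomial.aeval_C, mul_assoc, ← Finset.prod_mul_distrib, hf]
  simp only [map_prod, map_mul, map_pow]
  congr 1
  refine Finset.prod_congr rfl fun j _ => ?_
  rw [← hg j, mul_pow, mul_assoc, ← pow_add, Nat.add_sub_cancel' (hN s hs j)]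

end Pool.Agent.Helper273.Sup
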