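import Pool.Agent.Helper273.Sup.Defs



namespace Pool.Agent.Helper273.Sup
open IntermediateField


theorem lex_twist_mon {k : Type*} [Field k] {n : ℕ} (e : Fin n) (s : Fin n →₀ ℕ) (c : k) :
    (MvPolynomial.aeval (fun l => if l = e then - MvPolynomial.X l else MvPolynomial.X l)
      (MvPolynomial.monomial s c) : MvPolynomial (Fin n) k) =
      (-1) ^ (s e) * MvPolynomial.monomial s c := by
  rw [MvPolynomial.aeval_monomial, Finsupp.prod_fintype _ _ (fun i => pow_zero _),
    MvPolynomial.monomial_eq, Finsupp.prod_fintype _ _ (fun i => pow_zero _),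
    MvPolynomial.algebraMap_eq]
  have h1 : ∏ i : Fin n, (if i = e then - (MvPolynomial.X i : MvPolynomial (Fin n) k)
      else MvPolynomial.X i) ^ (s i) =
      (∏ i : Fin n, (if i = e then (-1 : MvPolynomial (Fin n) k) ^ (s i) else 1)) *
        ∏ i : Fin n, (MvPolynomial.X i : MvPolynomial (Fin n) k) ^ (s i) := by
    rw [← Finset.prod_mul_distrib]
    apply Finset.prod_congr rfl
    intro i _
    split_ifs
    · rw [neg_pow]
    · rw [one_mul]
  rw [h1, Finset.prod_ite_eq' Finset.univ e (fun i => (-1 : MvPolynomial (Fin n) k) ^ (s i)),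
    if_pos (Finset.mem_univ e)]
  ring

theorem lex_twist_coeff {k : Type*} [Field k] {n : ℕ} (e : Fin n) (P : MvPolynomial (Fin n) k) :
    ∀ d : Fin n →₀ ℕ, MvPolynomial.coeff d
      (MvPolynomial.aeval (fun l => if l = e then - MvPolynomial.X l else MvPolynomial.X l) P :
        MvPolynomial (Fin n) k) = (-1) ^ (d e) * MvPolynomial.coeff d P := by
  induction P using MvPolynomial.induction_on' with
  | monomial s c =>
    intro d
    rw [lex_twist_mon]
    have h1 : ((-1 : MvPolynomial (Fin n) k)) ^ (s e) = MvPolynomial.C ((-1) ^ (s e)) := by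
      rw [map_pow, map_neg, map_one]
    rw [h1, MvPolynomial.coeff_C_mul, MvPolynomial.coeff_monomial]
    split_ifs with h
    · rw [h]
    · rw [mul_zero, mul_zero]
  | add p q hp hq =>
    intro d
    rw [map_add, MvPolynomial.coeff_add, hp, hq, MvPolynomial.coeff_add, mul_add]

theorem lex_twist {k : Type*} [Field k] {n : ℕ} (e : Fin n) (P : MvPolynomial (Fin n) k) :
    (MonomialOrder.lex (σ := Fin n)).degree
      (MvPolynomial.aeval (fun l => if l = e then - MvPolynomial.X l else MvPolynomial.X l) P :
        MvPolynomial (Fin n) k) = (MonomialOrder.lex (σ := Fin n)).degree P ∧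
    (MonomialOrder.lex (σ := Fin n)).leadingCoeff
      (MvPolynomial.aeval (fun l => if l = e then - MvPolynomial.X l else MvPolynomial.X l) P :
        MvPolynomial (Fin n) k) =
      (-1) ^ ((MonomialOrder.lex (σ := Fin n)).degree P e) *
        (MonomialOrder.lex (σ := Fin n)).leadingCoeff P := by
  have hc := lex_twist_coeff e P
  have hs : (MvPolynomial.aeval (fun l => if l = e then - MvPolynomial.X l else MvPolynomial.X l) P :
        MvPolynomial (Fin n) k).support = P.support := by
    ext d
    rw [MvPolynomial.mem_support_iff, MvPolynomial.mem_support_iff, hc]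
    have h1 : ((-1 : k)) ^ (d e) ≠ 0 := pow_ne_zero _ (neg_ne_zero.mpr one_ne_zero)
    constructor
    · intro h h0
      rw [h0, mul_zero] at h
      exact h rfl
    · intro h h0
      rcases mul_eq_zero.mp h0 with h2 | h2
      · exact h1 h2
      · exact h h2
  have hd : (MonomialOrder.lex (σ := Fin n)).degree
      (MvPolynomial.aeval (fun l => if l = e then - MvPolynomial.X l else MvPolynomial.X l) P :
        MvPolynomial (Fin n) k) = (MonomialOrder.lex (σ := Fin n)).degree P := by
    unfold MonomialOrder.degree
    rw [hs]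
  refine ⟨hd, ?_⟩
  unfold MonomialOrder.leadingCoeff
  rw [hd, hc]

end Pool.Agent.Helper273.Sup
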