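import Pool.Agent.Helper273.Sup.Defs
import Pool.Agent.Helper273.Sup.P_lex_twist



namespace Pool.Agent.Helper273.Sup
open IntermediateField


theorem parity {k K : Type*} [Field k] [Field K] [Algebra k K] [CharZero k] {n : ℕ}
    (u : Fin n → K) (hu : AlgebraicIndependent k u) (e : Fin n) (σ : K ≃ₐ[k] K)
    (hσ : ∀ l, σ (u l) = if l = e then - u l else u l) (g : K) (hg0 : g ≠ 0)
    (P Q : MvPolynomial (Fin n) k) (hP : P ≠ 0) (hQ : Q ≠ 0)
    (hg : g * MvPolynomial.aeval u Q = MvPolynomial.aeval u P) :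
    (σ g = g → Even ((MonomialOrder.lex (σ := Fin n)).degree P e +
      (MonomialOrder.lex (σ := Fin n)).degree Q e)) ∧
    (σ g = - g → Odd ((MonomialOrder.lex (σ := Fin n)).degree P e +
      (MonomialOrder.lex (σ := Fin n)).degree Q e)) := by
  let tw : MvPolynomial (Fin n) k →ₐ[k] MvPolynomial (Fin n) k :=
    MvPolynomial.aeval (fun l => if l = e then - MvPolynomial.X l else MvPolynomial.X l)
  have hcomp : (σ : K →ₐ[k] K).comp (MvPolynomial.aeval u) = (MvPolynomial.aeval u).comp tw := by
    apply MvPolynomial.algHom_ext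
    intro l
    simp only [AlgHom.comp_apply, MvPolynomial.aeval_X, tw]
    change σ (u l) = _
    rw [hσ l]
    split_ifs <;> simp
  have hσR : ∀ R : MvPolynomial (Fin n) k, σ (MvPolynomial.aeval u R) = MvPolynomial.aeval u (tw R) := by
    intro R
    have h1 := congrArg (fun f : MvPolynomial (Fin n) k →ₐ[k] K => f R) hcomp
    exact h1
  have hinj : Function.Injective (MvPolynomial.aeval u : MvPolynomial (Fin n) k →ₐ[k] K) := hu
  have hlP : (MonomialOrder.lex (σ := Fin n)).leadingCoeff P ≠ 0 :=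
    (MonomialOrder.leadingCoeff_ne_zero_iff).2 hP
  have hlQ : (MonomialOrder.lex (σ := Fin n)).leadingCoeff Q ≠ 0 :=
    (MonomialOrder.leadingCoeff_ne_zero_iff).2 hQ
  have hpm : ∀ m : ℕ, ((-1 : k) ^ m) * (-1) ^ m = 1 := by
    intro m
    rw [← mul_pow]
    simp
  have hlTP : (MonomialOrder.lex (σ := Fin n)).leadingCoeff (tw P) =
      (-1) ^ ((MonomialOrder.lex (σ := Fin n)).degree P e) *
        (MonomialOrder.lex (σ := Fin n)).leadingCoeff P := (lex_twist e P).2
  have hlTQ : (MonomialOrder.lex (σ := Fin n)).leadingCoeff (tw Q) =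
      (-1) ^ ((MonomialOrder.lex (σ := Fin n)).degree Q e) *
        (MonomialOrder.lex (σ := Fin n)).leadingCoeff Q := (lex_twist e Q).2
  have hTP : tw P ≠ 0 := by
    intro h
    rw [h, MonomialOrder.leadingCoeff_zero] at hlTP
    rcases mul_eq_zero.1 hlTP.symm with h1 | h1
    · exact pow_ne_zero _ (neg_ne_zero.2 one_ne_zero) h1
    · exact hlP h1
  have hTQ : tw Q ≠ 0 := by
    intro h
    rw [h, MonomialOrder.leadingCoeff_zero] at hlTQ
    rcases mul_eq_zero.1 hlTQ.symm with h1 | h1
    · exact pow_ne_zero _ (neg_ne_zero.2 one_ne_zero) h1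
    · exact hlQ h1
  have hσg : σ g * MvPolynomial.aeval u (tw Q) = MvPolynomial.aeval u (tw P) := by
    rw [← hσR, ← hσR, ← map_mul, hg]
  set p := (MonomialOrder.lex (σ := Fin n)).degree P e with hp
  set q := (MonomialOrder.lex (σ := Fin n)).degree Q e with hq
  have hcz : (-1 : k) ≠ 1 := by
    intro h
    have h2 : (2 : k) = 0 := by linear_combination -h
    exact two_ne_zero h2
  constructor
  · intro hs
    rw [hs] at hσg
    have h1 : MvPolynomial.aeval u (P * tw Q) = MvPolynomial.aeval u (Q * tw P) := by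
      rw [map_mul, map_mul, ← hg, ← hσg]; ring
    have h2 := congrArg (MonomialOrder.lex (σ := Fin n)).leadingCoeff (hinj h1)
    rw [MonomialOrder.leadingCoeff_mul, MonomialOrder.leadingCoeff_mul, hlTP, hlTQ] at h2
    have h3 : ((-1 : k) ^ q - (-1) ^ p) * ((MonomialOrder.lex (σ := Fin n)).leadingCoeff P *
        (MonomialOrder.lex (σ := Fin n)).leadingCoeff Q) = 0 := by linear_combination h2
    have h4 : (-1 : k) ^ q = (-1) ^ p := by
      rcases mul_eq_zero.1 h3 with h | h
      · exact sub_eq_zero.1 h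
      · exact absurd h (mul_ne_zero hlP hlQ)
    rw [← neg_one_pow_eq_one_iff_even hcz, pow_add, h4]
    exact hpm p
  · intro hs
    rw [hs] at hσg
    have h1 : MvPolynomial.aeval u (P * tw Q) = MvPolynomial.aeval u (-(Q * tw P)) := by
      rw [map_mul, map_neg, map_mul, ← hg, ← hσg]; ring
    have h2 := congrArg (MonomialOrder.lex (σ := Fin n)).leadingCoeff (hinj h1)
    rw [MonomialOrder.leadingCoeff_neg, MonomialOrder.leadingCoeff_mul,
      MonomialOrder.leadingCoeff_mul, hlTP, hlTQ] at h2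
    have h3 : ((-1 : k) ^ q + (-1) ^ p) * ((MonomialOrder.lex (σ := Fin n)).leadingCoeff P *
        (MonomialOrder.lex (σ := Fin n)).leadingCoeff Q) = 0 := by linear_combination h2
    have h4 : (-1 : k) ^ q = -(-1) ^ p := by
      rcases mul_eq_zero.1 h3 with h | h
      · exact eq_neg_of_add_eq_zero_left h
      · exact absurd h (mul_ne_zero hlP hlQ)
    rw [← Nat.not_even_iff_odd, ← neg_one_pow_eq_one_iff_even hcz, pow_add, h4]
    intro h
    have h5 := hpm p
    apply hcz
    rw [mul_neg, h5] at h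
    exact h

end Pool.Agent.Helper273.Sup
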