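import Pool.Agent.Helper273.Sup.Defs



namespace Pool.Agent.Helper273.Sup
open IntermediateField


theorem parity_indep {n m : ℕ} (e : Fin m → Fin n) (D : Fin m → Fin n → ℤ)
    (h : ∀ i j, Odd (D j (e i)) ↔ i = j) : LinearIndependent ℤ D := by
  classical
  rw [Fintype.linearIndependent_iff]
  intro c hc
  let A : Matrix (Fin m) (Fin m) ℤ := Matrix.of fun i j => D j (e i)
  have hA : A.map (Int.castRingHom (ZMod 2)) = 1 := by
    ext i j
    simp only [Matrix.map_apply, A, Matrix.of_apply, Matrix.one_apply, eq_intCast]
    by_cases hij : i = j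
    · rw [if_pos hij]
      have := (h i j).mpr hij
      exact ZMod.intCast_eq_one_iff_odd.mpr this
    · rw [if_neg hij]
      have h1 : ¬ Odd (D j (e i)) := fun h2 => hij ((h i j).mp h2)
      rw [Int.not_odd_iff_even] at h1
      exact (ZMod.intCast_eq_zero_iff_even).mpr h1
  have hdet : A.det ≠ 0 := by
    intro h0
    have h1 : (Int.castRingHom (ZMod 2)) A.det = 1 := by
      rw [RingHom.map_det]
      show (A.map (Int.castRingHom (ZMod 2))).det = 1
      rw [hA, Matrix.det_one]
    rw [h0, map_zero] at h1
    exact zero_ne_one h1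
  have hmv : A.mulVec c = 0 := by
    ext i
    have := congrFun hc (e i)
    simp only [Finset.sum_apply, Pi.smul_apply, smul_eq_mul, Pi.zero_apply] at this
    simp only [Matrix.mulVec, dotProduct, A, Matrix.of_apply, Pi.zero_apply]
    rw [← this]
    exact Finset.sum_congr rfl (fun j _ => mul_comm _ _)
  have := Matrix.eq_zero_of_mulVec_eq_zero hdet hmv
  intro i
  exact congrFun this i

end Pool.Agent.Helper273.Sup
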