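import Pool.Agent.Helper273.Sup.Defs
import Pool.Agent.Helper273.Sup.P_frac_rep
import Pool.Agent.Helper273.Sup.P_parity
import Pool.Agent.Helper273.Sup.P_indep_crit
import Pool.Agent.Helper273.Sup.P_parity_indep
import Pool.Agent.Helper273.Sup.P_coords



namespace Pool.Agent.Helper273.Sup
open IntermediateField


theorem g_indep {k K : Type*} [Field k] [Field K] [Algebra k K] [CharZero k] {n : ℕ}
    (y : Fin n → K) (hy : AlgebraicIndependent k y) (σ : Fin (n / 2) → (K ≃ₐ[k] K))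
    (hσ : ∀ i l, σ i (y l) = y (Equiv.swap (⟨2 * (i : ℕ), by have := i.2; omega⟩ : Fin n)
          ⟨2 * (i : ℕ) + 1, by have := i.2; omega⟩ l))
    (g : Fin (n / 2) → K) (hg : ∀ j, g j ∈ adjoin k (Set.range y) ∧ g j ≠ 0)
    (hg' : ∀ i j, σ i (g j) = if i = j then - g j else g j) : AlgebraicIndependent k g := by
  obtain ⟨u, hu, hadj, hcoord⟩ := coords y hy
  have hfr : ∀ j, ∃ P Q : MvPolynomial (Fin n) k, P ≠ 0 ∧ Q ≠ 0 ∧
      g j * MvPolynomial.aeval u Q = MvPolynomial.aeval u P :=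
    fun j => frac_rep u hu (g j) (by rw [hadj]; exact (hg j).1) (hg j).2
  choose P Q hP hQ hPQ using hfr
  refine indep_crit u hu g P Q hP hQ hPQ ?_
  refine parity_indep (fun i : Fin (n / 2) => (⟨2 * (i : ℕ) + 1, by have := i.2; omega⟩ : Fin n)) _ ?_
  intro i j
  have hs := hcoord i (σ i) (hσ i)
  have hp := parity u hu ⟨2 * (i : ℕ) + 1, by have := i.2; omega⟩ (σ i) hs (g j) (hg j).2
    (P j) (Q j) (hP j) (hQ j) (hPQ j)
  constructor
  · intro hodd
    by_contra hij
    have h1 : σ i (g j) = g j := by rw [hg', if_neg hij]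
    have h2 := hp.1 h1
    rw [Nat.even_iff] at h2
    rw [Int.odd_iff] at hodd
    omega
  · intro hij
    have h1 : σ i (g j) = - g j := by rw [hg', if_pos hij]
    have h2 := hp.2 h1
    rw [Nat.odd_iff] at h2
    rw [Int.odd_iff]
    omega

end Pool.Agent.Helper273.Sup
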