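import Pool.Agent.Helper273.Sup.Defs
import Pool.Agent.Helper273.Sup.P_alt_le_map



namespace Pool.Agent.Helper273.Sup
open IntermediateField


theorem one_factor_aux {Γ : Type*} [Group Γ] {n : ℕ} (hn : 5 ≤ n) (ρ : Γ →* Equiv.Perm (Fin n))
    (hρ : Function.Surjective ρ) : ∀ {m : ℕ} (N : Fin m → Subgroup Γ), (∀ l, (N l).Normal) →
    (∀ l, alternatingGroup (Fin n) ≤ (N l).map ρ) →
    ∃ N' : Subgroup Γ, N'.Normal ∧ (∀ σ ∈ N', ∀ l, σ ∈ N l) ∧
      alternatingGroup (Fin n) ≤ N'.map ρ := by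
  intro m
  induction m with
  | zero =>
    intro N _ _
    refine ⟨⊤, inferInstance, fun _ _ l => l.elim0, ?_⟩
    rw [← MonoidHom.range_eq_map, MonoidHom.range_eq_top.2 hρ]
    exact le_top
  | succ m ih =>
    intro N hN hA
    obtain ⟨N', h1, h2, h3⟩ := ih (fun l => N l.succ) (fun l => hN _) (fun l => hA _)
    have h4 := hN 0
    refine ⟨N 0 ⊓ N', inferInstance, ?_, alt_le_map hn ρ hρ (N 0) N' h4 h1 (hA 0) h3⟩
    intro σ hσ l
    refine Fin.cases ?_ (fun l => ?_) l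
    · exact hσ.1
    · exact h2 σ hσ.2 l

theorem one_factor {Γ : Type*} [Group Γ] {n : ℕ} (hn : 5 ≤ n) (ρ : Γ →* Equiv.Perm (Fin n))
    (hρ : Function.Surjective ρ) {m : ℕ} (N : Fin m → Subgroup Γ) (hN : ∀ l, (N l).Normal)
    (i0 : Fin n) (h : ∀ σ : Γ, (∀ l, σ ∈ N l) → ρ σ i0 = i0) :
    ∃ l, ∀ σ ∈ N l, ρ σ = 1 := by
  by_contra hcon
  push Not at hcon
  have hA : ∀ l, alternatingGroup (Fin n) ≤ (N l).map ρ := by
    intro l
    have h1 : ((N l).map ρ).Normal := (hN l).map ρ hρ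
    obtain ⟨σ, hσ, hne⟩ := hcon l
    apply Equiv.Perm.alternatingGroup_le_of_normal
    · rw [Nat.card_eq_fintype_card, Fintype.card_fin]
      exact hn
    · rw [Subgroup.nontrivial_iff_exists_ne_one]
      exact ⟨ρ σ, ⟨σ, hσ, rfl⟩, hne⟩
  obtain ⟨N', _, h2, h3⟩ := one_factor_aux hn ρ hρ N hN hA
  have hc : 2 < Fintype.card (Fin n) := by
    rw [Fintype.card_fin]
    omega
  obtain ⟨a, ha⟩ : ∃ a : Fin n, a ≠ i0 := Fintype.exists_ne_of_one_lt_card (by omega) i0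
  obtain ⟨b, hb1, hb2⟩ : ∃ b : Fin n, b ≠ i0 ∧ b ≠ a := by
    by_contra hc2
    push Not at hc2
    have h4 : (Finset.univ : Finset (Fin n)) ⊆ {i0, a} := by
      intro b _
      rw [Finset.mem_insert, Finset.mem_singleton]
      by_cases hb : b = i0
      · exact Or.inl hb
      · exact Or.inr (hc2 b hb)
    have h5 := (Finset.card_le_card h4).trans Finset.card_le_two
    rw [Finset.card_univ] at h5
    omega
  have h6 : Equiv.swap i0 a * Equiv.swap i0 b ∈ alternatingGroup (Fin n) := by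
    rw [Equiv.Perm.mem_alternatingGroup, Equiv.Perm.sign_mul, Equiv.Perm.sign_swap (Ne.symm ha),
      Equiv.Perm.sign_swap (Ne.symm hb1)]
    norm_num
  obtain ⟨σ, hσ, he⟩ := h3 h6
  have h7 := h σ (h2 σ hσ)
  rw [he, Equiv.Perm.mul_apply, Equiv.swap_apply_left,
    Equiv.swap_apply_of_ne_of_ne hb1 hb2] at h7
  exact hb1 h7

end Pool.Agent.Helper273.Sup
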