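import Pool.Agent.Helper273.Sup.Defs



namespace Pool.Agent.Helper273.Sup
open IntermediateField


theorem trdeg_le {k K : Type*} [Field k] [Field K] [Algebra k K] {m r : ℕ} (t : Fin r → K)
    (g : Fin m → K) (hg : AlgebraicIndependent k g)
    (h : ∀ j, IsAlgebraic (adjoin k (Set.range t)) (g j)) : m ≤ r := by
  classical
  set M := AlgebraicIndependent.matroid k K with hM
  have hind : M.Indep (Set.range g) := hg.to_subtype_range
  have hsub : Set.range g ⊆ M.closure (Set.range t) := by
    rw [hM, AlgebraicIndependent.matroid_closure_eq]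
    rintro _ ⟨j, rfl⟩
    rw [SetLike.mem_coe, Subalgebra.mem_algebraicClosure]
    open IntermediateField.algebraAdjoinAdjoin in
    exact (IsFractionRing.isAlgebraic_iff (Algebra.adjoin k (Set.range t))
      (adjoin k (Set.range t)) K).2 (h j)
  have h1 := hind.encard_le_eRk_of_subset hsub
  rw [M.eRk_closure_eq] at h1
  have h2 := h1.trans (M.eRk_le_encard (Set.range t))
  have h3 : (Set.range g).encard = m := by
    rw [← Set.image_univ, hg.injective.encard_image, Set.encard_univ]
    simp
  have h4 : (Set.range t).encard ≤ r := by
    rw [← Set.image_univ]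
    refine (Set.encard_image_le _ _).trans ?_
    rw [Set.encard_univ]
    simp
  rw [h3] at h2
  exact_mod_cast h2.trans h4

end Pool.Agent.Helper273.Sup
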