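import Pool.Agent.Helper273.Sup.P_finite_data
import Pool.Agent.Helper273.Sup.P_one_factor
import Pool.Agent.Helper273.Sup.P_faithful
import Pool.Agent.Helper273.Sup.P_exists_hom
import Pool.Agent.Helper273.Sup.P_exists_perm_aut
import Pool.Agent.Helper273.Sup.P_eigen
import Pool.Agent.Helper273.Sup.P_g_indep
import Pool.Agent.Helper273.Sup.P_trdeg_le
import Pool.Agent.Helper273.Sup.P_roots_indep
import Pool.Agent.Helper273.Sup.P_coeff_mem

namespace Pool.Agent.Helper273.Sup

open IntermediateField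

theorem conj_alg {k K : Type*} [Field k] [Field K] [Algebra k K] {r : ℕ} (t : Fin r → K)
    (τ : K ≃ₐ[k] K) (ht : ∀ i, τ (t i) = t i) (a : K)
    (ha : IsAlgebraic (adjoin k (Set.range t)) a) :
    IsAlgebraic (adjoin k (Set.range t)) (τ a) := by
  have hfix : ∀ b ∈ adjoin k (Set.range t), τ b = b := by
    have : adjoin k (Set.range t) ≤ IntermediateField.fixedField (Subgroup.zpowers τ) := by
      rw [adjoin_le_iff]
      rintro _ ⟨i, rfl⟩
      rw [SetLike.mem_coe, IntermediateField.mem_fixedField_iff]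
      intro f hf
      obtain ⟨m, rfl⟩ := Subgroup.mem_zpowers_iff.1 hf
      have h2 : τ ∈ MulAction.stabilizer (K ≃ₐ[k] K) (t i) := ht i
      exact (Subgroup.zpow_mem _ h2 m : τ ^ m ∈ MulAction.stabilizer (K ≃ₐ[k] K) (t i))
    intro b hb
    have := this hb
    rw [IntermediateField.mem_fixedField_iff] at this
    exact this τ (Subgroup.mem_zpowers τ)
  let τ' : K →ₐ[adjoin k (Set.range t)] K :=
    { τ.toAlgHom.toRingHom with
      commutes' := fun b => hfix b b.2 }
  exact ha.algHom τ'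

theorem lower_bound {k K : Type*} [Field k] [Field K] [Algebra k K] [CharZero k]
    [IsAlgClosed K] {n : ℕ} (hn : 5 ≤ n) (x y : Fin n → K) (hx : Gen k x) (hy : IsRoots x y)
    (r : ℕ) (i0 : Fin n) (h : y i0 ∈ step r (adjoin k (Set.range x))) : n / 2 ≤ r := by
  obtain ⟨m, t, ht, hfix⟩ := finite_data r _ (y i0) h
  obtain ⟨ρ, hρ⟩ := exists_hom x y hx hy
  have hyi : Function.Injective y := (roots_indep x y hx hy).injective
  have hmem : ∀ σ : K ≃ₐ[k] K, (∀ b ∈ adjoin k (Set.range x), σ b = b) →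
      σ ∈ (adjoin k (Set.range x)).fixingSubgroup := by
    intro σ hσ
    rw [IntermediateField.mem_fixingSubgroup_iff]
    exact hσ
  have hmem' : ∀ σ ∈ (adjoin k (Set.range x)).fixingSubgroup,
      ∀ b ∈ adjoin k (Set.range x), σ b = b := by
    intro σ hσ
    rw [IntermediateField.mem_fixingSubgroup_iff] at hσ
    exact hσ
  have hsurj : Function.Surjective ρ := by
    intro π
    obtain ⟨σ, hσ, hσ'⟩ := exists_perm_aut x y hx hy π
    refine ⟨⟨σ, hmem σ hσ⟩, ?_⟩
    ext i
    have h1 := hρ ⟨σ, hmem σ hσ⟩ i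
    have h2 := hσ' i
    have h3 : y (ρ ⟨σ, hmem σ hσ⟩ i) = y (π i) := by rw [← h1, ← h2]
    exact congrArg _ (hyi h3)
  let N : Fin m → Subgroup (adjoin k (Set.range x)).fixingSubgroup := fun l =>
    { carrier := {σ | ∀ a, IsAlgebraic (adjoin k (Set.range (t l))) a →
        (σ : K ≃ₐ[k] K) a = a}
      mul_mem' := by
        intro σ τ hσ hτ a ha
        have h1 := hτ a ha
        have h2 := hσ a ha
        change (σ : K ≃ₐ[k] K) ((τ : K ≃ₐ[k] K) a) = a
        rw [h1, h2]
      one_mem' := fun a _ => rfl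
      inv_mem' := by
        intro σ hσ a ha
        have h1 := hσ a ha
        change (σ : K ≃ₐ[k] K).symm a = a
        rw [AlgEquiv.symm_apply_eq]
        exact h1.symm }
  have hN : ∀ l, (N l).Normal := by
    intro l
    refine ⟨?_⟩
    intro σ hσ τ a ha
    have hfixt : ∀ i, (τ : K ≃ₐ[k] K).symm (t l i) = t l i := by
      intro i
      rw [AlgEquiv.symm_apply_eq]
      exact (hmem' _ τ.2 _ (ht l i)).symm
    have h1 := conj_alg (t l) (τ : K ≃ₐ[k] K).symm hfixt a ha
    have h2 := hσ _ h1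
    change (τ : K ≃ₐ[k] K) ((σ : K ≃ₐ[k] K) ((τ : K ≃ₐ[k] K).symm a)) = a
    rw [h2]
    simp
  obtain ⟨l, hl⟩ := one_factor hn ρ hsurj N hN i0 (by
    intro σ hσ
    have h1 := hfix σ (fun l a ha => hσ l a ha)
    have h2 := hρ σ i0
    rw [h1] at h2
    exact (hyi h2).symm)
  have hF : ∀ σ : K ≃ₐ[k] K, (∀ b ∈ adjoin k (Set.range x), σ b = b) →
      (∀ a, IsAlgebraic (adjoin k (Set.range (t l))) a → σ a = a) → ∀ i, σ (y i) = y i := by
    intro σ hσ hσ' i
    have h1 := hl ⟨σ, hmem σ hσ⟩ hσ'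
    have h2 := hρ ⟨σ, hmem σ hσ⟩ i
    rw [h1] at h2
    exact h2
  have hfa := faithful x y hx hy (t l) (ht l) hF
  choose σ hσB hσy using fun i : Fin (n / 2) => exists_perm_aut x y hx hy
    (Equiv.swap (⟨2 * (i : ℕ), by have := i.2; omega⟩ : Fin n)
      ⟨2 * (i : ℕ) + 1, by have := i.2; omega⟩)
  let F : IntermediateField k K := adjoin k (Set.range y) ⊓
    (algebraicClosure (adjoin k (Set.range (t l))) K).restrictScalars k
  have hFmem : ∀ a, a ∈ F ↔ a ∈ adjoin k (Set.range y) ∧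
      IsAlgebraic (adjoin k (Set.range (t l))) a := by
    intro a
    rw [IntermediateField.mem_inf, IntermediateField.mem_restrictScalars,
      mem_algebraicClosure_iff]
  have hstab : ∀ i, ∀ a ∈ F, σ i a ∈ F := by
    intro i a ha
    rw [hFmem] at ha ⊢
    refine ⟨?_, conj_alg (t l) (σ i) (fun j => hσB i _ (ht l j)) a ha.2⟩
    have h1 : adjoin k (Set.range y) ≤ (adjoin k (Set.range y)).comap (σ i).toAlgHom := by
      rw [adjoin_le_iff]
      rintro _ ⟨j, rfl⟩
      change σ i (y j) ∈ adjoin k (Set.range y)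
      rw [hσy i j]
      exact subset_adjoin _ _ ⟨_, rfl⟩
    exact h1 ha.1
  have hfaith : ∀ τ ∈ Subgroup.closure (Set.range σ), (∀ a ∈ F, τ a = a) →
      ∀ j, τ (y j) = y j := by
    intro τ hτ hτF
    have hτB : ∀ b ∈ adjoin k (Set.range x), τ b = b := by
      have h1 : Subgroup.closure (Set.range σ) ≤
          (adjoin k (Set.range x)).fixingSubgroup := by
        rw [Subgroup.closure_le]
        rintro _ ⟨i, rfl⟩
        exact hmem _ (hσB i)
      exact hmem' _ (h1 hτ)
    exact hfa τ hτB (fun a h1 h2 => hτF a ((hFmem a).2 ⟨h1, h2⟩))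
  obtain ⟨g, hg, hg'⟩ := eigen y hyi F inf_le_left σ hσy hstab hfaith
  have h1 := g_indep y (roots_indep x y hx hy) σ hσy g
    (fun j => ⟨((hFmem _).1 (hg j).1).1, (hg j).2⟩) hg'
  exact trdeg_le (t l) g h1 (fun j => ((hFmem _).1 (hg j).1).2)

end Pool.Agent.Helper273.Sup
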